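import Pool.Agent.Lib.MP_56f651_co.SG.Mert

/-! The two-class sieve in an arithmetic progression, and the case of rough `m`. -/

open Finset Filter Topology

namespace Pool.Agent.Lib.MP_56f651_co.SG

theorem ap_exists {l a : ℕ} (hl : l.Prime) (ha : ¬ l ∣ a) (b e : ℕ) :
    ∃ r, r < l ∧ b + a * r ≡ e [MOD l] := by
  have := Fact.mk hl
  have h0 : (a : ZMod l) ≠ 0 := fun h => ha ((ZMod.natCast_eq_zero_iff a l).1 h)
  refine ⟨(((e : ZMod l) - b) / a).val, ZMod.val_lt _, ?_⟩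
  rw [← ZMod.natCast_eq_natCast_iff]
  push_cast
  rw [ZMod.natCast_zmod_val, mul_div_cancel₀ _ h0]
  ring

theorem ap_dvd_iff {s m r : ℕ} (hs : 1 ≤ s) (hm : 1 ≤ m) :
    r ∣ vv s m ↔ 1 ≡ 4 * s ^ 2 * m [MOD r] :=
  (Nat.modEq_iff_dvd' (Nat.succ_le_of_lt (by positivity))).symm

theorem ap_sieve {W s M c Y : ℕ} (hW : 16 ≤ W) (hs : 1 ≤ s) (hM : 1 ≤ M) (V Z S : Finset ℕ)
    (hV : ∀ l ∈ V, l.Prime ∧ 5 ≤ l ∧ l ≤ W ∧ ¬ l ∣ M ∧ ¬ l ∣ s)
    (hZ : ∀ l ∈ Z, l.Prime ∧ 5 ≤ l ∧ l ≤ W ∧ ¬ l ∣ M)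
    (hS : ∀ m ∈ S, 1 ≤ m ∧ m ≤ Y ∧ m ≡ c [MOD M] ∧ (∀ l ∈ V, ¬ l ∣ vv s m) ∧ ∀ l ∈ Z, ¬ l ∣ m) :
    (S.card : ℝ) ≤ 2 * Real.exp (-(∑ l ∈ V, (l : ℝ)⁻¹ + ∑ l ∈ Z, (l : ℝ)⁻¹)) * (Y / M) +
      (2 + 2 * (W : ℝ) ^ 28) := by
  classical
  have e1 : ∀ l, ∃ r, l ∈ V → r < l ∧ 4 * s ^ 2 * (c % M + M * r) ≡ 1 [MOD l] := by
    intro l
    by_cases hl : l ∈ V
    · obtain ⟨h1, h2, -, h4, h5⟩ := hV l hl
      have h6 : ¬ l ∣ 4 * s ^ 2 * M := by
        intro h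
        rcases (Nat.Prime.dvd_mul h1).1 h with h | h
        · rcases (Nat.Prime.dvd_mul h1).1 h with h | h
          · have := Nat.le_of_dvd (by norm_num) h
            omega
          · exact h5 (h1.dvd_of_dvd_pow h)
        · exact h4 h
      obtain ⟨r, hr, e⟩ := ap_exists h1 h6 (4 * s ^ 2 * (c % M)) 1
      exact ⟨r, fun _ => ⟨hr, by rwa [mul_add, ← mul_assoc]⟩⟩
    · exact ⟨0, fun h => absurd h hl⟩
  have e2 : ∀ l, ∃ r, l ∈ Z → r < l ∧ c % M + M * r ≡ 0 [MOD l] := by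
    intro l
    by_cases hl : l ∈ Z
    · obtain ⟨r, hr⟩ := ap_exists (hZ l hl).1 (hZ l hl).2.2.2 (c % M) 0
      exact ⟨r, fun _ => hr⟩
    · exact ⟨0, fun h => absurd h hl⟩
  choose rV hrV using e1
  choose rZ hrZ using e2
  obtain ⟨R, hR⟩ : ∃ R : ℕ → Finset ℕ, ∀ l, R l =
      (if l ∈ V then {rV l} else ∅) ∪ (if l ∈ Z then {rZ l} else ∅) := ⟨_, fun _ => rfl⟩
  have hc : ∀ l, (#(R l) : ℝ) = (if l ∈ V then 1 else 0) + if l ∈ Z then 1 else 0 := by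
    intro l
    rw [hR]
    by_cases h1 : l ∈ V <;> by_cases h2 : l ∈ Z
    · have hne : rV l ≠ rZ l := by
        intro e
        have h3 := (hrV l h1).2
        have h4 := ((hrZ l h2).2.mul_left (4 * s ^ 2))
        rw [e] at h3
        have h5 := (Nat.modEq_zero_iff_dvd.1 (h3.symm.trans (by simpa using h4)))
        exact (hV l h1).1.not_dvd_one h5
      rw [if_pos h1, if_pos h2, if_pos h1, if_pos h2, card_union_of_disjoint (by simpa using hne)]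
      norm_num
    · simp [h1, h2]
    · simp [h1, h2]
    · simp [h1, h2]
  have hm : ∀ m ∈ S, c % M + M * (m / M) = m := fun m h => by
    rw [← (hS m h).2.2.1, Nat.mod_add_div]
  have h1 := MP_0a06fe_nt.RT.gen_sieve hW (V ∪ Z) (fun l hl => by
      rcases mem_union.1 hl with h | h
      · exact ⟨(hV l h).1, (hV l h).2.1, (hV l h).2.2.1⟩
      · exact ⟨(hZ l h).1, (hZ l h).2.1, (hZ l h).2.2.1⟩) R (fun l _ => by
      constructor
      · intro r hr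
        rw [hR, mem_union] at hr
        rw [mem_range]
        rcases hr with hr | hr <;> split_ifs at hr with h
        · rw [mem_singleton.1 hr]
          exact (hrV l h).1
        · exact absurd hr (notMem_empty _)
        · rw [mem_singleton.1 hr]
          exact (hrZ l h).1
        · exact absurd hr (notMem_empty _)
      · have : (#(R l) : ℝ) ≤ 2 := by
          rw [hc]
          split_ifs <;> norm_num
        exact_mod_cast this) (A := 0) (B := Y / M + 1) (Nat.zero_le _) (fun _ => 1)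
    (fun _ _ => le_rfl) (fun _ => zero_le_one) (S.image fun m => m / M) (fun t ht => by
      obtain ⟨m, hmS, rfl⟩ := mem_image.1 ht
      obtain ⟨h1, h2, -, h4, h5⟩ := hS m hmS
      refine ⟨Nat.zero_le _, Nat.lt_succ_of_le (Nat.div_le_div_right h2), fun l _ hr => ?_⟩
      have h6 : m ≡ c % M + M * (m / M % l) [MOD l] := by
        conv_lhs => rw [← hm m hmS]
        exact ((Nat.mod_modEq _ _).symm.mul_left _).add_left _
      rw [hR, mem_union] at hr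
      rcases hr with hr | hr <;> split_ifs at hr with h
      · rw [mem_singleton.1 hr] at h6
        exact h4 l h ((ap_dvd_iff hs h1).2 ((h6.mul_left _).trans (hrV l h).2).symm)
      · exact absurd hr (notMem_empty _)
      · rw [mem_singleton.1 hr] at h6
        exact h5 l h (Nat.modEq_zero_iff_dvd.1 (h6.trans (hrZ l h).2))
      · exact absurd hr (notMem_empty _))
  have h2 : ∑ l ∈ V ∪ Z, (#(R l) : ℝ) / l = ∑ l ∈ V, (l : ℝ)⁻¹ + ∑ l ∈ Z, (l : ℝ)⁻¹ := by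
    have : ∀ l, (#(R l) : ℝ) / l =
        (if l ∈ V then (l : ℝ)⁻¹ else 0) + if l ∈ Z then (l : ℝ)⁻¹ else 0 := fun l => by
      rw [hc]
      split_ifs <;> ring
    simp only [this]
    rw [sum_add_distrib, sum_ite_mem, sum_ite_mem, inter_eq_right.2 subset_union_left,
      inter_eq_right.2 subset_union_right]
  rw [h2, sum_const, sum_const, card_image_of_injOn fun a ha b hb (e : a / M = b / M) => by
    rw [← hm a ha, ← hm b hb, e], Nat.card_Ico] at h1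
  simp only [nsmul_eq_mul, mul_one, Nat.sub_zero] at h1
  have h3 : ((Y / M + 1 : ℕ) : ℝ) ≤ (Y : ℝ) / M + 1 := by
    push_cast
    linarith [Nat.cast_div_le (α := ℝ) (m := Y) (n := M)]
  have h4 : Real.exp (-(∑ l ∈ V, (l : ℝ)⁻¹ + ∑ l ∈ Z, (l : ℝ)⁻¹)) ≤ 1 :=
    Real.exp_le_one_iff.2 (neg_nonpos.2 (by positivity))
  have h5 := Real.exp_pos (-(∑ l ∈ V, (l : ℝ)⁻¹ + ∑ l ∈ Z, (l : ℝ)⁻¹))
  nlinarith

theorem vv_modEq {s m m' r : ℕ} (hs : 1 ≤ s) (hm : 1 ≤ m) (hm' : 1 ≤ m') (hr : r.Prime)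
    (h : r ∣ vv s m) (h' : r ∣ vv s m') : m ≡ m' [MOD r] := by
  have _ := hr
  rw [ap_dvd_iff hs hm] at h
  rw [ap_dvd_iff hs hm'] at h'
  exact Nat.ModEq.cancel_left_of_coprime (Nat.coprime_of_mul_modEq_one m h.symm).symm
    (h.symm.trans h')

theorem vv_not_dvd {s m r : ℕ} (hs : 1 ≤ s) (hm : 1 ≤ m) (hr : r.Prime) (h : r ∣ vv s m) :
    r ≠ 2 ∧ ¬ r ∣ s ∧ ¬ r ∣ m := by
  rw [ap_dvd_iff hs hm] at h
  have h1 : ¬ r ∣ 4 * s ^ 2 * m := fun hd => hr.not_dvd_one ((h.dvd_iff dvd_rfl).2 hd)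
  refine ⟨?_, fun hd => h1 ?_, fun hd => h1 (hd.mul_left _)⟩
  · rintro rfl
    exact h1 ⟨2 * s ^ 2 * m, by ring⟩
  · exact ((dvd_pow hd two_ne_zero).mul_left _).mul_right _

theorem three_le_vv {s m : ℕ} (hs : 1 ≤ s) (hm : 1 ≤ m) : 3 ≤ vv s m := by
  have h1 : 1 ≤ s ^ 2 * m := Nat.succ_le_of_lt (by positivity)
  rw [vv, mul_assoc]
  omega

/-- The case where `m` has no small prime factor. -/
theorem R3 : ∃ C : ℝ, 0 ≤ C ∧ ∀ J h X s Y : ℕ, Par J X s Y → h ≤ J → ∀ S : Finset ℕ, S ⊆ Bad s Y →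
    (∀ m ∈ S, ∀ q : ℕ, q.Prime → q ∣ m → T (J - h) ≤ q) →
    (S.card : ℝ) ≤ C * 2 ^ h * Real.exp (-∑ p ∈ EO ((2 * s) ^ 2) (J - h), (p : ℝ)⁻¹) * (Y / 2 ^ J)
      + X / T (J + 9) := by
  classical
  obtain ⟨C, hC, hmert⟩ := mert
  refine ⟨2 * Real.exp (C + 1), by positivity, fun J h X s Y hP hh S hS hq => ?_⟩
  have hW : T (J - h) ≤ T (J + 2) := T_mono (by omega)
  have h16 : 16 ≤ T (J + 2) := sixteen_le_T (by omega)
  have h1 := ap_sieve (W := T (J + 2)) (M := 1) (c := 0) (Y := Y) h16 hP.spos le_rfl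
    (EO ((2 * s) ^ 2) (J - h)) ((PB 0 (J - h)).filter fun l => 5 ≤ l) S (fun l hl => by
      rw [EO, mem_filter, mem_PB] at hl
      exact ⟨hl.1.1, hl.2.1, hl.1.2.2.le.trans hW, hl.1.1.not_dvd_one,
        fun hd => hl.2.2.1 (dvd_pow (hd.mul_left _) two_ne_zero)⟩) (fun l hl => by
      rw [mem_filter, mem_PB] at hl
      exact ⟨hl.1.1, hl.2, hl.1.2.2.le.trans hW, hl.1.1.not_dvd_one⟩) (fun m hm => by
      have hb := hS hm
      rw [Bad, mem_filter, mem_Icc] at hb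
      refine ⟨hb.1.1, hb.1.2, Nat.modEq_one, fun l hl hd => ?_, fun l hl hd => ?_⟩
      · rw [EO, mem_filter, mem_PB] at hl
        exact hl.2.2.2 (hb.2.2 l hl.1.1 hd).2
      · rw [mem_filter, mem_PB] at hl
        exact absurd (hq m hm l hl.1.1 hd) (not_le.2 hl.1.2.2))
  have h2 : ∑ l ∈ (PB 0 (J - h)).filter (fun l => ¬ 5 ≤ l), (l : ℝ)⁻¹ ≤ 1 := by
    refine (sum_le_sum_of_subset_of_nonneg (t := {2, 3}) (fun l hl => ?_)
      fun _ _ _ => by positivity).trans (by norm_num)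
    rw [mem_filter, mem_PB] at hl
    obtain ⟨⟨h3, -, -⟩, h4⟩ := hl
    have h5 := h3.two_le
    have h6 : l ≠ 4 := by
      rintro rfl
      exact absurd h3 (by norm_num)
    rw [mem_insert, mem_singleton]
    omega
  have h3 := sum_filter_add_sum_filter_not (PB 0 (J - h)) (fun l => 5 ≤ l) fun l => (l : ℝ)⁻¹
  have h4 := (abs_le.1 (hmert 0 (J - h) (Nat.zero_le _))).1
  have h5 : Real.exp (-∑ l ∈ (PB 0 (J - h)).filter (fun l => 5 ≤ l), (l : ℝ)⁻¹) ≤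
      Real.exp (C + 1) * 2 ^ h / 2 ^ J := by
    have e : (2 : ℝ) ^ J = 2 ^ h * Real.exp (((J - h : ℕ) : ℝ) * Real.log 2) := by
      rw [Real.exp_nat_mul, Real.exp_log two_pos, ← pow_add, Nat.add_sub_cancel' hh]
    rw [e, mul_comm (Real.exp (C + 1)), mul_div_mul_left _ _ (by positivity), ← Real.exp_sub]
    refine Real.exp_le_exp.2 ?_
    rw [Nat.cast_zero, sub_zero] at h4
    linarith
  have h6 : 2 + 2 * (T (J + 2) : ℝ) ^ 28 ≤ X / T (J + 9) := by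
    have h7 : 0 < T (J + 9) := lt_of_lt_of_le two_pos (two_le_T _)
    rw [le_div_iff₀ (by exact_mod_cast h7)]
    have h8 : (2 + 2 * T (J + 2) ^ 28) * T (J + 9) ≤ X := by
      have e1 : T (J + 7) = T (J + 2) ^ 28 * T (J + 2) ^ 4 := by
        rw [show J + 7 = J + 2 + 5 by ring, T_add, ← pow_add]
        norm_num
      have e2 : 1 ≤ T (J + 2) ^ 28 := Nat.one_le_pow _ _ (by omega)
      have e3 : 4 ≤ T (J + 2) ^ 4 := le_trans (by norm_num) (Nat.pow_le_pow_left h16 4)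
      have e4 : 2 + 2 * T (J + 2) ^ 28 ≤ T (J + 10) := by
        refine le_trans ?_ (T_mono (show J + 7 ≤ J + 10 by omega))
        rw [e1]
        nlinarith
      refine le_trans (Nat.mul_le_mul e4 (T_mono (show J + 9 ≤ J + 10 by omega))) ?_
      rw [← sq, ← T_succ]
      exact hP.lo
    exact_mod_cast h8
  rw [neg_add, Real.exp_add, Nat.cast_one, div_one] at h1
  refine h1.trans (add_le_add ?_ h6)
  have h9 := Real.exp_pos (-∑ p ∈ EO ((2 * s) ^ 2) (J - h), (p : ℝ)⁻¹)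
  calc _ ≤ 2 * (Real.exp (-∑ p ∈ EO ((2 * s) ^ 2) (J - h), (p : ℝ)⁻¹) *
        (Real.exp (C + 1) * 2 ^ h / 2 ^ J)) * (Y : ℝ) := by gcongr
    _ = _ := by ring

end Pool.Agent.Lib.MP_56f651_co.SG
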