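import Pool.Agent.Lib.MP_56f651_co.SG.Mert

/-! The saving `sig` is large on average over primes. -/

open Finset Filter Topology

namespace Pool.Agent.Lib.MP_56f651_co.SG

open Pool.Agent.Lib.MP_0a06fe_nt

/-- The weight at one prime. -/
noncomputable def avgJ (l n : ℕ) : ℝ :=
  if l ∣ n then 0 else if l % 4 = 1 ∧ jacobiSym n l = -1 then Real.exp (-(l : ℝ)⁻¹) else 1

/-- The mean of the weight at one prime. -/
noncomputable def avgG (l : ℕ) : ℝ := (∑ n ∈ range l, avgJ l n) / l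

theorem avgJ_nonneg (l n : ℕ) : 0 ≤ avgJ l n := by
  unfold avgJ
  split_ifs
  · exact le_rfl
  · exact (Real.exp_pos _).le
  · exact zero_le_one

theorem avgJ_le_one (l n : ℕ) : avgJ l n ≤ 1 := by
  unfold avgJ
  split_ifs
  · exact zero_le_one
  · exact Real.exp_le_one_iff.2 (neg_nonpos.2 (by positivity))
  · exact le_rfl

theorem avg_jac_add (l n : ℕ) : jacobiSym ((n + l : ℕ) : ℤ) l = jacobiSym n l := by
  refine jacobiSym.mod_left' ?_
  push_cast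
  exact Int.add_emod_right _ _

theorem avgJ_add (l n : ℕ) : avgJ l (n + l) = avgJ l n := by
  unfold avgJ
  rw [avg_jac_add]
  simp only [Nat.dvd_add_self_right]

theorem avg_sum_jac {l : ℕ} (hl : l.Prime) (h2 : l ≠ 2) :
    ∑ n ∈ range l, ((jacobiSym n l : ℤ) : ℝ) = 0 := by
  haveI := Fact.mk hl
  obtain ⟨a, ha⟩ := FiniteField.exists_nonsquare (F := ZMod l) (by rwa [ZMod.ringChar_zmod_n])
  have h1 : jacobiSym (a.val : ℕ) l = -1 := by
    rw [← jacobiSym.legendreSym.to_jacobiSym, legendreSym.eq_neg_one_iff']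
    rwa [ZMod.natCast_zmod_val]
  have h3 : Nat.Coprime a.val l := by
    by_contra hc
    have h4 : jacobiSym (a.val : ℕ) l = 0 :=
      jacobiSym.eq_zero_iff.2 ⟨hl.ne_zero, by rwa [Int.gcd_natCast_natCast]⟩
    rw [h4] at h1
    exact absurd h1 (by norm_num)
  refine sum_eq_zero_of_flip (fun n => ((jacobiSym n l : ℤ) : ℝ)) l a.val hl.pos
    (fun n => by rw [avg_jac_add]) h3 fun n => ?_
  rw [Nat.cast_mul, jacobiSym.mul_left, h1]
  push_cast
  ring

theorem avg_sum_dvd {l : ℕ} (hl : 0 < l) :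
    ∑ n ∈ range l, (if l ∣ n then (1 : ℝ) else 0) = 1 := by
  rw [sum_eq_single 0]
  · simp
  · intro n hn h0
    exact if_neg (Nat.not_dvd_of_pos_of_lt (Nat.pos_of_ne_zero h0) (mem_range.1 hn))
  · intro h
    exact absurd (mem_range.2 hl) h

theorem avgG_nonneg (l : ℕ) : 0 ≤ avgG l :=
  div_nonneg (sum_nonneg fun n _ => avgJ_nonneg l n) (Nat.cast_nonneg l)

theorem avgG_le {l : ℕ} (hl : l.Prime) :
    avgG l ≤ Real.exp (-(l : ℝ)⁻¹ - if l % 4 = 1 then (l : ℝ)⁻¹ / 4 else 0) := by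
  have hl0 : (0 : ℝ) < l := by exact_mod_cast hl.pos
  have hl1 : (1 : ℝ) ≤ l := by exact_mod_cast hl.pos
  have hx0 : (0 : ℝ) < (l : ℝ)⁻¹ := inv_pos.2 hl0
  have hx1 : (l : ℝ)⁻¹ ≤ 1 := inv_le_one_of_one_le₀ hl1
  have hs : ∑ n ∈ range l, (1 - if l ∣ n then (1 : ℝ) else 0) = l * (1 - (l : ℝ)⁻¹) := by
    rw [sum_sub_distrib, avg_sum_dvd hl.pos, sum_const, card_range, nsmul_eq_mul]
    field_simp
  have he : 1 - (l : ℝ)⁻¹ ≤ Real.exp (-(l : ℝ)⁻¹) := Real.one_sub_le_exp_neg _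
  unfold avgG
  rw [div_le_iff₀ hl0]
  by_cases h4 : l % 4 = 1
  · rw [if_pos h4]
    set a := Real.exp (-(l : ℝ)⁻¹) with ha
    have h1 : ∀ n : ℕ, avgJ l n = (1 + a) / 2 * (1 - if l ∣ n then (1 : ℝ) else 0) +
        (1 - a) / 2 * ((jacobiSym n l : ℤ) : ℝ) := fun n => by
      unfold avgJ
      by_cases hd : l ∣ n
      · have h2 : jacobiSym n l = 0 := jacobiSym.eq_zero_iff.2 ⟨hl.ne_zero, by
          rw [Int.gcd_natCast_natCast, Nat.gcd_eq_right hd]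
          exact hl.ne_one⟩
        simp [hd, h2]
      · have h2 : (n : ℤ).gcd l = 1 := by
          rw [Int.gcd_natCast_natCast]
          exact ((Nat.Prime.coprime_iff_not_dvd hl).2 hd).symm
        rcases jacobiSym.eq_one_or_neg_one h2 with h3 | h3
        · rw [if_neg hd, if_neg hd, h3, if_neg (by norm_num)]
          push_cast
          ring
        · rw [if_neg hd, if_neg hd, if_pos ⟨h4, h3⟩, h3]
          push_cast
          ring
    rw [sum_congr rfl fun n _ => h1 n, sum_add_distrib, ← mul_sum, ← mul_sum, hs,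
      avg_sum_jac hl (by omega), mul_zero, add_zero, sub_eq_add_neg (-(l : ℝ)⁻¹), Real.exp_add]
    have h5 : a ≤ 1 - (l : ℝ)⁻¹ / 2 := by
      have h6 := Real.add_one_le_exp (l : ℝ)⁻¹
      rw [ha, Real.exp_neg, inv_le_iff_one_le_mul₀ (Real.exp_pos _)]
      nlinarith
    have h6 : 1 - (l : ℝ)⁻¹ / 4 ≤ Real.exp (-((l : ℝ)⁻¹ / 4)) := Real.one_sub_le_exp_neg _
    have h7 : (1 + a) / 2 ≤ Real.exp (-((l : ℝ)⁻¹ / 4)) := by linarith
    have h8 : (1 + a) / 2 * (1 - (l : ℝ)⁻¹) ≤ Real.exp (-((l : ℝ)⁻¹ / 4)) * a :=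
      mul_le_mul h7 he (by linarith) (Real.exp_pos _).le
    nlinarith
  · rw [if_neg h4, sub_zero]
    have h1 : ∑ n ∈ range l, avgJ l n ≤ ∑ n ∈ range l, (1 - if l ∣ n then (1 : ℝ) else 0) :=
      sum_le_sum fun n _ => by
        by_cases hd : l ∣ n
        · simp [avgJ, hd]
        · rw [if_neg hd, sub_zero]
          exact avgJ_le_one l n
    rw [hs] at h1
    nlinarith

theorem avg_prod_eq {y r : ℕ} (hr : r.Prime) (hy : T y ≤ r) :
    ∏ l ∈ PB 0 y, avgJ l r = Real.exp (-sig y r) := by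
  unfold sig
  rw [← sum_neg_distrib, Real.exp_sum, prod_filter]
  refine prod_congr rfl fun l hl => ?_
  obtain ⟨h1, -, h3⟩ := mem_PB.1 hl
  have h4 : ¬ l ∣ r := fun h => by
    have := (Nat.prime_dvd_prime_iff_eq h1 hr).1 h
    omega
  unfold avgJ
  rw [if_neg h4]

theorem avg_prod_le : ∃ C : ℝ, ∀ y : ℕ,
    ∏ l ∈ PB 0 y, avgG l ≤ Real.exp (C - y * Real.log 2 - y / 16) := by
  obtain ⟨C, -, hC⟩ := mert
  obtain ⟨C', hC'⟩ := class_low 4 1 (by norm_num) (by norm_num)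
  refine ⟨C + C' / 4, fun y => ?_⟩
  have h1 := (abs_le.1 (hC 0 y (Nat.zero_le _))).1
  have h2 := hC' y
  have h3 : Nat.totient 4 = 2 := by decide
  rw [h3] at h2
  have h4 : ∑ l ∈ PB 0 y, (if l % 4 = 1 then (l : ℝ)⁻¹ / 4 else 0) =
      (∑ p ∈ (PB 0 y).filter (fun p => p ≡ 1 [MOD 4]), (p : ℝ)⁻¹) / 4 := by
    rw [← sum_filter, sum_div]
    rfl
  calc ∏ l ∈ PB 0 y, avgG l
      ≤ ∏ l ∈ PB 0 y, Real.exp (-(l : ℝ)⁻¹ - if l % 4 = 1 then (l : ℝ)⁻¹ / 4 else 0) :=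
        prod_le_prod (fun l _ => avgG_nonneg l) fun l hl => avgG_le (mem_PB.1 hl).1
    _ = Real.exp (-(∑ l ∈ PB 0 y, (l : ℝ)⁻¹) -
          ∑ l ∈ PB 0 y, (if l % 4 = 1 then (l : ℝ)⁻¹ / 4 else 0)) := by
        rw [← Real.exp_sum, sum_sub_distrib, sum_neg_distrib]
    _ ≤ _ := by
        rw [h4]
        refine Real.exp_le_exp.2 ?_
        push_cast at h1 h2
        linarith

/-- The sieve bound. -/
theorem avg_core {y m N : ℕ} (hym : y ≤ m) (hm : 2 ≤ m) (hN : m + 6 ≤ N) :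
    ∑ r ∈ PB (m + 6) N, Real.exp (-sig y r) / r ≤
      2 * (∏ l ∈ PB 0 y, avgG l) * Real.exp (-∑ p ∈ PB y m, (p : ℝ)⁻¹) * 2 ^ (N + 1) +
        2 * (∏ l ∈ PB 0 y, l : ℕ) / T m := by
  classical
  have hW := sixteen_le_T hm
  have hWr : (16 : ℝ) ≤ T m := by exact_mod_cast hW
  have hz : 1 ≤ T m ^ 7 := Nat.one_le_pow _ _ (by omega)
  have hmA : T m ≤ T (m + 6) := T_mono (by omega)
  have hg' : ∀ p ∈ PB y m, 0 ≤ (p : ℝ)⁻¹ ∧ (p : ℝ)⁻¹ ≤ 1 / 2 := fun p hp => ⟨by positivity, by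
    have : (2 : ℝ) ≤ p := by exact_mod_cast (mem_PB.1 hp).1.two_le
    rw [one_div]
    exact inv_anti₀ two_pos this⟩
  have h1 := sieve_main (PB y m) (PB 0 y) (T m ^ 7) (fun p => (p : ℝ)⁻¹) avgG
    (fun p n => if p ∣ n then 1 else 0) avgJ (fun n => (n : ℝ)⁻¹)
    (fun p hp => (mem_PB.1 hp).1) (fun p hp => (mem_PB.1 hp).1)
    (disjoint_left.2 fun p hp hq => by
      have := (mem_PB.1 hp).2.2
      have := (mem_PB.1 hq).2.1
      omega) hg'
    (fun p _ n => by split_ifs <;> simp)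
    (fun p _ n => by simp only [Nat.dvd_add_self_right])
    (fun p hp => by
      have h0 : (p : ℝ) ≠ 0 := by exact_mod_cast (mem_PB.1 hp).1.ne_zero
      rw [avg_sum_dvd (mem_PB.1 hp).1.pos, mul_inv_cancel₀ h0])
    (fun p _ n => by
      rw [abs_of_nonneg (avgJ_nonneg p n)]
      exact avgJ_le_one p n)
    (fun p _ n => avgJ_add p n)
    (fun p hp => by
      have h0 : (p : ℝ) ≠ 0 := by exact_mod_cast (mem_PB.1 hp).1.ne_zero
      unfold avgG
      field_simp)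
    (T (m + 6)) (T N) (T_mono hN)
    (fun n hn => by
      have h0 : (0 : ℝ) < n := by exact_mod_cast (by omega : 0 < n)
      refine inv_anti₀ h0 ?_
      push_cast
      linarith) (by positivity) (by positivity)
  have h2 : (∑ r ∈ PB (m + 6) N, Real.exp (-sig y r) / r) *
      selG (PB y m) (T m ^ 7) (fun p => (p : ℝ)⁻¹) ^ 2 ≤
      ∑ n ∈ Ico (T (m + 6)) (T N), (∏ p ∈ PB 0 y, avgJ p n) *
        selPhi (PB y m) (T m ^ 7) (fun p => (p : ℝ)⁻¹) (fun p n => if p ∣ n then 1 else 0) n ^ 2 *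
          (n : ℝ)⁻¹ := by
    rw [sum_mul]
    refine le_trans (le_of_eq (sum_congr rfl fun r hr => ?_)) (sum_le_sum_of_subset_of_nonneg
      (filter_subset _ _) fun n _ _ => mul_nonneg (mul_nonneg
        (prod_nonneg fun p _ => avgJ_nonneg p n) (by positivity)) (by positivity))
    obtain ⟨k1, k2, -⟩ := mem_PB.1 hr
    have k3 : T y ≤ T m := T_mono hym
    rw [selPhi_sifted _ _ _ _ r fun q hq => if_neg fun h => by
      have := (Nat.prime_dvd_prime_iff_eq (mem_PB.1 hq).1 k1).1 h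
      have := (mem_PB.1 hq).2.2
      omega, avg_prod_eq k1 (by omega)]
    ring
  have h3 : 1 ≤ selG (PB y m) (T m ^ 7) fun p => (p : ℝ)⁻¹ := by
    have h1 : (∅ : Finset ℕ) ∈ sieveSet (PB y m) (T m ^ 7) := by
      simpa only [sieveSet, mem_filter, empty_mem_powerset, prod_empty, true_and] using hz
    have := single_le_sum (f := fun e : Finset ℕ => ∏ p ∈ e, (p : ℝ)⁻¹ / (1 - (p : ℝ)⁻¹))
      (fun e he => prod_nonneg fun p hp => by
        have := hg' p (mem_powerset.mp (mem_filter.mp he).1 hp)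
        exact div_nonneg this.1 (by linarith [this.2])) h1
    rwa [prod_empty] at this
  have h4 := selG_ge (PB y m) (T m ^ 7) (T m) (fun p => (p : ℝ)⁻¹) (by omega) le_rfl
    (fun p hp => ⟨(mem_PB.1 hp).1.pos, (mem_PB.1 hp).2.2.le⟩) hg' (by
      have h2 := sum_log_div_le (n := T m) (by omega)
      have h3 : ∑ p ∈ PB y m, (p : ℝ)⁻¹ * Real.log p ≤ ∑ p ∈ (T m).primesLE, Real.log p / p := by
        refine le_trans (le_of_eq (sum_congr rfl fun p _ => by ring))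
          (sum_le_sum_of_subset_of_nonneg (s := PB y m)
            (fun p hp => Nat.mem_primesLE.2 ⟨(mem_PB.1 hp).2.2.le, (mem_PB.1 hp).1⟩)
            fun p _ _ => div_nonneg (Real.log_natCast_nonneg p) (by positivity))
      have h4 : Real.log 4 ≤ Real.log (T m) := Real.log_le_log (by norm_num) (by linarith)
      have h5 : 0 ≤ Real.log (T m) := Real.log_natCast_nonneg _
      linarith)
  have h5 : ∑ n ∈ Ico (T (m + 6)) (T N), (n : ℝ)⁻¹ ≤ 2 ^ (N + 1) := by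
    refine (RT.sum_inv_le (x := T N) _ fun n hn => (mem_Ico.1 hn).2.le).trans ?_
    unfold RT.HH
    rw [log_T, pow_succ]
    have k1 : (1 : ℝ) ≤ 2 ^ N := one_le_pow₀ one_le_two
    have k2 := Real.log_two_lt_d9
    nlinarith
  have h6 : ((T m ^ 7 : ℕ) : ℝ) ^ 4 * (∏ l ∈ PB 0 y, l : ℕ) * 2 * ((T (m + 6) : ℕ) : ℝ)⁻¹ ≤
      2 * (∏ l ∈ PB 0 y, l : ℕ) / T m := by
    have k0 : (0 : ℝ) ≤ (∏ l ∈ PB 0 y, l : ℕ) := Nat.cast_nonneg _
    rw [T_add]
    generalize ((∏ l ∈ PB 0 y, l : ℕ) : ℝ) = P at k0 ⊢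
    push_cast
    generalize (T m : ℝ) = W at hWr ⊢
    have k1 : W ^ 29 ≤ W ^ 64 := pow_le_pow_right₀ (by linarith) (by norm_num)
    rw [← div_eq_mul_inv, div_le_div_iff₀ (by positivity) (by positivity)]
    calc (W ^ 7) ^ 4 * P * 2 * W = 2 * P * W ^ 29 := by ring
      _ ≤ _ := by gcongr
  have h7 := h2.trans (h1.trans (add_le_add le_rfl h6))
  have hX : 0 ≤ ∑ n ∈ Ico (T (m + 6)) (T N), (n : ℝ)⁻¹ := sum_nonneg fun n _ => by positivity
  have hP : 0 ≤ ∏ l ∈ PB 0 y, avgG l := prod_nonneg fun l _ => avgG_nonneg l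
  have hF : (0 : ℝ) ≤ 2 * (∏ l ∈ PB 0 y, l : ℕ) / T m := by positivity
  rw [Real.exp_neg]
  have hE := Real.exp_pos (∑ p ∈ PB y m, (p : ℝ)⁻¹)
  clear h1 h2 h6
  generalize Real.exp (∑ p ∈ PB y m, (p : ℝ)⁻¹) = E at *
  generalize selG (PB y m) (T m ^ 7) (fun p => (p : ℝ)⁻¹) = S at *
  generalize ∑ n ∈ Ico (T (m + 6)) (T N), (n : ℝ)⁻¹ = X at *
  generalize ∑ r ∈ PB (m + 6) N, Real.exp (-sig y r) / r = Y at *
  generalize ∏ l ∈ PB 0 y, avgG l = P at *
  generalize (2 : ℝ) * (∏ l ∈ PB 0 y, l : ℕ) / T m = F at *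
  generalize (2 : ℝ) ^ (N + 1) = Z at *
  have k1 : 1 ≤ 2 * E⁻¹ * S := by
    have k2 : 2 * E⁻¹ * (E / 2) = 1 := by field_simp
    rw [← k2]
    gcongr
  have k2 : P * S * X ≤ 2 * P * E⁻¹ * Z * S ^ 2 := by
    calc P * S * X ≤ P * S * Z * 1 := by
          rw [mul_one]
          gcongr
      _ ≤ P * S * Z * (2 * E⁻¹ * S) :=
          mul_le_mul_of_nonneg_left k1 (mul_nonneg (mul_nonneg hP (by linarith)) (by linarith))
      _ = _ := by ring
  have k3 : F ≤ F * S ^ 2 := le_mul_of_one_le_right hF (one_le_pow₀ h3)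
  refine le_of_mul_le_mul_right ?_ (show 0 < S ^ 2 by positivity)
  rw [add_mul]
  linarith

theorem avg (h : ℕ) (ε : ℝ) (hε : 0 < ε) : ∃ y : ℕ, ∀ᶠ J : ℕ in atTop,
    ∑ r ∈ PB (J - h) (J + 12), Real.exp (-sig y r) / r ≤ ε := by
  obtain ⟨C, -, hC⟩ := mert
  obtain ⟨C', hC'⟩ := avg_prod_le
  obtain ⟨y, hy⟩ := exists_nat_ge
    (16 * (C + C' + (h + 19) * Real.log 2 - Real.log (ε / 4)))
  obtain ⟨M, hM⟩ := exists_nat_ge (4 * ((∏ l ∈ PB 0 y, l : ℕ) : ℝ) / ε)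
  refine ⟨y, ?_⟩
  filter_upwards [eventually_ge_atTop (h + 6 + (y + M + 2))] with J hJ
  obtain ⟨m, rfl⟩ : ∃ m, J = m + 6 + h := ⟨J - 6 - h, by omega⟩
  rw [Nat.add_sub_cancel]
  refine (avg_core (by omega) (by omega) (by omega)).trans ?_
  have h1 := (abs_le.1 (hC y m (by omega))).1
  have h2 : (2 : ℝ) ^ (m + 6 + h + 12 + 1) = Real.exp ((m + h + 19) * Real.log 2) := by
    rw [mul_comm, Real.exp_mul, Real.exp_log two_pos, ← Real.rpow_natCast]
    congr 1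
    push_cast
    ring
  have h3 : (∏ l ∈ PB 0 y, avgG l) * Real.exp (-∑ p ∈ PB y m, (p : ℝ)⁻¹) *
      2 ^ (m + 6 + h + 12 + 1) ≤ ε / 4 := by
    calc _ ≤ Real.exp (C' - y * Real.log 2 - y / 16) * Real.exp (-∑ p ∈ PB y m, (p : ℝ)⁻¹) *
          2 ^ (m + 6 + h + 12 + 1) := by
          gcongr
          exact hC' y
      _ ≤ Real.exp (Real.log (ε / 4)) := by
          rw [h2, ← Real.exp_add, ← Real.exp_add]
          refine Real.exp_le_exp.2 ?_
          linarith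
      _ = ε / 4 := Real.exp_log (by positivity)
  have h4 : (M : ℝ) ≤ T m := by
    have k1 : m ≤ T m := T_strictMono.id_le m
    exact_mod_cast (by omega : M ≤ T m)
  have h5 : (0 : ℝ) < T m := by
    have := two_le_T m
    exact_mod_cast (by omega : 0 < T m)
  have h6 : 2 * ((∏ l ∈ PB 0 y, l : ℕ) : ℝ) / T m ≤ ε / 2 := by
    rw [div_le_iff₀ hε] at hM
    rw [div_le_iff₀ h5]
    nlinarith
  linarith

end Pool.Agent.Lib.MP_56f651_co.SG
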