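import Pool.Agent.Lib.MP_56f651_co.SG.Defs

/-! Two geometric sums. -/

open Finset Filter Topology

namespace Pool.Agent.Lib.MP_56f651_co.SG

theorem blocks_dn {c : ℝ} (hc : 0 < c) (i n : ℕ) :
    ∑ j ∈ range n, (if i ≤ j then Real.exp (-(c * j)) else 0) ≤
      Real.exp (-(c * i)) / (1 - Real.exp (-c)) := by
  have h1 : Real.exp (-c) < 1 := Real.exp_lt_one_iff.2 (by linarith)
  have h0 : 0 ≤ Real.exp (-c) := (Real.exp_pos _).le
  have e : ∀ j : ℕ, Real.exp (-(c * j)) = Real.exp (-c) ^ j := by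
    intro j
    rw [← Real.exp_nat_mul]
    congr 1
    ring
  simp only [e]
  rw [← Finset.sum_filter]
  have hs : (range n).filter (fun j => i ≤ j) = Ico i n := by
    ext j
    simp only [mem_filter, mem_range, mem_Ico]
    tauto
  rw [hs]
  exact geom_sum_Ico_le_of_lt_one h0 h1

theorem blocks_dn0 {c : ℝ} (hc : 0 < c) (n : ℕ) :
    ∑ j ∈ range n, Real.exp (-(c * j)) ≤ 1 / (1 - Real.exp (-c)) := by
  have h := blocks_dn hc 0 n
  simpa using h

theorem blocks_up {c : ℝ} (hc : 0 < c) (n : ℕ) :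
    ∑ j ∈ range n, Real.exp (c * j) ≤ Real.exp (c * n) / (Real.exp c - 1) := by
  have h1 : 1 < Real.exp c := Real.one_lt_exp_iff.2 hc
  have e : ∀ j : ℕ, Real.exp (c * j) = Real.exp c ^ j := by
    intro j
    rw [← Real.exp_nat_mul]
    congr 1
    ring
  simp only [e]
  rw [geom_sum_eq h1.ne']
  apply div_le_div_of_nonneg_right _ (by linarith)
  linarith

theorem blocks_termA (i j k J : ℕ) :
    Real.exp (Real.log 2 * (-(j : ℝ) - k + (max i k : ℕ) / 2 +
        3 * (max j k : ℕ) / 4 - 5 * J / 4)) ≤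
      Real.exp (-(Real.log 2 / 4 * j)) * (Real.exp (-(Real.log 2 / 4 * (5 * J))) *
        (Real.exp (Real.log 2 / 4 * (2 * i)) * Real.exp (-(Real.log 2 / 4 * k)) +
          Real.exp (Real.log 2 / 4 * k))) := by
  have hL : 0 < Real.log 2 := Real.log_pos (by norm_num)
  have hi : (0 : ℝ) ≤ i := Nat.cast_nonneg i
  have hj : (0 : ℝ) ≤ j := Nat.cast_nonneg j
  have hk : (0 : ℝ) ≤ k := Nat.cast_nonneg k
  have hm : ((max j k : ℕ) : ℝ) ≤ j + k := by
    have : max j k ≤ j + k := by omega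
    exact_mod_cast this
  rw [mul_add, mul_add]
  simp only [← Real.exp_add]
  rcases le_total k i with h | h
  · rw [max_eq_left h]
    refine le_trans (Real.exp_le_exp.2 ?_) (le_add_of_nonneg_right (Real.exp_pos _).le)
    nlinarith [mul_le_mul_of_nonneg_left hm hL.le]
  · rw [max_eq_right h]
    refine le_trans (Real.exp_le_exp.2 ?_) (le_add_of_nonneg_left (Real.exp_pos _).le)
    nlinarith [mul_le_mul_of_nonneg_left hm hL.le]

theorem blockA : ∃ C : ℝ, 0 ≤ C ∧ ∀ J h : ℕ, h ≤ J →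
    ∑ i ∈ range (J - h), ∑ j ∈ range J, ∑ k ∈ range (J - h),
      (if i ≤ j then Real.exp (Real.log 2 * (-(j : ℝ) - k + (max i k : ℕ) / 2 +
        3 * (max j k : ℕ) / 4 - 5 * J / 4)) else 0) ≤
      C * Real.exp (-(Real.log 2 * (J + h / 4))) := by
  have hL : 0 < Real.log 2 := Real.log_pos (by norm_num)
  obtain ⟨c, hcd⟩ : ∃ c : ℝ, c = Real.log 2 / 4 := ⟨_, rfl⟩
  have hc : 0 < c := by rw [hcd]; positivity
  obtain ⟨K, hK⟩ : ∃ K : ℝ, K = 1 / (1 - Real.exp (-c)) := ⟨_, rfl⟩
  obtain ⟨U, hU⟩ : ∃ U : ℝ, U = 1 / (Real.exp c - 1) := ⟨_, rfl⟩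
  have h1 : Real.exp (-c) < 1 := Real.exp_lt_one_iff.2 (by linarith)
  have h2 : 1 < Real.exp c := Real.one_lt_exp_iff.2 hc
  have hK0 : 0 ≤ K := by rw [hK]; apply div_nonneg zero_le_one; linarith
  have hU0 : 0 ≤ U := by rw [hU]; apply div_nonneg zero_le_one; linarith
  refine ⟨2 * K * K * U, by positivity, fun J h hh => ?_⟩
  obtain ⟨H, hH⟩ : ∃ H : ℕ, H = J - h := ⟨_, rfl⟩
  have hHr : (H : ℝ) = J - h := by rw [hH, Nat.cast_sub hh]
  rw [← hH]
  obtain ⟨E, hE⟩ : ∃ E : ℝ, E = Real.exp (-(c * (5 * J))) := ⟨_, rfl⟩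
  have hE0 : 0 ≤ E := by rw [hE]; positivity
  have hup : ∑ k ∈ range H, Real.exp (c * k) ≤ U * Real.exp (c * H) := by
    refine (blocks_up hc H).trans (le_of_eq ?_)
    rw [hU]; ring
  have hdn : ∑ k ∈ range H, Real.exp (-(c * k)) ≤ K := by
    rw [hK]; exact blocks_dn0 hc H
  have step : ∀ i : ℕ, ∑ j ∈ range J, ∑ k ∈ range H,
      (if i ≤ j then Real.exp (Real.log 2 * (-(j : ℝ) - k + (max i k : ℕ) / 2 +
        3 * (max j k : ℕ) / 4 - 5 * J / 4)) else 0) ≤
      K * E * (K * Real.exp (c * i) + U * Real.exp (c * H) * Real.exp (-(c * i))) := by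
    intro i
    have hin : ∑ k ∈ range H, E * (Real.exp (c * (2 * i)) * Real.exp (-(c * k)) +
        Real.exp (c * k)) ≤ E * (Real.exp (c * (2 * i)) * K + U * Real.exp (c * H)) := by
      rw [← mul_sum, sum_add_distrib, ← mul_sum]
      apply mul_le_mul_of_nonneg_left _ hE0
      exact add_le_add (mul_le_mul_of_nonneg_left hdn (Real.exp_pos _).le) hup
    have hB0 : 0 ≤ E * (Real.exp (c * (2 * i)) * K + U * Real.exp (c * H)) := by positivity
    calc _ ≤ ∑ j ∈ range J, (if i ≤ j then Real.exp (-(c * j)) else 0) *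
          (E * (Real.exp (c * (2 * i)) * K + U * Real.exp (c * H))) := by
          refine sum_le_sum fun j _ => ?_
          by_cases hij : i ≤ j
          · simp only [if_pos hij]
            refine le_trans (sum_le_sum fun k _ => blocks_termA i j k J) ?_
            rw [← hcd, ← hE, ← mul_sum]
            exact mul_le_mul_of_nonneg_left hin (Real.exp_pos _).le
          · simp only [if_neg hij, sum_const_zero, zero_mul, le_refl]
      _ ≤ Real.exp (-(c * i)) / (1 - Real.exp (-c)) *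
          (E * (Real.exp (c * (2 * i)) * K + U * Real.exp (c * H))) := by
          rw [← sum_mul]
          exact mul_le_mul_of_nonneg_right (blocks_dn hc i J) hB0
      _ = _ := by
          have e1 : Real.exp (c * (2 * i)) = Real.exp (c * i) * Real.exp (c * i) := by
            rw [← Real.exp_add]; congr 1; ring
          have e2 : Real.exp (-(c * i)) * Real.exp (c * i) = 1 := by
            rw [← Real.exp_add]; simp
          have e3 : Real.exp (-(c * i)) / (1 - Real.exp (-c)) = K * Real.exp (-(c * i)) := by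
            rw [hK]; ring
          rw [e1, e3]
          linear_combination (K * E * K * Real.exp (c * i)) * e2
  refine le_trans (sum_le_sum fun i _ => step i) ?_
  rw [← mul_sum, sum_add_distrib, ← mul_sum, ← mul_sum]
  have e4 : Real.exp (-(Real.log 2 * (J + h / 4))) = E * Real.exp (c * H) := by
    rw [hE, ← Real.exp_add, hHr, hcd]; congr 1; ring
  rw [e4]
  have a1 := mul_le_mul_of_nonneg_left hup hK0
  have a2 := mul_le_mul_of_nonneg_left hdn
    (show 0 ≤ U * Real.exp (c * H) by positivity)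
  calc _ ≤ K * E * (K * (U * Real.exp (c * H)) + U * Real.exp (c * H) * K) :=
        mul_le_mul_of_nonneg_left (add_le_add a1 a2) (by positivity)
    _ = _ := by ring

theorem blockB : ∃ C : ℝ, 0 ≤ C ∧ ∀ J h : ℕ, h ≤ J →
    ∑ i ∈ range (J - h), ∑ k ∈ range (J - h),
      Real.exp (Real.log 2 * (-(k : ℝ) + (max i k : ℕ) / 2 - 3 * J / 2)) ≤
      C * Real.exp (-(Real.log 2 * (J + h / 4))) := by
  have hL : 0 < Real.log 2 := Real.log_pos (by norm_num)
  obtain ⟨c, hcd⟩ : ∃ c : ℝ, c = Real.log 2 / 2 := ⟨_, rfl⟩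
  have hc : 0 < c := by rw [hcd]; positivity
  obtain ⟨K, hK⟩ : ∃ K : ℝ, K = 1 / (1 - Real.exp (-c)) := ⟨_, rfl⟩
  obtain ⟨U, hU⟩ : ∃ U : ℝ, U = 1 / (Real.exp c - 1) := ⟨_, rfl⟩
  have h1 : Real.exp (-c) < 1 := Real.exp_lt_one_iff.2 (by linarith)
  have h2 : 1 < Real.exp c := Real.one_lt_exp_iff.2 hc
  have hK0 : 0 ≤ K := by rw [hK]; apply div_nonneg zero_le_one; linarith
  have hU0 : 0 ≤ U := by rw [hU]; apply div_nonneg zero_le_one; linarith
  refine ⟨K * U, by positivity, fun J h hh => ?_⟩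
  obtain ⟨H, hH⟩ : ∃ H : ℕ, H = J - h := ⟨_, rfl⟩
  have hHr : (H : ℝ) = J - h := by rw [hH, Nat.cast_sub hh]
  rw [← hH]
  obtain ⟨E, hE⟩ : ∃ E : ℝ, E = Real.exp (-(c * (3 * J))) := ⟨_, rfl⟩
  have hE0 : 0 ≤ E := by rw [hE]; positivity
  have hup : ∑ k ∈ range H, Real.exp (c * k) ≤ U * Real.exp (c * H) := by
    refine (blocks_up hc H).trans (le_of_eq ?_)
    rw [hU]; ring
  have hdn : ∑ k ∈ range H, Real.exp (-(c * k)) ≤ K := by
    rw [hK]; exact blocks_dn0 hc H
  have term : ∀ i k : ℕ, Real.exp (Real.log 2 * (-(k : ℝ) + (max i k : ℕ) / 2 - 3 * J / 2)) ≤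
      E * Real.exp (c * i) * Real.exp (-(c * k)) := by
    intro i k
    have hm : ((max i k : ℕ) : ℝ) ≤ i + k := by
      have : max i k ≤ i + k := by omega
      exact_mod_cast this
    rw [hE, ← Real.exp_add, ← Real.exp_add, hcd]
    apply Real.exp_le_exp.2
    nlinarith [mul_le_mul_of_nonneg_left hm hL.le]
  have e4 : E * Real.exp (c * H) ≤ Real.exp (-(Real.log 2 * (J + h / 4))) := by
    rw [hE, ← Real.exp_add, hHr, hcd]
    apply Real.exp_le_exp.2
    have : (0 : ℝ) ≤ h := Nat.cast_nonneg h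
    nlinarith [mul_nonneg hL.le this]
  calc _ ≤ ∑ i ∈ range H, E * Real.exp (c * i) * K := by
        refine sum_le_sum fun i _ => ?_
        refine le_trans (sum_le_sum fun k _ => term i k) ?_
        rw [← mul_sum]
        exact mul_le_mul_of_nonneg_left hdn (by positivity)
    _ = E * K * ∑ i ∈ range H, Real.exp (c * i) := by
        rw [mul_sum]
        exact sum_congr rfl fun i _ => by ring
    _ ≤ E * K * (U * Real.exp (c * H)) := mul_le_mul_of_nonneg_left hup (by positivity)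
    _ = K * U * (E * Real.exp (c * H)) := by ring
    _ ≤ _ := mul_le_mul_of_nonneg_left e4 (by positivity)

end Pool.Agent.Lib.MP_56f651_co.SG
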