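import Pool.Agent.Lib.MP_56f651_co.SG.UM

/-! The real characters that are used, and lower bounds for sums over non-residues. -/

open Finset Filter Topology

namespace Pool.Agent.Lib.MP_56f651_co.SG

theorem chars_abs_le (a : ℤ) (b : ℕ) : |jacobiSym a b| ≤ 1 := by
  rcases jacobiSym.trichotomy a b with h | h | h <;> simp [h]

theorem chars_congr {a b r : ℕ} (h : a ≡ b [MOD r]) : jacobiSym a r = jacobiSym b r := by
  apply jacobiSym.mod_left'
  have := Int.natCast_modEq_iff.mpr h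
  exact this

theorem chars_cop {a r : ℕ} (hr : 0 < r) (h : jacobiSym a r = -1) : Nat.Coprime a r := by
  by_contra hc
  have : jacobiSym a r = 0 := by
    rw [jacobiSym.eq_zero_iff]
    refine ⟨hr.ne', ?_⟩
    simpa [Int.gcd_natCast_natCast] using hc
  rw [this] at h
  norm_num at h

theorem chars_nonres {r : ℕ} (hr : r.Prime) (h2 : r ≠ 2) : ∃ u : ℕ, jacobiSym u r = -1 := by
  have := Fact.mk hr
  have hc : ringChar (ZMod r) ≠ 2 := by rw [ZMod.ringChar_zmod_n]; exact h2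
  obtain ⟨a, ha⟩ := FiniteField.exists_nonsquare hc
  refine ⟨a.val, ?_⟩
  rw [ZMod.nonsquare_iff_jacobiSym_eq_neg_one]
  simpa using ha

theorem rc_left {r : ℕ} (hr : r.Prime) (h2 : r ≠ 2) : RC (fun n => jacobiSym n r) r := by
  refine ⟨hr.pos, by simp, fun a b => ?_, fun a => chars_abs_le _ _, fun a => ?_, ?_⟩
  · simp only [Nat.cast_mul]; exact jacobiSym.mul_left _ _ _
  · exact chars_congr (by simp [Nat.ModEq])
  · obtain ⟨u, hu⟩ := chars_nonres hr h2
    exact ⟨u, chars_cop hr.pos hu, hu⟩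

theorem rc_left2 {r r' : ℕ} (hr : r.Prime) (hr' : r'.Prime) (h2 : r ≠ 2) (hne : r ≠ r') :
    RC (fun n => jacobiSym n r * jacobiSym n r') (r * r') := by
  refine ⟨Nat.mul_pos hr.pos hr'.pos, by simp, fun a b => ?_, fun a => ?_, fun a => ?_, ?_⟩
  · simp only [Nat.cast_mul, jacobiSym.mul_left]; ring
  · rw [abs_mul]
    exact mul_le_one₀ (chars_abs_le _ _) (abs_nonneg _) (chars_abs_le _ _)
  · have h1 : jacobiSym ((a + r * r' : ℕ) : ℤ) r = jacobiSym a r :=
      chars_congr (by simp [Nat.ModEq])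
    have h3 : jacobiSym ((a + r * r' : ℕ) : ℤ) r' = jacobiSym a r' :=
      chars_congr (by simp [Nat.ModEq])
    show jacobiSym ((a + r * r' : ℕ) : ℤ) r * jacobiSym ((a + r * r' : ℕ) : ℤ) r' = _
    rw [h1, h3]
  · obtain ⟨u, hu⟩ := chars_nonres hr h2
    have hco : Nat.Coprime r r' := (Nat.coprime_primes hr hr').mpr hne
    obtain ⟨w, hw1, hw2⟩ := Nat.chineseRemainder hco u 1
    have e1 : jacobiSym w r = -1 := by rw [chars_congr hw1, hu]
    have e2 : jacobiSym w r' = 1 := by rw [chars_congr hw2]; simp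
    refine ⟨w, Nat.Coprime.mul_right (chars_cop hr.pos e1) ?_, ?_⟩
    · have : Nat.gcd w r' = Nat.gcd 1 r' := hw2.gcd_eq
      simpa [Nat.Coprime] using this
    · show jacobiSym w r * jacobiSym w r' = -1
      rw [e1, e2]; norm_num

theorem rc_right {q : ℕ} (hq : q.Prime) :
    RC (fun n => if Odd n then jacobiSym q n else 0) (4 * q) := by
  refine ⟨by have := hq.pos; omega, by simp, fun a b => ?_, fun a => ?_, fun a => ?_, ?_⟩
  · by_cases ha : Odd a
    · by_cases hb : Odd b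
      · have hab : Odd (a * b) := ha.mul hb
        simp only [if_pos ha, if_pos hb, if_pos hab]
        exact jacobiSym.mul_right' _ ha.pos.ne' hb.pos.ne'
      · have hab : ¬ Odd (a * b) := fun h => hb (Nat.odd_mul.mp h).2
        simp only [if_neg hb, if_neg hab, mul_zero]
    · have hab : ¬ Odd (a * b) := fun h => ha (Nat.odd_mul.mp h).1
      simp only [if_neg ha, if_neg hab, zero_mul]
  · show |if Odd a then jacobiSym q a else 0| ≤ 1
    split_ifs
    · exact chars_abs_le _ _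
    · simp
  · show (if Odd (a + 4 * q) then jacobiSym q (a + 4 * q) else 0) = if Odd a then jacobiSym q a else 0
    by_cases ha : Odd a
    · have ha' : Odd (a + 4 * q) := by
        rw [Nat.odd_iff] at ha ⊢; omega
      rw [if_pos ha, if_pos ha', jacobiSym.mod_right' q ha, jacobiSym.mod_right' q ha']
      simp
    · have ha' : ¬ Odd (a + 4 * q) := by
        rw [Nat.odd_iff] at ha ⊢; omega
      rw [if_neg ha, if_neg ha']
  · by_cases h2 : q = 2
    · subst h2
      refine ⟨3, by norm_num, ?_⟩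
      show (if Odd 3 then jacobiSym (2 : ℕ) 3 else 0) = -1
      rw [if_pos (by decide)]
      norm_num
    · obtain ⟨u, hu⟩ := chars_nonres hq h2
      have hqo : Odd q := hq.odd_of_ne_two h2
      have hco : Nat.Coprime 4 q := by
        have : Nat.Coprime 2 q := (Nat.coprime_primes Nat.prime_two hq).mpr (Ne.symm h2)
        simpa using this.pow_left 2
      obtain ⟨w, hw1, hw2⟩ := Nat.chineseRemainder hco 1 u
      have e1 : jacobiSym w q = -1 := by rw [chars_congr hw2, hu]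
      have hw4 : w % 4 = 1 := by simpa [Nat.ModEq] using hw1
      have hwo : Odd w := by rw [Nat.odd_iff]; omega
      refine ⟨w, Nat.Coprime.mul_right ?_ (chars_cop hq.pos e1), ?_⟩
      · have : Nat.gcd w 4 = Nat.gcd 1 4 := hw1.gcd_eq
        simpa [Nat.Coprime] using this
      · show (if Odd w then jacobiSym q w else 0) = -1
        rw [if_pos hwo, ← jacobiSym.quadratic_reciprocity_one_mod_four hw4 hqo, e1]

theorem chars_per {f : ℕ → ℤ} {k : ℕ} (h : RC f k) (a t : ℕ) : f (a + k * t) = f a := by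
  induction t with
  | zero => simp
  | succ t ih => rw [Nat.mul_succ, ← add_assoc, h.per, ih]

theorem RC.eq_or {f : ℕ → ℤ} {k : ℕ} (h : RC f k) {p : ℕ} (hp : p.Prime) (hk : k < p) :
    f p = 1 ∨ f p = -1 := by
  have hco : Nat.Coprime p k :=
    (Nat.Prime.coprime_iff_not_dvd hp).mpr fun hd => absurd (Nat.le_of_dvd h.pos hd) (by omega)
  have hme : p ^ k.totient ≡ 1 [MOD k] := Nat.ModEq.pow_totient hco
  have h1 : 1 ≤ p ^ k.totient := Nat.one_le_pow _ _ hp.pos
  obtain ⟨t, ht⟩ := (Nat.modEq_iff_dvd' h1).mp hme.symm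
  have e : p ^ k.totient = 1 + k * t := by omega
  obtain ⟨m, hm⟩ : ∃ m, k.totient = m + 1 :=
    ⟨k.totient - 1, by have := Nat.totient_pos.mpr h.pos; omega⟩
  have e2 : f p * f (p ^ m) = 1 := by
    rw [← h.mul, ← pow_succ', ← hm, e, chars_per h, h.one]
  exact Int.eq_one_or_neg_one_of_mul_eq_one e2

theorem chars_lt {k i j p : ℕ} (hk : k ^ 4 ≤ T i) (hp : p ∈ PB i j) :
    k < p := by
  obtain ⟨hpp, h1, -⟩ := mem_PB.mp hp
  have h2 := hpp.two_le
  by_contra hc
  have hc' : p ≤ k := by omega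
  have h3 : p ^ 4 ≤ k ^ 4 := Nat.pow_le_pow_left hc' 4
  have h4 : p < p ^ 4 := by
    calc p = p ^ 1 := (pow_one p).symm
      _ < p ^ 4 := Nat.pow_lt_pow_right (by omega) (by norm_num)
  omega

theorem low_one : ∃ C : ℝ, 0 ≤ C ∧ ∀ (f : ℕ → ℤ) (k : ℕ), RC f k → ∀ i j : ℕ, k ^ 4 ≤ T i → i ≤ j →
    ((j : ℝ) - i) * Real.log 2 / 2 - C ≤
      ∑ p ∈ (PB i j).filter (fun p => f p = -1), (p : ℝ)⁻¹ := by
  obtain ⟨C1, h1, H1⟩ := um
  obtain ⟨C2, h2, H2⟩ := mert
  refine ⟨(C1 + C2) / 2, by positivity, fun f k hf i j hk hij => ?_⟩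
  have e : ∑ p ∈ (PB i j).filter (fun p => f p = -1), (p : ℝ)⁻¹ =
      (∑ p ∈ PB i j, (p : ℝ)⁻¹ - ∑ p ∈ PB i j, (f p : ℝ) / p) / 2 := by
    rw [sum_filter, ← sum_sub_distrib, sum_div]
    refine sum_congr rfl fun p hp => ?_
    rcases hf.eq_or (mem_PB.mp hp).1 (chars_lt hk hp) with h | h
    · rw [if_neg (by rw [h]; norm_num), h]; simp
    · rw [if_pos h, h]; push_cast; ring
  have a1 := H1 f k hf i j hk hij
  have a2 := (abs_le.mp (H2 i j hij)).1
  rw [e]; linarith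

theorem low_two : ∃ C : ℝ, 0 ≤ C ∧ ∀ r r' : ℕ, r.Prime → r'.Prime → r ≠ 2 → r' ≠ 2 → r ≠ r' →
    ∀ i j : ℕ, (r * r') ^ 4 ≤ T i → i ≤ j →
    3 * (((j : ℝ) - i) * Real.log 2) / 4 - C ≤
      ∑ p ∈ (PB i j).filter (fun p : ℕ => jacobiSym p r = -1 ∨ jacobiSym p r' = -1), (p : ℝ)⁻¹ := by
  obtain ⟨C1, h1, H1⟩ := um
  obtain ⟨C2, h2, H2⟩ := mert
  refine ⟨(3 * C1 + 3 * C2) / 4, by positivity, fun r r' hr hr' n2 n2' hne i j hk hij => ?_⟩
  have c1 := rc_left hr n2
  have c2 := rc_left hr' n2'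
  have c3 := rc_left2 hr hr' n2 hne
  have k1 : r ^ 4 ≤ T i :=
    le_trans (Nat.pow_le_pow_left (Nat.le_mul_of_pos_right r hr'.pos) 4) hk
  have k2 : r' ^ 4 ≤ T i :=
    le_trans (Nat.pow_le_pow_left (Nat.le_mul_of_pos_left r' hr.pos) 4) hk
  have e : ∑ p ∈ (PB i j).filter (fun p : ℕ => jacobiSym p r = -1 ∨ jacobiSym p r' = -1),
      (p : ℝ)⁻¹ =
      (3 * ∑ p ∈ PB i j, (p : ℝ)⁻¹ - ∑ p ∈ PB i j, ((jacobiSym p r : ℤ) : ℝ) / p -
        ∑ p ∈ PB i j, ((jacobiSym p r' : ℤ) : ℝ) / p -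
        ∑ p ∈ PB i j, ((jacobiSym p r * jacobiSym p r' : ℤ) : ℝ) / p) / 4 := by
    rw [sum_filter, mul_sum, ← sum_sub_distrib, ← sum_sub_distrib, ← sum_sub_distrib, sum_div]
    refine sum_congr rfl fun p hp => ?_
    have hpp := (mem_PB.mp hp).1
    rcases c1.eq_or hpp (chars_lt k1 hp) with h | h <;>
    rcases c2.eq_or hpp (chars_lt k2 hp) with h' | h'
    all_goals
      rw [h, h']
      norm_num
      try ring
  have a1 := H1 _ _ c1 i j k1 hij
  have a2 := H1 _ _ c2 i j k2 hij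
  have a3 := H1 _ _ c3 i j hk hij
  have a4 := (abs_le.mp (H2 i j hij)).1
  rw [e]; linarith

end Pool.Agent.Lib.MP_56f651_co.SG
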