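import Mathlib

/-! Definitions for the counting of orders of cyclic Hadamard difference sets. -/

open Finset Filter Topology

namespace Pool.Agent.Lib.MP_56f651_co.SG

/-- The doubly exponential scale. -/
def T (j : ℕ) : ℕ := 2 ^ 2 ^ j

/-- The primes in the range from `T i` (included) to `T j` (excluded). -/
def PB (i j : ℕ) : Finset ℕ := (Ico (T i) (T j)).filter Nat.Prime

/-- The index of the block that contains `p`. -/
def blk (p : ℕ) : ℕ := Nat.log 2 (Nat.log 2 p)

/-- A real non-principal character of period `k`. -/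
structure RC (f : ℕ → ℤ) (k : ℕ) : Prop where
  pos : 0 < k
  one : f 1 = 1
  mul : ∀ a b, f (a * b) = f a * f b
  bd : ∀ a, |f a| ≤ 1
  per : ∀ a, f (a + k) = f a
  flip : ∃ u, Nat.Coprime u k ∧ f u = -1

/-- The order attached to `n = s ^ 2 * m`. -/
def vv (s m : ℕ) : ℕ := 4 * s ^ 2 * m - 1

/-- The arithmetic condition that comes from self-conjugacy. -/
def Good (s m : ℕ) : Prop :=
  ∀ r : ℕ, r.Prime → r ∣ vv s m →
    (∀ q : ℕ, q.Prime → q ∣ m → jacobiSym q r = 1) ∧ Odd (orderOf (((2 * s) ^ 2 : ℕ) : ZMod r))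

open Classical in
/-- The numbers to be counted. -/
noncomputable def Bad (s Y : ℕ) : Finset ℕ :=
  (Icc 1 Y).filter fun m => ¬ (vv s m).Prime ∧ Good s m

/-- The range of the parameters. -/
structure Par (J X s Y : ℕ) : Prop where
  lo : T (J + 11) ≤ X
  hi : X < T (J + 12)
  spos : 1 ≤ s
  le : s ^ 2 * Y ≤ X

/-- The saving from small primes modulo which `r` is a non-residue. -/
noncomputable def sig (y r : ℕ) : ℝ :=
  ∑ q ∈ (PB 0 y).filter (fun q => q % 4 = 1 ∧ jacobiSym r q = -1), (q : ℝ)⁻¹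

open Classical in
/-- The primes modulo which `u` has even order. -/
noncomputable def EO (u j : ℕ) : Finset ℕ :=
  (PB 0 j).filter fun p => 5 ≤ p ∧ ¬ p ∣ u ∧ ¬ Odd (orderOf (u : ZMod p))

/-- The number of roots of `g` modulo `d`. -/
noncomputable def rho (g : Polynomial ℤ) (d : ℕ) : ℕ :=
  ((range d).filter fun a : ℕ => (d : ℤ) ∣ g.eval (a : ℤ)).card

end Pool.Agent.Lib.MP_56f651_co.SG
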