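import Pool.Agent.Lib.MP_56f651_co.SG.RootSum

/-! The primes modulo which a fixed integer has even order have a divergent reciprocal sum. -/

open Finset Filter Topology

namespace Pool.Agent.Lib.MP_56f651_co.SG

open Polynomial in
theorem div_const {u n : ℕ} {g : ℤ[X]} (hm : g.Monic) (hd : g ∣ X ^ n - C (u : ℤ)) :
    (g.coeff 0).natAbs ^ n = u ^ g.natDegree := by
  have hm' := hm.map (Int.castRingHom ℂ)
  have hs := IsAlgClosed.splits (g.map (Int.castRingHom ℂ))
  have h1 := hs.coeff_zero_eq_prod_roots_of_monic hm'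
  have h2 : ∀ z ∈ (g.map (Int.castRingHom ℂ)).roots, z ^ n = u := fun z hz => by
    have := ((mem_roots hm'.ne_zero).1 hz).dvd (map_dvd (Int.castRingHom ℂ) hd)
    simpa [sub_eq_zero] using this
  have h3 : (g.map (Int.castRingHom ℂ)).roots.prod ^ n = (u : ℂ) ^ g.natDegree := by
    rw [← Multiset.map_id (roots _), ← Multiset.prod_map_pow,
      ← hm.natDegree_map (Int.castRingHom ℂ), hs.natDegree_eq_card_roots,
      Multiset.map_congr (f := fun i => id i ^ n) (g := fun _ => (u : ℂ)) rfl fun z hz => h2 z hz]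
    simp
  have h4 := congrArg (fun z : ℂ => ‖z‖ ^ n) h1
  simp only [norm_mul, norm_pow, norm_neg, norm_one, one_pow, one_mul, coeff_map,
    eq_intCast] at h4
  rw [← norm_pow (Multiset.prod _), h3, norm_pow, Complex.norm_natCast, Complex.norm_intCast,
    ← Int.cast_abs, ← Nat.cast_natAbs] at h4
  exact_mod_cast h4

open Polynomial in
theorem div_deg {u n π : ℕ} (hπ : 0 < u.factorization π) {g : ℤ[X]} (hm : g.Monic)
    (hi : Irreducible g) (hd : g ∣ X ^ n - C (u : ℤ)) : n ≤ u.factorization π * g.natDegree := by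
  have h1 := congrArg (fun x => x.factorization π) (div_const hm hd)
  simp only [Nat.factorization_pow, Finsupp.smul_apply, smul_eq_mul] at h1
  have h2 : 0 < g.natDegree := (hm.natDegree_pos).2 hi.ne_one
  rw [mul_comm, ← h1]
  refine Nat.le_mul_of_pos_right _ (Nat.pos_of_ne_zero fun h => ?_)
  rw [h, mul_zero] at h1
  exact (mul_pos h2 hπ).ne h1

theorem div_rho_mul (g h : Polynomial ℤ) {p : ℕ} (hp : p.Prime) :
    rho (g * h) p ≤ rho g p + rho h p := by
  refine le_trans (card_le_card fun a ha => ?_) (card_union_le _ _)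
  rw [mem_filter, Polynomial.eval_mul, (Nat.prime_iff_prime_int.1 hp).dvd_mul] at ha
  rw [mem_union, mem_filter, mem_filter]
  tauto

open Polynomial in
theorem div_upper {u n π : ℕ} (hπ : 0 < u.factorization π) (h : ℤ[X]) (hm : h.Monic)
    (hd : h ∣ X ^ n - C (u : ℤ)) : ∃ K : ℝ, ∀ j : ℕ, n * ∑ p ∈ PB 0 j, (rho h p : ℝ) / p ≤
      u.factorization π * h.natDegree * (j * Real.log 2) + K := by
  induction hn : h.natDegree using Nat.strong_induction_on generalizing h with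
  | _ N ih =>
  by_cases h1 : h = 1
  · refine ⟨0, fun j => ?_⟩
    rw [sum_eq_zero fun p hp => ?_]
    · have := Real.log_nonneg one_le_two
      rw [mul_zero, add_zero]
      positivity
    · have := (Nat.prime_iff_prime_int.1 (mem_PB.1 hp).1).not_dvd_one
      simp [rho, h1, this]
  obtain ⟨g₀, i0, d0⟩ := WfDvdMonoid.exists_irreducible_factor
    (fun hu => h1 (hm.isUnit_iff.1 hu)) hm.ne_zero
  obtain ⟨c, hc⟩ := (hm.isUnit_leadingCoeff_of_dvd d0).exists_left_inv
  have hcu : IsUnit (C c) := isUnit_C.2 (IsUnit.of_mul_eq_one _ hc)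
  have gm : (C c * g₀).Monic := by rw [Monic, leadingCoeff_mul, leadingCoeff_C, hc]
  have gi : Irreducible (C c * g₀) := (irreducible_isUnit_mul hcu).2 i0
  have gd : C c * g₀ ∣ h := hcu.mul_left_dvd.2 d0
  generalize C c * g₀ = g at gm gi gd
  obtain ⟨h', rfl⟩ := gd
  have hm' := gm.of_mul_monic_left hm
  have e := gm.natDegree_mul hm'
  have h2 : 0 < g.natDegree := (gm.natDegree_pos).2 gi.ne_one
  obtain ⟨K, hK⟩ := ih _ (by omega) h' hm' ((dvd_mul_left _ _).trans hd) rfl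
  obtain ⟨K', hK'⟩ := root_sum g gm gi
  have h3 : (n : ℝ) ≤ u.factorization π * g.natDegree := by
    exact_mod_cast div_deg hπ gm gi ((dvd_mul_right _ _).trans hd)
  refine ⟨K + n * K', fun j => ?_⟩
  have h4 : ∑ p ∈ PB 0 j, (rho (g * h') p : ℝ) / p ≤
      ∑ p ∈ PB 0 j, (rho g p : ℝ) / p + ∑ p ∈ PB 0 j, (rho h' p : ℝ) / p := by
    rw [← sum_add_distrib]
    refine sum_le_sum fun p hp => ?_
    rw [← add_div]
    exact div_le_div_of_nonneg_right (by exact_mod_cast div_rho_mul g h' (mem_PB.1 hp).1)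
      (Nat.cast_nonneg _)
  have h5 : (0 : ℝ) ≤ j * Real.log 2 := mul_nonneg (Nat.cast_nonneg _) (Real.log_nonneg one_le_two)
  have h6 : (0 : ℝ) ≤ n := Nat.cast_nonneg _
  rw [← hn, e]
  push_cast
  nlinarith [hK j, mul_le_mul_of_nonneg_left (hK' j) h6, mul_le_mul_of_nonneg_left h4 h6,
    mul_le_mul_of_nonneg_right h3 h5]

open Polynomial in
theorem div_roots {u J i p : ℕ} (hp : p.Prime) (hu : ¬ p ∣ u) (ho : Odd (orderOf (u : ZMod p)))
    (hi : i ≤ J) (hd : 2 ^ i ∣ p - 1) : 2 ^ i ≤ rho (X ^ 2 ^ J - C (u : ℤ)) p := by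
  have := Fact.mk hp
  obtain ⟨m, hm⟩ := exists_pow_eq_self_of_coprime (x := (u : ZMod p)) (n := 2 ^ J)
    (Nat.Coprime.pow_left _ (Nat.coprime_two_left.2 ho))
  have u0 : (u : ZMod p) ^ m ≠ 0 := pow_ne_zero _ fun h => hu ((ZMod.natCast_eq_zero_iff _ _).1 h)
  obtain ⟨g, hg⟩ := IsCyclic.exists_ofOrder_eq_natCard (α := (ZMod p)ˣ)
  rw [Nat.card_eq_fintype_card, ZMod.card_units] at hg
  obtain ⟨t, ht⟩ := hd
  have h1 : IsPrimitiveRoot ((g : ZMod p) ^ t) (2 ^ i) := by
    have := IsPrimitiveRoot.coe_units_iff.2 (IsPrimitiveRoot.orderOf g)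
    rw [hg] at this
    exact this.pow (by have := hp.two_le; omega) (by rw [ht, mul_comm])
  generalize (g : ZMod p) ^ t = ζ at h1
  rw [← card_range (2 ^ i)]
  refine card_le_card_of_injOn (fun k => ((u : ZMod p) ^ m * ζ ^ k).val) (fun k _ => ?_)
    fun k hk l hl e => ?_
  · refine mem_coe.2 (mem_filter.2 ⟨mem_range.2 (ZMod.val_lt _), ?_⟩)
    rw [← ZMod.intCast_zmod_eq_zero_iff_dvd]
    obtain ⟨r, rfl⟩ := Nat.exists_eq_add_of_le hi
    have h2 : (ζ ^ k) ^ 2 ^ (i + r) = 1 := by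
      rw [← pow_mul, pow_add, mul_left_comm, pow_mul, h1.pow_eq_one, one_pow]
    rw [eval_sub, eval_pow, eval_X, eval_C, Int.cast_sub, Int.cast_pow, Int.cast_natCast,
      Int.cast_natCast, ZMod.natCast_zmod_val, mul_pow, h2, mul_one, pow_right_comm, hm, sub_self]
  · exact h1.pow_inj (mem_range.1 hk) (mem_range.1 hl)
      (mul_left_cancel₀ u0 (ZMod.val_injective p e))

theorem div_geom (P : ℕ → Prop) [DecidablePred P] (R J : ℕ) (h : ∀ i ≤ J, P i → 2 ^ i ≤ R) :
    ∑ i ∈ range J, (if P (i + 1) then 2 ^ i else 0) ≤ R := by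
  induction J with
  | zero => simp
  | succ J ih =>
    by_cases hP : P (J + 1)
    · refine le_trans (sum_le_sum (g := fun i => 2 ^ i) fun i _ => ?_)
        (le_trans ?_ (h _ le_rfl hP))
      · split_ifs <;> simp
      · exact (Nat.geomSum_lt le_rfl fun _ => mem_range.1).le
    · rw [sum_range_succ, if_neg hP, add_zero]
      exact ih fun i hi => h i (by omega)

open Classical Polynomial in
theorem div_point {u : ℕ} (J : ℕ) {p : ℕ} (hp : p.Prime) :
    ∑ i ∈ range J, (2 : ℝ) ^ i * (if p ≡ 1 [MOD 2 ^ (i + 1)] then (p : ℝ)⁻¹ else 0) ≤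
      (rho (X ^ 2 ^ J - C (u : ℤ)) p : ℝ) / p +
      2 ^ J * (if 5 ≤ p ∧ ¬ p ∣ u ∧ ¬ Odd (orderOf (u : ZMod p)) then (p : ℝ)⁻¹ else 0) +
      2 ^ J * (if p < 5 ∨ p ∣ u then 1 else 0) := by
  have p1 : (1 : ℝ) ≤ p := by exact_mod_cast hp.one_le
  have p2 : (p : ℝ)⁻¹ ≤ 1 := inv_le_one_of_one_le₀ p1
  have key : ∀ R : ℕ, (∀ i ≤ J, p ≡ 1 [MOD 2 ^ i] → 2 ^ i ≤ R) →
      ∑ i ∈ range J, (2 : ℝ) ^ i * (if p ≡ 1 [MOD 2 ^ (i + 1)] then (p : ℝ)⁻¹ else 0) ≤
        R * (p : ℝ)⁻¹ := fun R hR => by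
    have h1 : ((∑ i ∈ range J, if p ≡ 1 [MOD 2 ^ (i + 1)] then 2 ^ i else 0 : ℕ) : ℝ) ≤ R := by
      exact_mod_cast div_geom (fun i => p ≡ 1 [MOD 2 ^ i]) R J hR
    refine le_of_eq_of_le ?_ (mul_le_mul_of_nonneg_right h1 (by positivity))
    push_cast
    rw [sum_mul]
    refine sum_congr rfl fun i _ => ?_
    split_ifs <;> simp
  have k1 := key (2 ^ J) fun i hi _ => Nat.pow_le_pow_right two_pos hi
  push_cast at k1
  have r0 : (0 : ℝ) ≤ (rho (X ^ 2 ^ J - C (u : ℤ)) p : ℝ) / p := by positivity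
  have r1 : (2 : ℝ) ^ J * (p : ℝ)⁻¹ ≤ 2 ^ J * 1 := mul_le_mul_of_nonneg_left p2 (by positivity)
  have r2 : (0 : ℝ) ≤ 2 ^ J * (p : ℝ)⁻¹ := by positivity
  by_cases h1 : p < 5 ∨ p ∣ u
  · rw [if_pos h1, if_neg (by omega)]
    linarith
  · rw [if_neg h1]
    by_cases h2 : Odd (orderOf (u : ZMod p))
    · have := key _ fun i hi h => div_roots hp (fun h => h1 (Or.inr h)) h2 hi
        ((Nat.modEq_iff_dvd' hp.one_le).1 h.symm)
      rw [if_neg (by tauto), div_eq_mul_inv]
      linarith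
    · rw [if_pos ⟨by omega, fun h => h1 (Or.inr h), h2⟩]
      linarith

open Polynomial in
theorem even_div {u : ℕ} (hu : 2 ≤ u) :
    Tendsto (fun j => ∑ p ∈ EO u j, (p : ℝ)⁻¹) atTop atTop := by
  classical
  have u0 : u ≠ 0 := by omega
  have hπ : 0 < u.factorization u.minFac :=
    (Nat.minFac_prime (by omega)).factorization_pos_of_dvd u0 (Nat.minFac_dvd u)
  set e := u.factorization u.minFac
  set J := 2 * e + 1 with hJ
  have hm : (X ^ 2 ^ J - C (u : ℤ)).Monic := monic_X_pow_sub_C _ (by positivity)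
  obtain ⟨K, hK⟩ := div_upper hπ _ hm dvd_rfl
  rw [natDegree_X_pow_sub_C] at hK
  choose K' hK' using fun i : ℕ => class_low (2 ^ (i + 1)) 1 (by positivity) (Nat.coprime_one_left _)
  have t0 : (0 : ℝ) < 2 ^ J := by positivity
  have main : ∀ j : ℕ, ((j : ℝ) / 2 - (∑ i ∈ range J, 2 ^ i * K' i + K / 2 ^ J + 2 ^ J * (u + 5))) /
      2 ^ J ≤ ∑ p ∈ EO u j, (p : ℝ)⁻¹ := fun j => by
    have h1 := sum_le_sum fun p (hp : p ∈ PB 0 j) => div_point (u := u) J (mem_PB.1 hp).1
    rw [sum_comm, sum_add_distrib, sum_add_distrib, ← mul_sum, ← mul_sum, ← sum_filter,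
      sum_boole] at h1
    have h2 : (((PB 0 j).filter fun p => p < 5 ∨ p ∣ u).card : ℝ) ≤ u + 5 := by
      have : ((PB 0 j).filter fun p => p < 5 ∨ p ∣ u) ⊆ range (u + 5) := fun p hp => by
        rcases (mem_filter.1 hp).2 with h | h
        · exact mem_range.2 (by omega)
        · have := Nat.le_of_dvd (by omega) h
          exact mem_range.2 (by omega)
      have := card_le_card this
      rw [card_range] at this
      exact_mod_cast this
    have h3 : J * ((j : ℝ) / 2) - ∑ i ∈ range J, 2 ^ i * K' i ≤ ∑ i ∈ range J, ∑ p ∈ PB 0 j,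
        (2 : ℝ) ^ i * (if p ≡ 1 [MOD 2 ^ (i + 1)] then (p : ℝ)⁻¹ else 0) := by
      rw [← nsmul_eq_mul, ← card_range J, ← sum_const, card_range, ← sum_sub_distrib]
      refine sum_le_sum fun i _ => ?_
      rw [← mul_sum, ← sum_filter]
      refine le_of_eq_of_le ?_ (mul_le_mul_of_nonneg_left (hK' i j) (by positivity))
      rw [Nat.totient_prime_pow_succ Nat.prime_two]
      push_cast
      field_simp
    have h4 : ∑ p ∈ PB 0 j, (rho (X ^ 2 ^ J - C (u : ℤ)) p : ℝ) / p ≤ e * j + K / 2 ^ J := by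
      have h5 := hK j
      push_cast at h5
      have h6 : (j : ℝ) * Real.log 2 ≤ j := mul_le_of_le_one_right (Nat.cast_nonneg _)
        (by have := Real.log_two_lt_d9; linarith)
      refine le_of_mul_le_mul_left ?_ t0
      rw [mul_add, mul_div_cancel₀ _ t0.ne']
      have h7 : (0 : ℝ) ≤ e * 2 ^ J := by positivity
      nlinarith [mul_le_mul_of_nonneg_left h6 h7]
    have h8 : (J : ℝ) = 2 * e + 1 := by rw [hJ]; push_cast; ring
    rw [h8] at h3
    rw [div_le_iff₀ t0, EO]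
    nlinarith [mul_le_mul_of_nonneg_left h2 t0.le]
  exact tendsto_atTop_mono main ((tendsto_atTop_add_const_right _ _
    (tendsto_natCast_atTop_atTop.atTop_div_const two_pos)).atTop_div_const t0)

end Pool.Agent.Lib.MP_56f651_co.SG
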