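import Pool.Agent.Lib.MP_56f651_co.SG.SC

/-! The self-conjugacy condition for Hadamard difference sets in arbitrary finite groups. -/

open Finset

namespace Pool.Agent.Lib.MP_56f651_co.SG

section

variable {G : Type} [Group G] [Fintype G] [DecidableEq G]

/-- The exponent of `g` to the base `h`, as a monomial. -/
noncomputable def gP (h : G) (r : ℕ) (g : G) : Polynomial ℤ :=
  ∑ i ∈ range r, if h ^ i = g then Polynomial.X ^ i else 0

/-- A character of the cyclic group generated by `h`, extended by zero. -/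
noncomputable def gX (ζ : ℂ) (h : G) (r : ℕ) (g : G) : ℂ := Polynomial.aeval ζ (gP h r g)

variable {ζ : ℂ} {h : G} {r : ℕ}

omit [Fintype G] in
theorem gX_eq (g : G) : gX ζ h r g = ∑ i ∈ range r, if h ^ i = g then ζ ^ i else 0 := by
  rw [gX, gP, map_sum]
  refine sum_congr rfl fun i _ => ?_
  split_ifs <;> simp

omit [Fintype G] in
theorem gX_pow (hr : orderOf h = r) (h0 : 0 < r) (h1 : ζ ^ r = 1) (i : ℕ) :
    gX ζ h r (h ^ i) = ζ ^ i := by
  rw [gX_eq, sum_eq_single (i % r)]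
  · rw [if_pos (by rw [← hr, pow_mod_orderOf])]
    exact (pow_eq_pow_mod i h1).symm
  · intro j hj hne
    refine if_neg fun e => hne ?_
    have h2 := pow_eq_pow_iff_modEq.1 e
    rw [hr] at h2
    rw [← Nat.mod_eq_of_lt (mem_range.1 hj)]
    exact h2
  · exact fun hn => absurd (mem_range.2 (Nat.mod_lt _ h0)) hn

omit [Fintype G] in
theorem gX_zero {g : G} (hg : g ∉ Subgroup.zpowers h) : gX ζ h r g = 0 := by
  rw [gX_eq]
  exact sum_eq_zero fun i _ => if_neg fun e : h ^ i = g => hg (e ▸ Subgroup.npow_mem_zpowers h i)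

theorem gX_sum (hζ : IsPrimitiveRoot ζ r) (hr : 1 < r) : ∑ g, gX ζ h r g = 0 := by
  simp only [gX_eq]
  rw [sum_comm]
  simp [hζ.geom_sum_eq_zero hr]

theorem gX_mul (hr : orderOf h = r) (h0 : 0 < r) (h1 : ζ ^ r = 1)
    (hc : (starRingEnd ℂ) ζ = ζ ^ (r - 1)) {u : G} (hu : u ∈ Subgroup.zpowers h) (w : G) :
    gX ζ h r u * (starRingEnd ℂ) (gX ζ h r w) = gX ζ h r (u * w⁻¹) := by
  by_cases hw : w ∈ Subgroup.zpowers h
  · obtain ⟨i, rfl⟩ := mem_powers_iff_mem_zpowers.2 hu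
    obtain ⟨j, rfl⟩ := mem_powers_iff_mem_zpowers.2 hw
    have e : (h ^ j)⁻¹ = h ^ ((r - 1) * j) := by
      refine inv_eq_of_mul_eq_one_right ?_
      rw [← pow_add, show j + (r - 1) * j = r * j by
        obtain ⟨m, rfl⟩ : ∃ m, r = m + 1 := ⟨r - 1, by omega⟩
        simp only [Nat.add_sub_cancel]; ring, pow_mul, ← hr, pow_orderOf_eq_one, one_pow]
    change gX ζ h r (h ^ i) * (starRingEnd ℂ) (gX ζ h r (h ^ j)) = gX ζ h r (h ^ i * (h ^ j)⁻¹)
    rw [e, ← pow_add, gX_pow hr h0 h1, gX_pow hr h0 h1, gX_pow hr h0 h1, map_pow, hc, pow_add,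
      pow_mul]
  · rw [gX_zero hw, map_zero, mul_zero, gX_zero]
    intro h2
    exact hw (by simpa using (Subgroup.mul_mem_cancel_left _ hu).1 h2)

omit [Fintype G] [DecidableEq G] in
theorem gX_coset (a : G) (q : G ⧸ Subgroup.zpowers h) :
    a * q.out ∈ Subgroup.zpowers h ↔ q = QuotientGroup.mk a⁻¹ := by
  rw [eq_comm]
  conv_rhs => rw [← QuotientGroup.out_eq' q]
  rw [QuotientGroup.eq, inv_inv]

theorem gX_conv [Fintype (G ⧸ Subgroup.zpowers h)] (hr : orderOf h = r) (h0 : 0 < r)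
    (h1 : ζ ^ r = 1) (hc : (starRingEnd ℂ) ζ = ζ ^ (r - 1)) (a b : G) :
    ∑ q : G ⧸ Subgroup.zpowers h,
      gX ζ h r (a * q.out) * (starRingEnd ℂ) (gX ζ h r (b * q.out)) = gX ζ h r (a * b⁻¹) := by
  rw [sum_eq_single (QuotientGroup.mk a⁻¹)]
  · rw [gX_mul hr h0 h1 hc ((gX_coset a _).2 rfl)]
    congr 1
    group
  · intro q _ hq
    rw [gX_zero fun h2 => hq ((gX_coset a q).1 h2), zero_mul]
  · exact fun hn => absurd (mem_univ _) hn

theorem grp_sum (D : Finset G) {n l : ℕ} (hk : D.card = n + l)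
    (hl : ∀ d : G, d ≠ 1 → ((D ×ˢ D).filter (fun q => q.1 * q.2⁻¹ = d)).card = l) (F : G → ℂ) :
    ∑ q ∈ D ×ˢ D, F (q.1 * q.2⁻¹) = n * F 1 + l * ∑ g, F g := by
  have h0 : ((D ×ˢ D).filter (fun q => q.1 * q.2⁻¹ = 1)).card = n + l := by
    rw [← hk, ← Finset.diag_card (s := D)]
    refine congrArg Finset.card (Finset.ext fun ⟨a, b⟩ => ?_)
    simp only [mem_filter, mem_product, mul_inv_eq_one, mem_diag]
    constructor
    · rintro ⟨⟨h, -⟩, h'⟩; exact ⟨h, h'⟩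
    · rintro ⟨h, rfl⟩; exact ⟨⟨h, h⟩, rfl⟩
  rw [← sum_fiberwise' (D ×ˢ D) (fun q => q.1 * q.2⁻¹) F, ← Finset.add_sum_erase _ _ (mem_univ 1),
    ← Finset.add_sum_erase _ F (mem_univ 1)]
  simp only [sum_const, nsmul_eq_mul]
  rw [h0, sum_congr rfl fun d hd => by rw [hl d (ne_of_mem_erase hd)], ← mul_sum]
  push_cast
  ring

theorem grp_norm (D : Finset G) {n l : ℕ} (hk : D.card = n + l)
    (hl : ∀ d : G, d ≠ 1 → ((D ×ˢ D).filter (fun q => q.1 * q.2⁻¹ = d)).card = l)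
    (hr : orderOf h = r) (h0 : 1 < r) (hζ : IsPrimitiveRoot ζ r)
    (hc : (starRingEnd ℂ) ζ = ζ ^ (r - 1)) :
    ∃ p : Polynomial ℤ, Polynomial.aeval ζ p * (starRingEnd ℂ) (Polynomial.aeval ζ p) =
      ((n ^ Nat.card (G ⧸ Subgroup.zpowers h) : ℕ) : ℂ) := by
  classical
  have := Fintype.ofFinite (G ⧸ Subgroup.zpowers h)
  have h1 := hζ.pow_eq_one
  let B : Matrix (G ⧸ Subgroup.zpowers h) (G ⧸ Subgroup.zpowers h) (Polynomial ℤ) :=
    Matrix.of fun p q => ∑ d ∈ D, gP h r (p.out⁻¹ * d * q.out)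
  let A : Matrix (G ⧸ Subgroup.zpowers h) (G ⧸ Subgroup.zpowers h) ℂ :=
    (Polynomial.aeval ζ : Polynomial ℤ →ₐ[ℤ] ℂ).mapMatrix B
  have hA : ∀ p q, A p q = ∑ d ∈ D, gX ζ h r (p.out⁻¹ * d * q.out) := fun p q => by
    simp only [A, B, AlgHom.mapMatrix_apply, Matrix.map_apply, Matrix.of_apply, map_sum, gX]
  have hAA : A * A.conjTranspose = (n : ℂ) • (1 : Matrix _ _ ℂ) := by
    ext p p'
    rw [Matrix.mul_apply]
    simp only [Matrix.conjTranspose_apply, hA, ← starRingEnd_apply, map_sum, sum_mul_sum]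
    rw [sum_comm]
    simp only [sum_comm (s := (univ : Finset (G ⧸ Subgroup.zpowers h))) (t := D),
      gX_conv hr (by omega) h1 hc]
    rw [← sum_product']
    have e : ∀ q : G × G, p.out⁻¹ * q.1 * (p'.out⁻¹ * q.2)⁻¹ = p.out⁻¹ * (q.1 * q.2⁻¹) * p'.out :=
      fun q => by group
    simp only [e]
    rw [grp_sum D hk hl fun g => gX ζ h r (p.out⁻¹ * g * p'.out)]
    have e2 : ∑ g, gX ζ h r (p.out⁻¹ * g * p'.out) = 0 := by
      rw [← gX_sum (h := h) hζ h0]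
      exact Equiv.sum_comp ((Equiv.mulLeft p.out⁻¹).trans (Equiv.mulRight p'.out)) (gX ζ h r)
    rw [e2, mul_zero, add_zero, mul_one, Matrix.smul_apply, smul_eq_mul]
    congr 1
    by_cases hp : p = p'
    · subst hp
      rw [inv_mul_cancel, Matrix.one_apply_eq, ← pow_zero h, gX_pow hr (by omega) h1, pow_zero]
    · rw [Matrix.one_apply_ne hp, gX_zero]
      intro h2
      rw [gX_coset, inv_inv, QuotientGroup.out_eq'] at h2
      exact hp h2.symm
  refine ⟨B.det, ?_⟩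
  have h3 := congrArg Matrix.det hAA
  rw [Matrix.det_mul, Matrix.det_conjTranspose, Matrix.det_smul, Matrix.det_one, mul_one,
    ← AlgHom.map_det] at h3
  rw [Nat.card_eq_fintype_card, Nat.cast_pow]
  exact h3

theorem odd_order_grp {v : ℕ} (hG : Fintype.card G = v) (D : Finset G) (hv : v % 4 = 3)
    (hk : D.card = (v - 1) / 2)
    (hl : ∀ d : G, d ≠ 1 → ((D ×ˢ D).filter (fun q => q.1 * q.2⁻¹ = d)).card = (v - 3) / 4)
    {r q : ℕ} (hr : r.Prime) (hrv : r ∣ v) (hq : q.Prime)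
    (ho : Odd (((v + 1) / 4).factorization q)) : Odd (orderOf (q : ZMod r)) := by
  have := Fact.mk hr
  have hqn : q ∣ (v + 1) / 4 := Nat.dvd_of_factorization_pos ho.pos.ne'
  have hq0 : (q : ZMod r) ≠ 0 := fun h => by
    have h1 : r ∣ v + 1 := ((ZMod.natCast_eq_zero_iff _ _).1 h).trans
      (hqn.trans (Nat.div_dvd_of_dvd (by omega)))
    exact hr.one_lt.ne' (Nat.dvd_one.1 ((Nat.dvd_add_right hrv).1 h1))
  have hpos : 0 < orderOf (q : ZMod r) :=
    (isOfFinOrder_iff_pow_eq_one.2 ⟨r - 1, by have := hr.two_le; omega,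
      ZMod.pow_card_sub_one_eq_one hq0⟩).orderOf_pos
  by_contra hne
  obtain ⟨j, hj⟩ := Nat.not_odd_iff_even.1 hne
  have e2 : (q : ZMod r) ^ (2 * j) = 1 := by rw [two_mul, ← hj, pow_orderOf_eq_one]
  have e1 : (q : ZMod r) ^ j = -1 := by
    rw [mul_comm, pow_mul, sq_eq_one_iff] at e2
    exact e2.resolve_left (pow_ne_one_of_lt_orderOf (by omega) (by omega))
  obtain ⟨ζ, hζ⟩ : ∃ ζ : ℂ, IsPrimitiveRoot ζ r := ⟨_, Complex.isPrimitiveRoot_exp r hr.ne_zero⟩
  have hc : (starRingEnd ℂ) ζ = ζ ^ (r - 1) := by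
    rw [← Complex.inv_eq_conj (hζ.norm'_eq_one hr.ne_zero)]
    refine inv_eq_of_mul_eq_one_right ?_
    rw [← pow_succ', Nat.sub_add_cancel hr.one_le, hζ.pow_eq_one]
  obtain ⟨h, hh⟩ := exists_prime_orderOf_dvd_card (G := G) r (hG ▸ hrv)
  obtain ⟨p, hp⟩ := grp_norm D (n := (v + 1) / 4) (l := (v - 3) / 4) (by omega) hl hh hr.one_lt hζ hc
  have hodd : Odd (Nat.card (G ⧸ Subgroup.zpowers h)) := by
    refine (Nat.odd_iff.2 (by omega : v % 2 = 1)).of_dvd_nat ?_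
    rw [← hG, ← Nat.card_eq_fintype_card]
    exact Subgroup.card_quotient_dvd_card _
  have h5 := sc_even (j := j) hr.pos hζ.pow_eq_one hc hq (by omega) (by
    rw [← ZMod.natCast_eq_natCast_iff, Nat.cast_pow, e1, Nat.cast_sub hr.one_le]
    simp) (by rw [← ZMod.natCast_eq_natCast_iff, Nat.cast_pow, e2, Nat.cast_one]) _
    (pow_pos (by omega) _) p hp
  rw [Nat.factorization_pow, Finsupp.smul_apply, smul_eq_mul] at h5
  exact Nat.not_even_iff_odd.2 (hodd.mul ho) h5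

end

theorem good_of_odd {v : ℕ} (hv : v % 4 = 3) (H : ∀ r q : ℕ, r.Prime → r ∣ v → q.Prime →
      Odd (((v + 1) / 4).factorization q) → Odd (orderOf (q : ZMod r))) :
    ∃ s m : ℕ, 1 ≤ s ∧ 1 ≤ m ∧ (v + 1) / 4 = s ^ 2 * m ∧ vv s m = v ∧ Good s m := by
  obtain ⟨m, s, h, hsf⟩ := Nat.sq_mul_squarefree ((v + 1) / 4)
  have hm : m ≠ 0 := hsf.ne_zero
  have hs : s ≠ 0 := by
    rintro rfl
    simp only [ne_eq, OfNat.ofNat_ne_zero, not_false_eq_true, zero_pow, zero_mul] at h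
    omega
  have h4 : 4 * s ^ 2 * m = v + 1 := by rw [mul_assoc, h]; omega
  have hvv : vv s m = v := by rw [vv, h4]; rfl
  refine ⟨s, m, Nat.pos_of_ne_zero hs, Nat.pos_of_ne_zero hm, h.symm, hvv, fun r hr hrv => ?_⟩
  rw [hvv] at hrv
  have := Fact.mk hr
  have ho : ∀ q : ℕ, q.Prime → q ∣ m → Odd (orderOf (q : ZMod r)) := fun q hq hqm => by
    refine H r q hr hrv hq ?_
    rw [← h, Nat.factorization_mul (pow_ne_zero 2 hs) hm, Nat.factorization_pow]
    simp [Nat.factorization_eq_one_of_squarefree hsf hq hqm]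
  refine ⟨fun q hq hqm => ?_, ?_⟩
  · obtain ⟨k, hk⟩ := ho q hq hqm
    have h1 := pow_orderOf_eq_one (q : ZMod r)
    rw [hk] at h1
    have h0 : ((q : ℤ) : ZMod r) ≠ 0 := fun h0 => by
      rw [Int.cast_natCast] at h0
      simp [h0] at h1
    rw [← jacobiSym.legendreSym.to_jacobiSym, legendreSym.eq_one_iff r h0, Int.cast_natCast]
    exact ⟨(q : ZMod r) ^ (k + 1), by linear_combination (-(q : ZMod r)) * h1⟩
  · have h1 : ∀ a : ℕ, a ∣ m → ∃ o, Odd o ∧ (a : ZMod r) ^ o = 1 := fun a => by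
      induction a using induction_on_primes with
      | zero => exact fun h => absurd (zero_dvd_iff.1 h) hm
      | one => exact fun _ => ⟨1, odd_one, by simp⟩
      | prime_mul p a hp ih =>
        intro h
        obtain ⟨o, ho1, ho2⟩ := ih (dvd_of_mul_left_dvd h)
        refine ⟨_, (ho p hp (dvd_of_mul_right_dvd h)).mul ho1, ?_⟩
        rw [Nat.cast_mul, mul_pow, pow_mul, pow_orderOf_eq_one, pow_mul', ho2]
        simp
    obtain ⟨o, ho1, ho2⟩ := h1 m dvd_rfl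
    have h2 : (((2 * s) ^ 2 : ℕ) : ZMod r) * m = 1 := by
      rw [← Nat.cast_mul, show (2 * s) ^ 2 * m = v + 1 by rw [← h4]; ring, Nat.cast_add,
        (ZMod.natCast_eq_zero_iff _ _).2 hrv]
      simp
    refine ho1.of_dvd_nat (orderOf_dvd_of_pow_eq_one ?_)
    have h3 := congrArg (· ^ o) h2
    simpa only [mul_pow, ho2, mul_one, one_pow] using h3

end Pool.Agent.Lib.MP_56f651_co.SG
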