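import Pool.Agent.Lib.MP_56f651_co.SG.Main
import Pool.Agent.Lib.MP_56f651_co.SG.Grp

/-! The asymptotic count for arbitrary finite groups. -/

open Finset Filter Topology

namespace Pool.Agent.Lib.MP_56f651_co.SG

open Classical in
theorem grp_le (P : ℕ → Prop) (hP : ∀ v, P v → v % 4 = 3 ∧ ∃ s m : ℕ, 1 ≤ s ∧ 1 ≤ m ∧
      (v + 1) / 4 = s ^ 2 * m ∧ vv s m = v ∧ Good s m) (x : ℕ) :
    ((Icc 1 x).filter fun v => ¬ v.Prime ∧ P v).card ≤
    ((Icc 1 x).filter fun n => ∃ s m : ℕ, 1 ≤ s ∧ 1 ≤ m ∧ n = s ^ 2 * m ∧ ¬ (vv s m).Prime ∧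
      Good s m).card := by
  refine card_le_card_of_injOn (fun v => (v + 1) / 4) (fun v hv => ?_) fun v hv w hw h => ?_
  · obtain ⟨h1, hp, h2⟩ := mem_filter.1 (mem_coe.1 hv)
    obtain ⟨h3, s, m, hs, hm, e, e2, hg⟩ := hP v h2
    have := mem_Icc.1 h1
    refine mem_coe.2 (mem_filter.2 ⟨mem_Icc.2 ⟨?_, ?_⟩, s, m, hs, hm, e, by rwa [e2], hg⟩)
    · change 1 ≤ (v + 1) / 4
      omega
    · change (v + 1) / 4 ≤ x
      omega
  · have h1 := (hP v (mem_filter.1 (mem_coe.1 hv)).2.2).1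
    have h2 := (hP w (mem_filter.1 (mem_coe.1 hw)).2.2).1
    change (v + 1) / 4 = (w + 1) / 4 at h
    omega

theorem small_of_good (P : ℕ → Prop) (hP : ∀ v, P v → v % 4 = 3 ∧ ∃ s m : ℕ, 1 ≤ s ∧ 1 ≤ m ∧
      (v + 1) / 4 = s ^ 2 * m ∧ vv s m = v ∧ Good s m) : Tendsto (fun x : ℕ =>
    (({v : ℕ | v ≤ x ∧ ¬ v.Prime ∧ P v}.ncard : ℕ) : ℝ) / (x / Real.log x)) atTop (𝓝 0) := by
  classical
  refine tendsto_order.2 ⟨fun a ha => Eventually.of_forall fun x => ha.trans_le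
    (div_nonneg (by positivity) (div_nonneg (by positivity) (Real.log_natCast_nonneg x))),
    fun ε hε => ?_⟩
  filter_upwards [main_blk.eventually (bad_J (ε / 8192) (by positivity)),
    main_blk.eventually_ge_atTop 1, eventually_ge_atTop 2] with x h1 h2 h3
  obtain ⟨b1, b2⟩ := blk_spec h3
  have e1 : blk x - 11 + 11 = blk x := by omega
  have e2 : blk x - 11 + 12 = blk x + 1 := by omega
  have h4 := h1 x (by rwa [e1]) (by rwa [e2])
  rw [main_ncard (fun v => ¬ v.Prime ∧ P v) x (fun h => absurd (hP 0 h.2).1 (by norm_num))]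
  have h5 := ((Nat.cast_le (α := ℝ)).2 (grp_le P hP x)).trans h4
  have hx : (2 : ℝ) ≤ x := by exact_mod_cast h3
  have hl : 0 < Real.log x := Real.log_pos (by linarith)
  have hl2 : Real.log x ≤ 4096 * 2 ^ (blk x - 11) := by
    have k1 : Real.log x ≤ Real.log (T (blk x - 11 + 12)) :=
      Real.log_le_log (by linarith) (by rw [e2]; exact_mod_cast b2.le)
    rw [log_T, pow_add] at k1
    have k2 : Real.log 2 ≤ 1 := by linarith [Real.log_two_lt_d9]
    have k3 : (0 : ℝ) < 2 ^ (blk x - 11) := by positivity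
    nlinarith
  have k3 : (0 : ℝ) < 2 ^ (blk x - 11) := by positivity
  rw [div_lt_iff₀ (by positivity)]
  refine h5.trans_lt ?_
  have k4 : (x : ℝ) / 2 ^ (blk x - 11) ≤ 4096 * (x / Real.log x) := by
    rw [← mul_div_assoc, div_le_div_iff₀ k3 hl]
    nlinarith
  have k5 : 0 < (x : ℝ) / Real.log x := by positivity
  nlinarith [mul_le_mul_of_nonneg_left k4 hε.le, mul_pos hε k5]

theorem grp_small : Tendsto (fun x : ℕ =>
    (({v : ℕ | v ≤ x ∧ ¬ v.Prime ∧ v % 4 = 3 ∧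
      ∃ (G : Type) (_ : Group G) (_ : Fintype G) (_ : DecidableEq G), Fintype.card G = v ∧
        ∃ D : Finset G, D.card = (v - 1) / 2 ∧ ∀ d : G, d ≠ 1 →
          ((D ×ˢ D).filter (fun q => q.1 * q.2⁻¹ = d)).card = (v - 3) / 4}.ncard : ℕ) : ℝ) /
      (x / Real.log x)) atTop (𝓝 0) :=
  small_of_good _ fun _ ⟨h3, _, _, _, _, hG, D, hk, hl⟩ =>
    ⟨h3, good_of_odd h3 fun _ _ hr hrv hq ho => odd_order_grp hG D h3 hk hl hr hrv hq ho⟩

end Pool.Agent.Lib.MP_56f651_co.SG
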