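import Pool.Agent.Lib.MP_56f651_co.SG.Defs
import Pool.Agent.Lib.MP_458f0b_nt.Pois.PNTa

/-! The quadratic residue difference sets, and the number of primes that are 3 modulo 4. -/

open Finset Filter Topology

namespace Pool.Agent.Lib.MP_56f651_co.SG

section

variable {F : Type} [Field F] [Fintype F] [DecidableEq F]

theorem paley_corr (hF : ringChar F ≠ 2) {d : F} (hd : d ≠ 0) :
    ∑ b, quadraticChar F b * quadraticChar F (b + d) = -1 := by
  have h1 := jacobiSum_nontrivial_inv (quadraticChar_ne_one hF)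
  rw [(quadraticChar_isQuadratic F).inv, jacobiSum] at h1
  have h2 := quadraticChar_sq_one hd
  have h3 := quadraticChar_sq_one (F := F) (neg_ne_zero.2 one_ne_zero)
  rw [← Equiv.sum_comp (Equiv.mulLeft₀ (-d) (neg_ne_zero.2 hd))]
  have h4 : ∀ x : F, quadraticChar F (-d * x) * quadraticChar F (-d * x + d) =
      quadraticChar F (-1) * (quadraticChar F x * quadraticChar F (1 - x)) := fun x => by
    rw [show -d * x + d = d * (1 - x) by ring, show -d * x = -1 * (d * x) by ring, map_mul, map_mul,
      map_mul]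
    linear_combination quadraticChar F (-1) * quadraticChar F x * quadraticChar F (1 - x) * h2
  simp only [Equiv.mulLeft₀_apply, h4]
  rw [← mul_sum, h1]
  linear_combination -h3

theorem paley_card (hF : ringChar F ≠ 2) :
    2 * ((univ.filter fun x => quadraticChar F x = 1).card : ℤ) = Fintype.card F - 1 := by
  have h1 : ∀ x : F, 2 * (if quadraticChar F x = 1 then (1 : ℤ) else 0) =
      1 + quadraticChar F x - if x = 0 then 1 else 0 := fun x => by
    by_cases hx : x = 0
    · simp [hx]
    · rcases quadraticChar_dichotomy hx with h | h <;> rw [h] <;> simp [hx]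
  rw [← sum_boole, mul_sum, sum_congr rfl fun x _ => h1 x, sum_sub_distrib, sum_add_distrib,
    quadraticChar_sum_zero hF]
  simp

theorem paley_diff (hF : ringChar F ≠ 2) (hm : quadraticChar F (-1) = -1) {d : F} (hd : d ≠ 0) :
    4 * ((univ.filter fun b => quadraticChar F (b + d) = 1 ∧ quadraticChar F b = 1).card : ℤ) =
      Fintype.card F - 3 := by
  have h1 : ∀ b : F, 4 * (if quadraticChar F (b + d) = 1 ∧ quadraticChar F b = 1 then (1 : ℤ)
      else 0) = 1 + quadraticChar F b + quadraticChar F (b + d) +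
        quadraticChar F b * quadraticChar F (b + d) -
        (if b = 0 then 1 + quadraticChar F d else 0) -
        if b = -d then 1 + quadraticChar F (-d) else 0 := fun b => by
    by_cases hb : b = 0
    · rw [if_pos hb, if_neg (show b ≠ -d from fun e => hd (neg_eq_zero.1 (e.symm.trans hb))), hb,
        MulChar.map_zero, if_neg (by simp), zero_add]
      ring
    by_cases hb' : b = -d
    · rw [if_neg hb, if_pos hb', hb', neg_add_cancel, MulChar.map_zero, if_neg (by simp)]
      ring
    · rw [if_neg hb, if_neg hb']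
      rcases quadraticChar_dichotomy hb with h | h <;>
        rcases quadraticChar_dichotomy (show b + d ≠ 0 from fun e =>
          hb' (eq_neg_of_add_eq_zero_left e)) with h' | h' <;> rw [h, h'] <;> simp
  have h2 : ∑ b, quadraticChar F (b + d) = 0 := by
    rw [← quadraticChar_sum_zero hF]
    exact Equiv.sum_comp (Equiv.addRight d) _
  have h3 : quadraticChar F (-d) = -quadraticChar F d := by
    rw [← neg_one_mul d, map_mul, hm, neg_one_mul]
  rw [← sum_boole, mul_sum, sum_congr rfl fun x _ => h1 x, sum_sub_distrib, sum_sub_distrib,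
    sum_add_distrib, sum_add_distrib, sum_add_distrib, quadraticChar_sum_zero hF, h2,
    paley_corr hF hd, sum_ite_eq', sum_ite_eq', if_pos (mem_univ _), if_pos (mem_univ _), h3,
    sum_const, card_univ, nsmul_eq_mul]
  ring

end

theorem paley {p : ℕ} (hp : p.Prime) (h3 : p % 4 = 3) : ∃ D : Finset (ZMod p),
    D.card = (p - 1) / 2 ∧ ∀ d : ZMod p, d ≠ 0 →
      ((D ×ˢ D).filter (fun q => q.1 - q.2 = d)).card = (p - 3) / 4 := by
  have := Fact.mk hp
  have hF : ringChar (ZMod p) ≠ 2 := by
    rw [ZMod.ringChar_zmod_n]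
    omega
  have hm : quadraticChar (ZMod p) (-1) = -1 :=
    quadraticChar_neg_one_iff_not_isSquare.2 fun h => ZMod.exists_sq_eq_neg_one_iff.1 h h3
  refine ⟨univ.filter fun x => quadraticChar (ZMod p) x = 1, ?_, fun d hd => ?_⟩
  · have h1 := paley_card hF
    rw [ZMod.card] at h1
    omega
  · have h1 := paley_diff hF hm hd
    rw [ZMod.card] at h1
    have h2 : (((univ.filter fun x => quadraticChar (ZMod p) x = 1) ×ˢ
        (univ.filter fun x => quadraticChar (ZMod p) x = 1)).filter
          (fun q => q.1 - q.2 = d)).card = (univ.filter fun b =>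
            quadraticChar (ZMod p) (b + d) = 1 ∧ quadraticChar (ZMod p) b = 1).card := by
      refine card_nbij' (fun q => q.2) (fun b => (b + d, b)) (fun q hq => ?_) (fun b hb => ?_)
        (fun q hq => ?_) fun b _ => rfl
      · obtain ⟨h4, h5⟩ := mem_filter.1 (mem_coe.1 hq)
        obtain ⟨h6, h7⟩ := mem_product.1 h4
        refine mem_coe.2 (mem_filter.2 ⟨mem_univ _, ?_, (mem_filter.1 h7).2⟩)
        rw [← h5, add_sub_cancel]
        exact (mem_filter.1 h6).2
      · obtain ⟨-, h4, h5⟩ := mem_filter.1 (mem_coe.1 hb)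
        exact mem_coe.2 (mem_filter.2 ⟨mem_product.2 ⟨mem_filter.2 ⟨mem_univ _, h4⟩,
          mem_filter.2 ⟨mem_univ _, h5⟩⟩, add_sub_cancel_left b d⟩)
      · have h5 := (mem_filter.1 (mem_coe.1 hq)).2
        exact Prod.ext (show q.2 + d = q.1 by rw [← h5, add_sub_cancel]) rfl
    rw [h2]
    omega

theorem paley_small {ε : ℝ} (hε : 0 < ε) :
    ∀ᶠ x : ℕ in atTop, Real.log x * √(x : ℝ) ≤ ε * x := by
  have h1 := tendsto_natCast_atTop_atTop.eventually
    ((isLittleO_log_rpow_atTop (r := 1 / 2) (by norm_num)).bound hε)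
  filter_upwards [h1] with x hx
  rw [← Real.sqrt_eq_rpow, Real.norm_eq_abs, Real.norm_eq_abs,
    abs_of_nonneg (Real.sqrt_nonneg _)] at hx
  calc _ ≤ ε * √(x : ℝ) * √(x : ℝ) :=
        mul_le_mul_of_nonneg_right ((le_abs_self _).trans hx) (Real.sqrt_nonneg _)
    _ = _ := by rw [mul_assoc, Real.mul_self_sqrt (Nat.cast_nonneg x)]

theorem pnt3 : Tendsto (fun x : ℕ =>
    (((Icc 1 x).filter fun p => p.Prime ∧ p % 4 = 3).card : ℝ) / (x / Real.log x)) atTop
    (𝓝 (1 / 2)) := by
  refine Metric.tendsto_nhds.2 fun ε hε => ?_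
  have hε' : 0 < ε / 3 := by positivity
  filter_upwards [MP_458f0b_nt.Pois.pnt_unif 4 (by norm_num) 3 (by norm_num) _ hε',
    paley_small hε', eventually_ge_atTop 2] with x h1 h2 h3
  have h4 := abs_le.1 (h1 x le_rfl)
  have hx : (1 : ℝ) < x := by exact_mod_cast h3
  have hl : 0 < Real.log x := Real.log_pos hx
  have h5 : Nat.totient 4 = 2 := by decide
  rw [h5] at h4
  set A := (Icc 1 x).filter fun p => p.Prime ∧ p % 4 = 3
  set B := (Icc 1 x).filter fun p => p.Prime ∧ x < p ^ 2 ∧ p ≡ 3 [MOD 4]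
  have h6 : (B.card : ℝ) ≤ A.card := by
    refine Nat.cast_le.2 (card_le_card fun p hp => ?_)
    obtain ⟨a, b, -, c⟩ := mem_filter.1 hp
    exact mem_filter.2 ⟨a, b, c⟩
  have h7 : (A.card : ℝ) ≤ B.card + √(x : ℝ) := by
    have h8 : A ⊆ B ∪ Icc 1 x.sqrt := fun p hp => by
      obtain ⟨a, b, c⟩ := mem_filter.1 hp
      by_cases h : x < p ^ 2
      · exact mem_union_left _ (mem_filter.2 ⟨a, b, h, c⟩)
      · exact mem_union_right _ (mem_Icc.2 ⟨(mem_Icc.1 a).1, Nat.le_sqrt'.2 (not_lt.1 h)⟩)
    have h9 := (card_le_card h8).trans (card_union_le _ _)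
    rw [Nat.card_Icc, Nat.add_sub_cancel] at h9
    have h10 : (A.card : ℝ) ≤ B.card + x.sqrt := by exact_mod_cast h9
    linarith [Real.nat_sqrt_le_real_sqrt (a := x)]
  have h8 := mul_le_mul_of_nonneg_left h6 hl.le
  have h9 := mul_le_mul_of_nonneg_left h7 hl.le
  have hx0 : (0 : ℝ) < x := by linarith
  have h10 : 0 < ε * x := by positivity
  rw [Real.dist_eq, show (A.card : ℝ) / (x / Real.log x) - 1 / 2 =
    (Real.log x * A.card - x / 2) / x by field_simp, abs_div, abs_of_pos hx0, div_lt_iff₀ hx0,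
    abs_lt]
  push_cast at h4
  constructor <;> linarith [h4.1, h4.2]

end Pool.Agent.Lib.MP_56f651_co.SG
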