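import Pool.Agent.Lib.MP_56f651_co.SG.Defs

/-! The self-conjugacy condition for cyclic Hadamard difference sets. -/

open Finset Filter Topology

namespace Pool.Agent.Lib.MP_56f651_co.SG

open Polynomial in
theorem sc_frob {R : Type} [CommRing R] [Algebra ℤ R] {q : ℕ} (hq : q.Prime) (h0 : (q : R) = 0)
    (n : ℕ) (x : R) (p : ℤ[X]) : aeval x p ^ q ^ n = aeval (x ^ q ^ n) p := by
  let F : R →+* R :=
    { toFun := fun y => y ^ q ^ n
      map_one' := one_pow _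
      map_mul' := fun a b => mul_pow _ _ _
      map_zero' := zero_pow (pow_pos hq.pos n).ne'
      map_add' := fun a b => by
        obtain ⟨c, hc⟩ := exists_add_pow_prime_pow_eq hq a b n
        simp [hc, h0] }
  let G : R →ₐ[ℤ] R := { F with commutes' := fun a => by simp }
  exact (aeval_algHom_apply G x p).symm

open Polynomial in
theorem sc_conj {ζ : ℂ} {r : ℕ} (hc : (starRingEnd ℂ) ζ = ζ ^ (r - 1)) (p : ℤ[X]) :
    (starRingEnd ℂ) (aeval ζ p) = aeval ζ (p.comp (X ^ (r - 1))) := by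
  rw [aeval_comp, map_pow, aeval_X, ← hc]
  exact (aeval_algHom_apply (starRingEnd ℂ).toIntAlgHom ζ p).symm

open Polynomial in
theorem sc_step {ζ : ℂ} {r q j : ℕ} (h1 : ζ ^ r = 1) (hc : (starRingEnd ℂ) ζ = ζ ^ (r - 1))
    (hq : q.Prime) (hj : 0 < j) (e1 : q ^ j ≡ r - 1 [MOD r]) (e2 : q ^ (2 * j) ≡ 1 [MOD r])
    (p : ℤ[X]) {N : ℕ} (hN : aeval ζ p * (starRingEnd ℂ) (aeval ζ p) = N) (hd : q ∣ N) :
    ∃ p' : ℤ[X], aeval ζ p = q * aeval ζ p' := by
  let I : Ideal ℤ[X] := RingHom.ker (aeval ζ : ℤ[X] →ₐ[ℤ] ℂ) ⊔ Ideal.span {(q : ℤ[X])}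
  let π : ℤ[X] →ₐ[ℤ] ℤ[X] ⧸ I := Ideal.Quotient.mkₐ ℤ I
  have hk : ∀ a b : ℤ[X], aeval ζ a = aeval ζ b → π a = π b := fun a b h =>
    Ideal.Quotient.eq.2 (Ideal.mem_sup_left (by simp [RingHom.mem_ker, h]))
  have h0 : ((q : ℕ) : ℤ[X] ⧸ I) = 0 := by
    rw [← map_natCast π]
    exact Ideal.Quotient.eq_zero_iff_mem.2 (Ideal.mem_sup_right (Ideal.subset_span rfl))
  have ha : ∀ a : ℤ[X], aeval (π X) a = π a := fun a => by
    rw [aeval_algHom_apply, aeval_X_left_apply]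
  have hx : π X ^ r = 1 := by
    rw [← map_pow, ← map_one π]
    exact hk _ _ (by simp [h1])
  have f1 : π p ^ q ^ j = π (p.comp (X ^ (r - 1))) := by
    rw [← ha, sc_frob hq h0, pow_eq_pow_of_modEq e1 hx, ← ha (p.comp _), aeval_comp, map_pow,
      aeval_X]
  have f2 : π p ^ q ^ (2 * j) = π p := by
    rw [← ha, sc_frob hq h0, pow_eq_pow_of_modEq e2 hx, pow_one]
  have f3 : π p ^ (q ^ j + 1) = 0 := by
    obtain ⟨c, rfl⟩ := hd
    rw [pow_succ', f1, ← map_mul, hk _ ((q * c : ℕ) : ℤ[X]) (by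
      rw [map_mul, ← sc_conj hc, hN, map_natCast]), map_natCast, Nat.cast_mul, h0, zero_mul]
  obtain ⟨m, hm⟩ : ∃ m, q ^ (2 * j) = m + 1 + 1 :=
    ⟨q ^ (2 * j) - 2, by have := Nat.one_lt_pow (by omega : 2 * j ≠ 0) hq.one_lt; omega⟩
  have f4 : ∀ k, π p = π p * (π p ^ k) ^ (m + 1) := fun k => by
    induction k with
    | zero => simp
    | succ k ih =>
      rw [pow_succ _ k, mul_pow, ← mul_assoc, ← ih, ← pow_succ', ← hm, f2]
  have f5 : π p = 0 := by rw [f4 (q ^ j + 1), f3]; simp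
  obtain ⟨a, ha, b, hb, hab⟩ := Submodule.mem_sup.1 (Ideal.Quotient.eq_zero_iff_mem.1 f5)
  obtain ⟨c, rfl⟩ := Ideal.mem_span_singleton'.1 hb
  refine ⟨c, ?_⟩
  rw [← hab, map_add, (RingHom.mem_ker).1 ha, map_mul, map_natCast, zero_add, mul_comm]

open Polynomial in
theorem sc_even {ζ : ℂ} {r q j : ℕ} (hr : 0 < r) (h1 : ζ ^ r = 1)
    (hc : (starRingEnd ℂ) ζ = ζ ^ (r - 1))
    (hq : q.Prime) (hj : 0 < j) (e1 : q ^ j ≡ r - 1 [MOD r]) (e2 : q ^ (2 * j) ≡ 1 [MOD r])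
    (N : ℕ) : 0 < N → ∀ p : ℤ[X], aeval ζ p * (starRingEnd ℂ) (aeval ζ p) = N →
      Even (N.factorization q) := by
  induction N using Nat.strong_induction_on with
  | _ N ih =>
  intro h0 p hN
  by_cases hd : q ∣ N
  swap
  · simp [Nat.factorization_eq_zero_of_not_dvd hd]
  obtain ⟨p', hp⟩ := sc_step h1 hc hq hj e1 e2 p hN hd
  have hz : IsIntegral ℤ ζ := IsIntegral.of_pow hr (h1 ▸ isIntegral_one)
  have hi : ∀ a : ℤ[X], IsIntegral ℤ (aeval ζ a) := fun a =>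
    (IsIntegral.of_mem_of_fg _ hz.fg_adjoin_singleton _ (aeval_mem_adjoin_singleton ℤ ζ))
  have hq0 : (q : ℂ) ≠ 0 := Nat.cast_ne_zero.2 hq.ne_zero
  have e : aeval ζ p' * (starRingEnd ℂ) (aeval ζ p') = algebraMap ℚ ℂ (N / q ^ 2) := by
    rw [hp, map_mul, map_natCast] at hN
    simp only [map_div₀, map_natCast, map_pow, ← hN]
    field_simp
  have hI : IsIntegral ℤ ((N : ℚ) / q ^ 2) := by
    rw [← isIntegral_algebraMap_iff (algebraMap ℚ ℂ).injective, ← e, sc_conj hc]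
    exact (hi _).mul (hi _)
  obtain ⟨y, hy⟩ := IsIntegrallyClosed.isIntegral_iff.1 hI
  have hq1 : (q : ℚ) ≠ 0 := Nat.cast_ne_zero.2 hq.ne_zero
  have h2 : q ^ 2 ∣ N := by
    rw [← Int.natCast_dvd_natCast]
    refine ⟨y, ?_⟩
    have : (N : ℚ) = q ^ 2 * y := by
      rw [eq_div_iff (pow_ne_zero 2 hq1)] at hy
      rw [← hy]; simp [mul_comm]
    exact_mod_cast this
  obtain ⟨M, rfl⟩ := h2
  have hM : 0 < M := Nat.pos_of_mul_pos_left h0
  have h3 := ih M ((Nat.lt_mul_iff_one_lt_left hM).2 (Nat.one_lt_pow two_ne_zero hq.one_lt)) hM p' (by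
    rw [e]; push_cast; rw [mul_div_cancel_left₀ _ (pow_ne_zero 2 hq0)])
  rw [Nat.factorization_mul (pow_ne_zero 2 hq.ne_zero) hM.ne', hq.factorization_pow]
  simpa [Nat.even_add] using h3

theorem sc_char {v : ℕ} [NeZero v] (D : Finset (ZMod v)) (hv : v % 4 = 3)
    (hk : D.card = (v - 1) / 2)
    (hl : ∀ d : ZMod v, d ≠ 0 → ((D ×ˢ D).filter (fun q => q.1 - q.2 = d)).card = (v - 3) / 4)
    (χ : AddChar (ZMod v) ℂ) (hχ : χ ≠ 1) :
    (∑ d ∈ D, χ d) * (starRingEnd ℂ) (∑ d ∈ D, χ d) = ((v + 1) / 4 : ℕ) := by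
  have h0 : ((D ×ˢ D).filter (fun q => q.1 - q.2 = 0)).card = (v - 1) / 2 := by
    rw [← hk, ← Finset.diag_card (s := D)]
    refine congrArg Finset.card (Finset.ext fun ⟨a, b⟩ => ?_)
    simp only [mem_filter, mem_product, sub_eq_zero, mem_diag]
    constructor
    · rintro ⟨⟨h, -⟩, h'⟩; exact ⟨h, h'⟩
    · rintro ⟨h, rfl⟩; exact ⟨⟨h, h⟩, rfl⟩
  have h1 := AddChar.sum_eq_zero_of_ne_one hχ
  rw [← Finset.add_sum_erase _ _ (mem_univ 0), AddChar.map_zero_eq_one] at h1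
  rw [map_sum, sum_mul_sum, ← sum_product']
  simp only [← AddChar.map_neg_eq_conj, ← AddChar.map_add_eq_mul, ← sub_eq_add_neg]
  rw [← sum_fiberwise' (D ×ˢ D) (fun q => q.1 - q.2) χ, ← Finset.add_sum_erase _ _ (mem_univ 0)]
  simp only [sum_const, nsmul_eq_mul]
  rw [h0, sum_congr rfl fun d hd => by rw [hl d (ne_of_mem_erase hd)], ← mul_sum,
    AddChar.map_zero_eq_one, eq_neg_of_add_eq_zero_right h1,
    show (v - 1) / 2 = (v + 1) / 4 + (v - 3) / 4 by omega]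
  push_cast
  ring

theorem odd_order {v : ℕ} (D : Finset (ZMod v)) (hv : v % 4 = 3) (hk : D.card = (v - 1) / 2)
    (hl : ∀ d : ZMod v, d ≠ 0 → ((D ×ˢ D).filter (fun q => q.1 - q.2 = d)).card = (v - 3) / 4)
    {r q : ℕ} (hr : r.Prime) (hrv : r ∣ v) (hq : q.Prime)
    (ho : Odd (((v + 1) / 4).factorization q)) : Odd (orderOf (q : ZMod r)) := by
  have : NeZero v := ⟨by omega⟩
  have := Fact.mk hr
  have hqn : q ∣ (v + 1) / 4 := Nat.dvd_of_factorization_pos ho.pos.ne'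
  have hq0 : (q : ZMod r) ≠ 0 := fun h => by
    have h1 : r ∣ v + 1 := ((ZMod.natCast_eq_zero_iff _ _).1 h).trans
      (hqn.trans (Nat.div_dvd_of_dvd (by omega)))
    exact hr.one_lt.ne' (Nat.dvd_one.1 ((Nat.dvd_add_right hrv).1 h1))
  have hpos : 0 < orderOf (q : ZMod r) :=
    (isOfFinOrder_iff_pow_eq_one.2 ⟨r - 1, by have := hr.two_le; omega,
      ZMod.pow_card_sub_one_eq_one hq0⟩).orderOf_pos
  by_contra hne
  obtain ⟨j, hj⟩ := Nat.not_odd_iff_even.1 hne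
  have e2 : (q : ZMod r) ^ (2 * j) = 1 := by rw [two_mul, ← hj, pow_orderOf_eq_one]
  have e1 : (q : ZMod r) ^ j = -1 := by
    rw [mul_comm, pow_mul, sq_eq_one_iff] at e2
    exact e2.resolve_left (pow_ne_one_of_lt_orderOf (by omega) (by omega))
  obtain ⟨ζ, hζ⟩ : ∃ ζ : ℂ, IsPrimitiveRoot ζ r := ⟨_, Complex.isPrimitiveRoot_exp r hr.ne_zero⟩
  have hv1 : ζ ^ v = 1 := (hζ.pow_eq_one_iff_dvd v).2 hrv
  have hc : (starRingEnd ℂ) ζ = ζ ^ (r - 1) := by
    rw [← Complex.inv_eq_conj (hζ.norm'_eq_one hr.ne_zero)]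
    refine inv_eq_of_mul_eq_one_right ?_
    rw [← pow_succ', Nat.sub_add_cancel hr.one_le, hζ.pow_eq_one]
  have hχ : AddChar.zmodChar v hv1 ≠ 1 := fun h => by
    have h1 := AddChar.zmodChar_apply' hv1 1
    rw [h, AddChar.one_apply, pow_one] at h1
    exact hζ.ne_one hr.one_lt h1.symm
  refine Nat.not_even_iff_odd.2 ho (sc_even (j := j) hr.pos hζ.pow_eq_one hc hq (by omega) ?_ ?_ _
    (by omega) (∑ d ∈ D, Polynomial.X ^ d.val) ?_)
  · rw [← ZMod.natCast_eq_natCast_iff, Nat.cast_pow, e1, Nat.cast_sub hr.one_le]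
    simp
  · rw [← ZMod.natCast_eq_natCast_iff, Nat.cast_pow, e2, Nat.cast_one]
  · simpa only [map_sum, map_pow, Polynomial.aeval_X, AddChar.zmodChar_apply] using
      sc_char D hv hk hl _ hχ

theorem hds_good {v : ℕ} (D : Finset (ZMod v)) (hv : v % 4 = 3) (hk : D.card = (v - 1) / 2)
    (hl : ∀ d : ZMod v, d ≠ 0 → ((D ×ˢ D).filter (fun q => q.1 - q.2 = d)).card = (v - 3) / 4) :
    ∃ s m : ℕ, 1 ≤ s ∧ 1 ≤ m ∧ (v + 1) / 4 = s ^ 2 * m ∧ vv s m = v ∧ Good s m := by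
  obtain ⟨m, s, h, hsf⟩ := Nat.sq_mul_squarefree ((v + 1) / 4)
  have hm : m ≠ 0 := hsf.ne_zero
  have hs : s ≠ 0 := by
    rintro rfl
    simp only [ne_eq, OfNat.ofNat_ne_zero, not_false_eq_true, zero_pow, zero_mul] at h
    omega
  have h4 : 4 * s ^ 2 * m = v + 1 := by rw [mul_assoc, h]; omega
  have hvv : vv s m = v := by rw [vv, h4]; rfl
  refine ⟨s, m, Nat.pos_of_ne_zero hs, Nat.pos_of_ne_zero hm, h.symm, hvv, fun r hr hrv => ?_⟩
  rw [hvv] at hrv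
  have := Fact.mk hr
  have ho : ∀ q : ℕ, q.Prime → q ∣ m → Odd (orderOf (q : ZMod r)) := fun q hq hqm => by
    refine odd_order D hv hk hl hr hrv hq ?_
    rw [← h, Nat.factorization_mul (pow_ne_zero 2 hs) hm, Nat.factorization_pow]
    simp [Nat.factorization_eq_one_of_squarefree hsf hq hqm]
  refine ⟨fun q hq hqm => ?_, ?_⟩
  · obtain ⟨k, hk⟩ := ho q hq hqm
    have h1 := pow_orderOf_eq_one (q : ZMod r)
    rw [hk] at h1
    have h0 : ((q : ℤ) : ZMod r) ≠ 0 := fun h0 => by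
      rw [Int.cast_natCast] at h0
      simp [h0] at h1
    rw [← jacobiSym.legendreSym.to_jacobiSym, legendreSym.eq_one_iff r h0, Int.cast_natCast]
    exact ⟨(q : ZMod r) ^ (k + 1), by linear_combination (-(q : ZMod r)) * h1⟩
  · have h1 : ∀ a : ℕ, a ∣ m → ∃ o, Odd o ∧ (a : ZMod r) ^ o = 1 := fun a => by
      induction a using induction_on_primes with
      | zero => exact fun h => absurd (zero_dvd_iff.1 h) hm
      | one => exact fun _ => ⟨1, odd_one, by simp⟩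
      | prime_mul p a hp ih =>
        intro h
        obtain ⟨o, ho1, ho2⟩ := ih (dvd_of_mul_left_dvd h)
        refine ⟨_, (ho p hp (dvd_of_mul_right_dvd h)).mul ho1, ?_⟩
        rw [Nat.cast_mul, mul_pow, pow_mul, pow_orderOf_eq_one, pow_mul', ho2]
        simp
    obtain ⟨o, ho1, ho2⟩ := h1 m dvd_rfl
    have h2 : (((2 * s) ^ 2 : ℕ) : ZMod r) * m = 1 := by
      rw [← Nat.cast_mul, show (2 * s) ^ 2 * m = v + 1 by rw [← h4]; ring, Nat.cast_add,
        (ZMod.natCast_eq_zero_iff _ _).2 hrv]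
      simp
    refine ho1.of_dvd_nat (orderOf_dvd_of_pow_eq_one ?_)
    have h3 := congrArg (· ^ o) h2
    simpa only [mul_pow, ho2, mul_one, one_pow] using h3

end Pool.Agent.Lib.MP_56f651_co.SG
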