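import Pool.Agent.Lib.MP_56f651_co.SG.Sum
import Pool.Agent.Lib.MP_56f651_co.SG.SC
import Pool.Agent.Lib.MP_56f651_co.SG.Paley

/-! The asymptotic count. -/

open Finset Filter Topology

namespace Pool.Agent.Lib.MP_56f651_co.SG

/-- There is a cyclic Hadamard difference set of order `v`. -/
def Has (v : ℕ) : Prop :=
  v % 4 = 3 ∧ ∃ D : Finset (ZMod v), D.card = (v - 1) / 2 ∧ ∀ d : ZMod v, d ≠ 0 →
    ((D ×ˢ D).filter (fun q => q.1 - q.2 = d)).card = (v - 3) / 4

theorem main_ncard (P : ℕ → Prop) [DecidablePred P] (x : ℕ) (h0 : ¬ P 0) :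
    {v : ℕ | v ≤ x ∧ P v}.ncard = ((Icc 1 x).filter P).card := by
  rw [← Set.ncard_coe_finset]
  congr 1
  ext v
  simp only [Set.mem_ofPred_eq, coe_filter, mem_Icc]
  constructor
  · rintro ⟨h1, h2⟩
    exact ⟨⟨Nat.pos_of_ne_zero fun h => h0 (h ▸ h2), h1⟩, h2⟩
  · rintro ⟨⟨_, h1⟩, h2⟩
    exact ⟨h1, h2⟩

theorem main_blk : Tendsto (fun x : ℕ => blk x - 11) atTop atTop := by
  refine (tendsto_sub_atTop_nat 11).comp (tendsto_atTop.2 fun j => ?_)
  filter_upwards [eventually_ge_atTop (T j)] with x hx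
  have h2 : 2 ≤ x := (two_le_T j).trans hx
  have := T_strictMono.lt_iff_lt.1 (hx.trans_lt (blk_spec h2).2)
  omega

open Classical in
theorem main_le (x : ℕ) : ((Icc 1 x).filter fun v => ¬ v.Prime ∧ Has v).card ≤
    ((Icc 1 x).filter fun n => ∃ s m : ℕ, 1 ≤ s ∧ 1 ≤ m ∧ n = s ^ 2 * m ∧ ¬ (vv s m).Prime ∧
      Good s m).card := by
  refine card_le_card_of_injOn (fun v => (v + 1) / 4) (fun v hv => ?_) fun v hv w hw h => ?_
  · obtain ⟨h1, hp, h3, D, hk, hl⟩ := mem_filter.1 (mem_coe.1 hv)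
    obtain ⟨s, m, hs, hm, e, e2, hg⟩ := hds_good D h3 hk hl
    have := mem_Icc.1 h1
    refine mem_coe.2 (mem_filter.2 ⟨mem_Icc.2 ⟨?_, ?_⟩, s, m, hs, hm, e, by rwa [e2], hg⟩)
    · change 1 ≤ (v + 1) / 4
      omega
    · change (v + 1) / 4 ≤ x
      omega
  · have h1 := (mem_filter.1 (mem_coe.1 hv)).2.2.1
    have h2 := (mem_filter.1 (mem_coe.1 hw)).2.2.1
    change (v + 1) / 4 = (w + 1) / 4 at h
    omega

theorem comp_small : Tendsto (fun x : ℕ =>
    (({v : ℕ | v ≤ x ∧ ¬ v.Prime ∧ Has v}.ncard : ℕ) : ℝ) / (x / Real.log x)) atTop (𝓝 0) := by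
  classical
  refine tendsto_order.2 ⟨fun a ha => Eventually.of_forall fun x => ha.trans_le
    (div_nonneg (by positivity) (div_nonneg (by positivity) (Real.log_natCast_nonneg x))),
    fun ε hε => ?_⟩
  filter_upwards [main_blk.eventually (bad_J (ε / 8192) (by positivity)),
    main_blk.eventually_ge_atTop 1, eventually_ge_atTop 2] with x h1 h2 h3
  obtain ⟨b1, b2⟩ := blk_spec h3
  have e1 : blk x - 11 + 11 = blk x := by omega
  have e2 : blk x - 11 + 12 = blk x + 1 := by omega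
  have h4 := h1 x (by rwa [e1]) (by rwa [e2])
  rw [main_ncard (fun v => ¬ v.Prime ∧ Has v) x (fun h => absurd h.2.1 (by norm_num))]
  have h5 := ((Nat.cast_le (α := ℝ)).2 (main_le x)).trans h4
  have hx : (2 : ℝ) ≤ x := by exact_mod_cast h3
  have hl : 0 < Real.log x := Real.log_pos (by linarith)
  have hl2 : Real.log x ≤ 4096 * 2 ^ (blk x - 11) := by
    have k1 : Real.log x ≤ Real.log (T (blk x - 11 + 12)) :=
      Real.log_le_log (by linarith) (by rw [e2]; exact_mod_cast b2.le)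
    rw [log_T, pow_add] at k1
    have k2 : Real.log 2 ≤ 1 := by linarith [Real.log_two_lt_d9]
    have k3 : (0 : ℝ) < 2 ^ (blk x - 11) := by positivity
    nlinarith
  have k3 : (0 : ℝ) < 2 ^ (blk x - 11) := by positivity
  rw [div_lt_iff₀ (by positivity)]
  refine h5.trans_lt ?_
  have k4 : (x : ℝ) / 2 ^ (blk x - 11) ≤ 4096 * (x / Real.log x) := by
    rw [← mul_div_assoc, div_le_div_iff₀ k3 hl]
    nlinarith
  have k5 : 0 < (x : ℝ) / Real.log x := by positivity
  nlinarith [mul_le_mul_of_nonneg_left k4 hε.le, mul_pos hε k5]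

theorem all_asy : Tendsto (fun x : ℕ =>
    (({v : ℕ | v ≤ x ∧ Has v}.ncard : ℕ) : ℝ) / (x / Real.log x)) atTop (𝓝 (1 / 2)) := by
  classical
  have h := pnt3.add comp_small
  rw [add_zero] at h
  refine h.congr fun x => ?_
  rw [← add_div, main_ncard (fun v => ¬ v.Prime ∧ Has v) x (fun h => absurd h.2.1 (by norm_num)),
    main_ncard Has x (fun h => absurd h.1 (by norm_num)),
    ← card_filter_add_card_filter_not (s := (Icc 1 x).filter Has) Nat.Prime, filter_filter,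
    filter_filter]
  push_cast
  congr 4
  · exact filter_congr fun v _ => ⟨fun h => ⟨⟨h.2, paley h.1 h.2⟩, h.1⟩, fun h => ⟨h.2, h.1.1⟩⟩
  · exact filter_congr fun v _ => and_comm

end Pool.Agent.Lib.MP_56f651_co.SG
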