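import Pool.Agent.Lib.MP_56f651_co.SG.Defs
import Pool.Agent.Lib.MP_0a06fe_nt.RT.Sieve
import Pool.Agent.Lib.MP_a3366f_nt.KPrimes

/-! The scale `T` and sums over primes in blocks. -/

open Finset Filter Topology

namespace Pool.Agent.Lib.MP_56f651_co.SG

theorem T_zero : T 0 = 2 := by
  rfl

theorem T_succ (j : ℕ) : T (j + 1) = T j ^ 2 := by
  rw [T, T, ← pow_mul, pow_succ 2 j]

theorem T_add (j i : ℕ) : T (j + i) = T j ^ 2 ^ i := by
  rw [T, T, ← pow_mul, pow_add 2 j]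

theorem T_strictMono : StrictMono T := by
  intro i j h
  exact Nat.pow_lt_pow_right one_lt_two (Nat.pow_lt_pow_right one_lt_two h)

theorem T_mono : Monotone T := T_strictMono.monotone

theorem two_le_T (j : ℕ) : 2 ≤ T j := by
  exact T_mono (Nat.zero_le j)

theorem sixteen_le_T {j : ℕ} (h : 2 ≤ j) : 16 ≤ T j := by
  exact T_mono h

theorem log_T (j : ℕ) : Real.log (T j) = 2 ^ j * Real.log 2 := by
  rw [T]
  push_cast
  rw [Real.log_pow]
  push_cast
  rfl

theorem mem_PB {i j p : ℕ} : p ∈ PB i j ↔ p.Prime ∧ T i ≤ p ∧ p < T j := by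
  rw [PB, mem_filter, mem_Ico, and_comm]

theorem blk_spec {p : ℕ} (hp : 2 ≤ p) : T (blk p) ≤ p ∧ p < T (blk p + 1) := by
  have h1 : Nat.log 2 p ≠ 0 := (Nat.log_pos one_lt_two hp).ne'
  refine ⟨(Nat.pow_le_pow_right two_pos (Nat.pow_log_le_self 2 h1)).trans
    (Nat.pow_log_le_self 2 (by omega)), (Nat.lt_pow_succ_log_self one_lt_two p).trans_le ?_⟩
  exact Nat.pow_le_pow_right two_pos (Nat.lt_pow_succ_log_self one_lt_two _)

theorem blk_lt {p j : ℕ} (hp : 2 ≤ p) (h : p < T j) : blk p < j := by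
  exact T_strictMono.lt_iff_lt.1 ((blk_spec hp).1.trans_lt h)

theorem blk_mono {p q : ℕ} (h : p ≤ q) : blk p ≤ blk q := by
  exact Nat.log_mono_right (Nat.log_mono_right h)

theorem blk_eq {p j : ℕ} (h : p ∈ PB j (j + 1)) : blk p = j := by
  obtain ⟨h1, h2, h3⟩ := mem_PB.1 h
  have h4 := blk_lt h1.two_le h3
  have h5 := T_strictMono.lt_iff_lt.1 (h2.trans_lt (blk_spec h1.two_le).2)
  omega

theorem sum_PB_add (f : ℕ → ℝ) {i j k : ℕ} (h1 : i ≤ j) (h2 : j ≤ k) :
    ∑ p ∈ PB i j, f p + ∑ p ∈ PB j k, f p = ∑ p ∈ PB i k, f p := by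
  simp only [PB, sum_filter]
  exact sum_Ico_consecutive _ (T_mono h1) (T_mono h2)

/-- A sum over primes, sorted by blocks. -/
theorem sum_PB_blocks (f : ℕ → ℝ) (j : ℕ) :
    ∑ p ∈ PB 0 j, f p = ∑ i ∈ range j, ∑ p ∈ PB i (i + 1), f p := by
  induction j with
  | zero => simp [PB]
  | succ j ih => rw [sum_range_succ, ← ih, sum_PB_add f (Nat.zero_le j) (Nat.le_succ j)]

/-- For every `c`, the power `c ^ J` is negligible against `T J`. -/
theorem pow_le_T (c ε : ℝ) (hε : 0 < ε) : ∀ᶠ J : ℕ in atTop, c ^ J ≤ ε * T J := by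
  obtain ⟨m, hm⟩ := pow_unbounded_of_one_lt |c| (one_lt_two (α := ℝ))
  obtain ⟨n, hn⟩ := pow_unbounded_of_one_lt ε⁻¹ (one_lt_two (α := ℝ))
  have h1 := (tendsto_pow_const_div_const_pow_of_one_lt 1 (one_lt_two (α := ℝ))).eventually
    (gt_mem_nhds (show (0 : ℝ) < 1 / (m + 1) by positivity))
  filter_upwards [h1, eventually_ge_atTop n] with J hJ hn'
  rw [pow_one, div_lt_div_iff₀ (by positivity) (by positivity), one_mul] at hJ
  have h2 : J * (m + 1) ≤ 2 ^ J := by exact_mod_cast hJ.le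
  have h3 : (2 : ℝ) ^ (m * J) * 2 ^ n ≤ T J := by
    rw [← pow_add, T]
    push_cast
    exact pow_le_pow_right₀ one_le_two (by nlinarith)
  have h4 : c ^ J ≤ 2 ^ (m * J) := by
    rw [pow_mul]
    exact (le_abs_self _).trans (by rw [abs_pow]; gcongr)
  have h5 : 1 ≤ ε * 2 ^ n := by
    rw [← inv_le_iff_one_le_mul₀' hε]
    exact hn.le
  calc c ^ J ≤ 2 ^ (m * J) * (ε * 2 ^ n) := h4.trans (le_mul_of_one_le_right (by positivity) h5)
    _ = ε * (2 ^ (m * J) * 2 ^ n) := by ring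
    _ ≤ ε * T J := by gcongr

/-- Mertens' second theorem in blocks. -/
theorem mert : ∃ C : ℝ, 0 ≤ C ∧ ∀ i j : ℕ, i ≤ j →
    |∑ p ∈ PB i j, (p : ℝ)⁻¹ - ((j : ℝ) - i) * Real.log 2| ≤ C := by
  have hL : 0 < Real.log 2 := Real.log_pos one_lt_two
  have hL1 : Real.log 2 ≤ 1 := by linarith [Real.log_two_lt_d9]
  have key : ∀ j : ℕ, |∑ p ∈ PB 0 j, (p : ℝ)⁻¹ - j * Real.log 2| ≤
      4 + |Real.log (Real.log 2)| := by
    intro j
    have h2 := two_le_T j
    have h3 := MP_0a06fe_nt.RT.sum_inv_primes_ge (n := T j - 1) (by omega)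
    have h4 := MP_0a06fe_nt.sum_inv_primesLE_le h2
    have e1 : (T j - 1).primesLE = PB 0 j := by
      ext p
      rw [Nat.mem_primesLE, mem_PB, T_zero]
      exact ⟨fun h => ⟨h.2, h.2.two_le, by omega⟩, fun h => ⟨by omega, h.1⟩⟩
    have e2 : ((T j - 1 : ℕ) : ℝ) + 1 = T j := by
      rw [Nat.cast_sub (by omega)]
      simp
    rw [e1, e2, log_T, Real.log_mul (by positivity) hL.ne', Real.log_pow] at h3
    have h5 : ∑ p ∈ PB 0 j, (p : ℝ)⁻¹ ≤ ∑ p ∈ (T j).primesLE, (p : ℝ)⁻¹ :=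
      sum_le_sum_of_subset_of_nonneg (fun p hp =>
        Nat.mem_primesLE.2 ⟨(mem_PB.1 hp).2.2.le, (mem_PB.1 hp).1⟩) fun _ _ _ => by positivity
    have h6 : Real.log (1 + Real.log (T j)) ≤ (j + 1) * Real.log 2 := by
      have h7 : (1 : ℝ) ≤ 2 ^ j := one_le_pow₀ one_le_two
      have h8 : Real.log (2 ^ (j + 1)) = (j + 1) * Real.log 2 := by
        rw [Real.log_pow]
        push_cast
        rfl
      rw [← h8, log_T]
      refine Real.log_le_log (by positivity) ?_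
      rw [pow_succ]
      nlinarith
    have h9 := neg_abs_le (Real.log (Real.log 2))
    have h10 := abs_nonneg (Real.log (Real.log 2))
    rw [abs_le]
    constructor <;> linarith
  refine ⟨2 * (4 + |Real.log (Real.log 2)|), by positivity, fun i j hij => ?_⟩
  have h1 := sum_PB_add (fun p => (p : ℝ)⁻¹) (Nat.zero_le i) hij
  have h2 := abs_le.1 (key i)
  have h3 := abs_le.1 (key j)
  rw [abs_le]
  constructor <;> linarith [h2.1, h2.2, h3.1, h3.2]

/-- Weighted sums over primes are bounded by sums over blocks. -/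
theorem sum_blk_le : ∃ C : ℝ, 0 ≤ C ∧ ∀ (j : ℕ) (F : ℕ → ℝ), (∀ i, 0 ≤ F i) →
    ∑ p ∈ PB 0 j, F (blk p) / p ≤ C * ∑ i ∈ range j, F i := by
  obtain ⟨C, hC, h⟩ := mert
  have hL : 0 < Real.log 2 := Real.log_pos one_lt_two
  refine ⟨Real.log 2 + C, by positivity, fun j F hF => ?_⟩
  rw [sum_PB_blocks, mul_sum]
  refine sum_le_sum fun i _ => ?_
  have h1 := (abs_le.1 (h i (i + 1) (Nat.le_succ i))).2
  push_cast at h1
  rw [sum_congr rfl fun p hp => (by rw [blk_eq hp, div_eq_mul_inv] :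
    F (blk p) / p = F i * (p : ℝ)⁻¹), ← mul_sum, mul_comm]
  exact mul_le_mul_of_nonneg_right (by linarith) (hF i)

theorem exp_sum_dvd_le {s : ℕ} (hs : 1 ≤ s) (S : Finset ℕ)
    (hS : ∀ l ∈ S, l.Prime ∧ 5 ≤ l ∧ l ∣ s) : Real.exp (∑ l ∈ S, (l : ℝ)⁻¹) ≤ √(s : ℝ) := by
  have hs0 : (0 : ℝ) < s := by exact_mod_cast hs
  have h1 : ∑ l ∈ S, Real.log l ≤ Real.log s := by
    rw [← Real.log_prod (fun l hl => by
      have := (hS l hl).1.pos
      positivity), ← Nat.cast_prod]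
    have hd : ∏ l ∈ S, l ∣ s :=
      prod_primes_dvd s (fun l hl => (hS l hl).1.prime) fun l hl => (hS l hl).2.2
    refine Real.log_le_log ?_ ?_
    · exact_mod_cast Nat.pos_of_dvd_of_pos hd hs
    · exact_mod_cast Nat.le_of_dvd hs hd
  have h2 : ∑ l ∈ S, (l : ℝ)⁻¹ ≤ ∑ l ∈ S, Real.log l * (1 / 2) := by
    refine sum_le_sum fun l hl => ?_
    have h3 : (5 : ℝ) ≤ l := by exact_mod_cast (hS l hl).2.1
    have h4 : 1 ≤ Real.log l := by
      rw [Real.le_log_iff_exp_le (by linarith)]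
      linarith [Real.exp_one_lt_three]
    have h5 : (l : ℝ)⁻¹ ≤ 5⁻¹ := inv_anti₀ (by norm_num) h3
    linarith
  rw [← sum_mul] at h2
  rw [Real.sqrt_eq_rpow, Real.rpow_def_of_pos hs0]
  exact Real.exp_le_exp.2 (by linarith)

/-- A lower bound for primes in a reduced residue class (constant one half instead of log 2). -/
theorem class_low (q a : ℕ) (hq : 0 < q) (h : Nat.Coprime a q) : ∃ C : ℝ, ∀ j : ℕ,
    (j : ℝ) / (2 * q.totient) - C ≤
      ∑ p ∈ (PB 0 j).filter (fun p => p ≡ a [MOD q]), (p : ℝ)⁻¹ := by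
  have : NeZero q := ⟨hq.ne'⟩
  obtain ⟨C, hC⟩ := MP_a3366f_nt.Ker.KPrimes.mertens_reduced a h
  have hC0 : 0 ≤ C := (abs_nonneg _).trans (hC 2 le_rfl)
  have hL : 0 < Real.log 2 := Real.log_pos one_lt_two
  have hφ : (1 : ℝ) ≤ q.totient := by exact_mod_cast Nat.totient_pos.2 hq
  have blk1 : ∀ i : ℕ, 1 / (2 * q.totient) - C / Real.log 2 * (1 / 2) ^ i ≤
      ∑ p ∈ PB i (i + 1), if p ≡ a [MOD q] then (p : ℝ)⁻¹ else 0 := by
    intro i
    have h1 := (abs_le.1 (hC _ (two_le_T i))).2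
    have h2 := (abs_le.1 (hC _ (two_le_T (i + 1)))).1
    simp only [sum_filter] at h1 h2
    rw [← sum_Ioc_consecutive _ (Nat.zero_le (T i)) (T_mono (Nat.le_succ i)), mul_add] at h2
    rw [log_T] at h1 h2
    set S := ∑ p ∈ PB i (i + 1), if p ≡ a [MOD q] then (p : ℝ)⁻¹ else 0 with hS
    have h3 : (∑ p ∈ Ioc (T i) (T (i + 1)),
        if p.Prime ∧ p ≡ a [MOD q] then Real.log p / p else 0) ≤
          2 ^ (i + 1) * Real.log 2 * S := by
      rw [hS, ← sum_filter, ← sum_filter, mul_sum]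
      refine (sum_le_sum_of_subset_of_nonneg (t := (PB i (i + 1)).filter fun p => p ≡ a [MOD q])
        (fun p hp => ?_) fun p _ _ => div_nonneg (Real.log_natCast_nonneg p) (by positivity)).trans
        (sum_le_sum fun p hp => ?_)
      · obtain ⟨h4, h5, h6⟩ := mem_filter.1 hp
        obtain ⟨h7, h8⟩ := mem_Ioc.1 h4
        refine mem_filter.2 ⟨mem_PB.2 ⟨h5, h7.le, lt_of_le_of_ne h8 ?_⟩, h6⟩
        rintro rfl
        rw [T_succ] at h5
        exact Nat.Prime.not_prime_pow le_rfl h5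
      · obtain ⟨h4, h5, h6⟩ := mem_PB.1 (mem_filter.1 hp).1
        have h7 : (0 : ℝ) < p := by exact_mod_cast h4.pos
        rw [div_eq_mul_inv, ← log_T]
        gcongr
    have h4 : 2 ^ i * Real.log 2 - 2 * C ≤ q.totient * (2 ^ (i + 1) * Real.log 2 * S) := by
      have := mul_le_mul_of_nonneg_left h3 (zero_le_one.trans hφ)
      rw [pow_succ] at h2
      linarith
    have h5 : (0 : ℝ) < q.totient * (2 ^ (i + 1) * Real.log 2) := by positivity
    refine le_of_mul_le_mul_left ?_ h5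
    have e : q.totient * (2 ^ (i + 1) * Real.log 2) *
        (1 / (2 * q.totient) - C / Real.log 2 * (1 / 2) ^ i) =
          2 ^ i * Real.log 2 - q.totient * (2 * C) := by
      rw [one_div_pow]
      field_simp
      ring
    rw [e]
    nlinarith
  refine ⟨C / Real.log 2 * 2, fun j => ?_⟩
  rw [sum_filter, sum_PB_blocks]
  refine le_trans ?_ (sum_le_sum fun i _ => blk1 i)
  rw [sum_sub_distrib, ← mul_sum, sum_const, card_range, nsmul_eq_mul, mul_one_div]
  have h1 := sum_geometric_two_le j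
  gcongr

end Pool.Agent.Lib.MP_56f651_co.SG
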