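import Pool.Agent.Lib.MP_56f651_co.SG.AP
import Pool.Agent.Lib.MP_56f651_co.SG.Chars

/-! Two small primes: the count for one pair. -/

open Finset Filter Topology

namespace Pool.Agent.Lib.MP_56f651_co.SG

theorem r1b_cover {A B D E : Finset ℕ} (h : A ⊆ B ∪ D ∪ E) (hE : E.card ≤ 4)
    (h2 : ∀ e ∈ E, 2 ≤ e) :
    ∑ p ∈ A, (p : ℝ)⁻¹ ≤ ∑ p ∈ B, (p : ℝ)⁻¹ + ∑ p ∈ D, (p : ℝ)⁻¹ + 2 := by
  have u : ∀ B D : Finset ℕ, ∑ p ∈ B ∪ D, (p : ℝ)⁻¹ ≤ ∑ p ∈ B, (p : ℝ)⁻¹ + ∑ p ∈ D, (p : ℝ)⁻¹ :=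
    fun B D => by
      rw [← sum_union_inter]
      exact le_add_of_nonneg_right (sum_nonneg fun _ _ => by positivity)
  have e : ∑ p ∈ E, (p : ℝ)⁻¹ ≤ E.card • (2 : ℝ)⁻¹ := sum_le_card_nsmul _ _ _ fun p hp =>
    inv_anti₀ two_pos (by exact_mod_cast h2 p hp)
  have e' : (E.card : ℝ) ≤ 4 := by exact_mod_cast hE
  rw [nsmul_eq_mul] at e
  linarith [sum_le_sum_of_subset_of_nonneg h fun p _ _ => (by positivity : (0 : ℝ) ≤ (p : ℝ)⁻¹),
    u (B ∪ D) E, u B D]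

theorem pair : ∃ C : ℝ, 0 ≤ C ∧ ∀ J s Y r q : ℕ, 1 ≤ s → r.Prime → q.Prime →
    r < T J → q < T J → ∀ S : Finset ℕ, S ⊆ Bad s Y →
    (∀ m ∈ S, r ∣ vv s m ∧ q ∣ m ∧
      (∀ l : ℕ, l.Prime → l ∣ vv s m → l = r ∨ T J ≤ l) ∧ ∀ l : ℕ, l.Prime → l ∣ m → q ≤ l) →
    (S.card : ℝ) ≤ C * √(s : ℝ) * Real.exp (Real.log 2 * (-(blk q : ℝ) +
        (max (blk r) (blk q) : ℕ) / 2 - 3 * J / 2)) * (Y / (r * q)) +
        (2 + 2 * (T (J + 5) : ℝ) ^ 28) := by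
  classical
  obtain ⟨C₁, -, h₁⟩ := mert
  obtain ⟨C₂, -, h₂⟩ := low_one
  refine ⟨2 * Real.exp (2 * C₁ + C₂ + 4), by positivity, ?_⟩
  intro J s Y r q hs hr hq hrJ hqJ S hS h
  rcases S.eq_empty_or_nonempty with rfl | ⟨c, hc⟩
  · rw [card_empty, Nat.cast_zero]
    positivity
  have bad : ∀ m ∈ S, (1 ≤ m ∧ m ≤ Y) ∧ Good s m := fun m hm =>
    ⟨mem_Icc.1 (mem_filter.1 (hS hm)).1, (mem_filter.1 (hS hm)).2.2⟩
  obtain ⟨r2, -, rc⟩ := vv_not_dvd hs (bad c hc).1.1 hr (h c hc).1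
  have rq : r ≠ q := fun e => rc (e ▸ (h c hc).2.1)
  have dv : ∀ l : ℕ, l.Prime → l ≠ r → l ≠ q → ¬ l ∣ r * q := fun l hl a b d =>
    (hl.dvd_mul.1 d).elim (fun d => a ((Nat.prime_dvd_prime_iff_eq hl hr).1 d))
      fun d => b ((Nat.prime_dvd_prime_iff_eq hl hq).1 d)
  have i1 := blk_lt hr.two_le hrJ
  have k1 := blk_lt hq.two_le hqJ
  have i2 := (blk_spec hr.two_le).2
  obtain ⟨k2, k3⟩ := blk_spec hq.two_le
  have i3 := le_max_left (blk r) (blk q)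
  have k4 := le_max_right (blk r) (blk q)
  have u1 : max (blk r) (blk q) < J := max_lt i1 k1
  generalize max (blk r) (blk q) = u at *
  generalize blk r = i at *
  generalize blk q = k at *
  have ru : r < T (u + 5) := i2.trans_le (T_mono (by omega))
  have qu : q < T (u + 5) := k3.trans_le (T_mono (by omega))
  have u2 : 16 ≤ T (u + 5) := sixteen_le_T (by omega)
  have J5 : T J ≤ T (J + 5) := T_mono (by omega)
  have five : ∀ l : ℕ, l.Prime → l ≠ 2 → l ≠ 3 → 5 ≤ l := fun l hl a b =>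
    hl.five_le_of_ne_two_of_ne_three a b
  have key := ap_sieve (W := T (J + 5)) (c := c) (Y := Y) (sixteen_le_T (by omega)) hs
    (Nat.mul_pos hr.pos hq.pos)
    ((PB 0 J).filter fun l => 5 ≤ l ∧ l ≠ r ∧ l ≠ q ∧ ¬ l ∣ s)
    ((PB 0 k).filter (fun l => 5 ≤ l ∧ l ≠ r) ∪
      (PB (u + 5) (J + 5)).filter fun l : ℕ => jacobiSym l r = -1) S ?_ ?_ ?_
  rotate_left
  · intro l hl
    obtain ⟨a, b⟩ := mem_filter.1 hl
    obtain ⟨a, -, a'⟩ := mem_PB.1 a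
    exact ⟨a, b.1, by omega, dv l a b.2.1 b.2.2.1, b.2.2.2⟩
  · intro l hl
    rcases mem_union.1 hl with hl | hl <;> obtain ⟨a, b⟩ := mem_filter.1 hl <;>
      obtain ⟨a, a', a''⟩ := mem_PB.1 a
    · exact ⟨a, b.1, by omega, dv l a b.2 (by omega)⟩
    · exact ⟨a, by omega, a''.le, dv l a (by omega) (by omega)⟩
  · intro m hm
    obtain ⟨⟨m1, m2⟩, g⟩ := bad m hm
    obtain ⟨a1, a2, a3, a4⟩ := h m hm
    refine ⟨m1, m2, (Nat.modEq_and_modEq_iff_modEq_mul ((Nat.coprime_primes hr hq).2 rq)).1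
      ⟨vv_modEq hs m1 (bad c hc).1.1 hr a1 (h c hc).1, ((Nat.modEq_zero_iff_dvd.2 a2).trans
        (Nat.modEq_zero_iff_dvd.2 (h c hc).2.1).symm)⟩, fun l hl d => ?_, fun l hl d => ?_⟩
    · obtain ⟨a, b⟩ := mem_filter.1 hl
      obtain ⟨a, -, a'⟩ := mem_PB.1 a
      have := a3 l a d
      omega
    · rcases mem_union.1 hl with hl | hl <;> obtain ⟨a, b⟩ := mem_filter.1 hl <;>
        obtain ⟨a, a', a''⟩ := mem_PB.1 a
      · have := a4 l a d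
        omega
      · have := (g r hr a1).1 l a d
        omega
  have s1 := r1b_cover (A := PB 0 J) (E := {2, 3, r, q})
    (B := (PB 0 J).filter fun l => 5 ≤ l ∧ l ≠ r ∧ l ≠ q ∧ ¬ l ∣ s)
    (D := (PB 0 J).filter fun l => 5 ≤ l ∧ l ∣ s) (fun l hl => by
      have := five l (mem_PB.1 hl).1
      simp only [mem_union, mem_filter, hl, true_and, mem_insert, mem_singleton]
      tauto) card_le_four (by simp [hr.two_le, hq.two_le])
  have s2 := r1b_cover (A := PB 0 k) (E := {2, 3, r, q})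
    (B := (PB 0 k).filter fun l => 5 ≤ l ∧ l ≠ r) (D := ∅) (fun l hl => by
      have := five l (mem_PB.1 hl).1
      simp only [mem_union, mem_filter, hl, true_and, mem_insert, mem_singleton]
      tauto) card_le_four (by simp [hr.two_le, hq.two_le])
  have s3 := h₂ _ _ (rc_left hr r2) (u + 5) (J + 5) (by
    refine (Nat.pow_le_pow_left i2.le 4).trans ?_
    rw [show 4 = 2 ^ 2 from rfl, ← T_add]
    exact T_mono (by omega)) (by omega)
  have s4 := exp_sum_dvd_le hs ((PB 0 J).filter fun l => 5 ≤ l ∧ l ∣ s) fun l hl =>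
    ⟨(mem_PB.1 (mem_filter.1 hl).1).1, (mem_filter.1 hl).2⟩
  have s5 := (abs_le.1 (h₁ 0 J J.zero_le)).1
  have s6 := (abs_le.1 (h₁ 0 k k.zero_le)).1
  rw [sum_union (disjoint_left.2 fun l a b => by
    have := (mem_PB.1 (mem_filter.1 a).1).2.2
    have := (mem_PB.1 (mem_filter.1 b).1).2.1
    omega)] at key
  refine key.trans (add_le_add_left (mul_le_mul_of_nonneg_right ?_ (by positivity)) _ |>.trans_eq
    (by rw [Nat.cast_mul]))
  rw [mul_assoc, mul_assoc]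
  refine mul_le_mul_of_nonneg_left (le_trans ?_ (mul_le_mul_of_nonneg_left
    (mul_le_mul_of_nonneg_right s4 (Real.exp_pos _).le) (Real.exp_pos _).le)) zero_le_two
  rw [← Real.exp_add, ← Real.exp_add, Real.exp_le_exp]
  rw [sum_empty] at s2
  push_cast at s3 s5 s6
  linarith

end Pool.Agent.Lib.MP_56f651_co.SG
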