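import Pool.Agent.Lib.MP_56f651_co.SG.R1a
import Pool.Agent.Lib.MP_56f651_co.SG.R1b
import Pool.Agent.Lib.MP_56f651_co.SG.Blocks

/-! The case where both the order and `m` have a small prime factor. -/

open Finset Filter Topology

namespace Pool.Agent.Lib.MP_56f651_co.SG

lemma r1_two {C : ℝ} (hC : 0 ≤ C) (H : ∀ (j : ℕ) (F : ℕ → ℝ), (∀ i, 0 ≤ F i) →
    ∑ p ∈ PB 0 j, F (blk p) / p ≤ C * ∑ i ∈ range j, F i) (a b : ℕ) (G : ℕ → ℕ → ℝ)
    (hG : ∀ i j, 0 ≤ G i j) : ∑ p ∈ PB 0 a, ∑ q ∈ PB 0 b, G (blk p) (blk q) / (p * q) ≤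
      C ^ 2 * ∑ i ∈ range a, ∑ j ∈ range b, G i j := by
  have h1 := H a (fun i => C * ∑ j ∈ range b, G i j) fun i =>
    mul_nonneg hC (sum_nonneg fun j _ => hG i j)
  rw [← mul_sum, ← mul_assoc, ← sq] at h1
  refine le_trans (sum_le_sum fun p _ => ?_) h1
  refine le_trans (le_of_eq ?_) (div_le_div_of_nonneg_right (H b _ (hG (blk p))) (Nat.cast_nonneg p))
  rw [sum_div]
  exact sum_congr rfl fun q _ => by rw [div_div, mul_comm]

lemma r1_three {C : ℝ} (hC : 0 ≤ C) (H : ∀ (j : ℕ) (F : ℕ → ℝ), (∀ i, 0 ≤ F i) →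
    ∑ p ∈ PB 0 j, F (blk p) / p ≤ C * ∑ i ∈ range j, F i) (a b c : ℕ) (G : ℕ → ℕ → ℕ → ℝ)
    (hG : ∀ i j k, 0 ≤ G i j k) :
    ∑ p ∈ PB 0 a, ∑ q ∈ PB 0 b, ∑ r ∈ PB 0 c, G (blk p) (blk q) (blk r) / (p * q * r) ≤
      C ^ 3 * ∑ i ∈ range a, ∑ j ∈ range b, ∑ k ∈ range c, G i j k := by
  have h1 := H a (fun i => C ^ 2 * ∑ j ∈ range b, ∑ k ∈ range c, G i j k) fun i =>
    mul_nonneg (sq_nonneg C) (sum_nonneg fun j _ => sum_nonneg fun k _ => hG i j k)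
  rw [← mul_sum, ← mul_assoc, ← pow_succ'] at h1
  refine le_trans (sum_le_sum fun p _ => ?_) h1
  refine le_trans (le_of_eq ?_)
    (div_le_div_of_nonneg_right (r1_two hC H b c _ (hG (blk p))) (Nat.cast_nonneg p))
  rw [sum_div]
  refine sum_congr rfl fun q _ => ?_
  rw [sum_div]
  exact sum_congr rfl fun r _ => by rw [div_div, mul_assoc, mul_comm (p : ℝ)]

lemma r1_card {j J : ℕ} (h : j ≤ J) : ((PB 0 j).card : ℝ) ≤ T J := by
  have h1 : (PB 0 j).card ≤ T J := by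
    refine (card_filter_le _ _).trans ?_
    rw [Nat.card_Ico]
    exact (Nat.sub_le _ _).trans (T_mono h)
  exact_mod_cast h1

lemma r1_err {J X : ℕ} (h : T (J + 11) ≤ X) :
    (T J : ℝ) * (T J * (T J * (2 + 2 * (T (J + 5) : ℝ) ^ 28))) ≤ X / T (J + 9) := by
  have h1 : (T (J + 11) : ℝ) ≤ X := by exact_mod_cast h
  have h2 : (2 : ℝ) ≤ T J := by exact_mod_cast two_le_T J
  rw [T_add] at h1
  rw [T_add, T_add]
  push_cast at h1 ⊢
  obtain ⟨t, ht⟩ : ∃ t : ℝ, t = T J := ⟨_, rfl⟩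
  rw [← ht] at h1 h2 ⊢
  have h3 : 1 ≤ t := by linarith
  have h4 : 2 + 2 * (t ^ 32) ^ 28 ≤ t * t * (t ^ 32) ^ 28 := by
    have h5 : 1 ≤ (t ^ 32) ^ 28 := one_le_pow₀ (one_le_pow₀ h3)
    have h6 : 4 ≤ t * t := by nlinarith
    nlinarith
  rw [le_div_iff₀ (by positivity)]
  calc _ ≤ t * (t * (t * (t * t * (t ^ 32) ^ 28))) * t ^ 512 := by gcongr
    _ = t ^ 1413 := by ring
    _ ≤ t ^ 2048 := pow_le_pow_right₀ h3 (by norm_num)
    _ ≤ X := h1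

theorem R1 : ∃ C : ℝ, 0 ≤ C ∧ ∀ J h X s Y : ℕ, Par J X s Y → h ≤ J →
    ∀ S : Finset ℕ, S ⊆ Bad s Y →
    (∀ m ∈ S, (vv s m).minFac < T (J - h) ∧ 2 ≤ m ∧ m.minFac < T (J - h)) →
    (S.card : ℝ) ≤ C * Real.exp (-(Real.log 2 * (h / 4))) * √(s : ℝ) * (Y / 2 ^ J) +
      2 * (X / T (J + 9)) := by
  classical
  obtain ⟨C0, hC0, H0⟩ := sum_blk_le
  obtain ⟨C1, hC1, H1⟩ := triple
  obtain ⟨C2, hC2, H2⟩ := pair
  obtain ⟨C3, hC3, H3⟩ := blockA
  obtain ⟨C4, hC4, H4⟩ := blockB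
  refine ⟨C1 * C0 ^ 3 * C3 + C2 * C0 ^ 2 * C4, by positivity, fun J h X s Y hP hh S hS hm => ?_⟩
  have hs := hP.spos
  have hT : T (J - h) ≤ T J := T_mono (Nat.sub_le _ _)
  obtain ⟨E, hE⟩ : ∃ E : ℝ, E = 2 + 2 * (T (J + 5) : ℝ) ^ 28 := ⟨_, rfl⟩
  have hE0 : 0 ≤ E := hE ▸ by positivity
  have hT1 : (1 : ℝ) ≤ T J := by exact_mod_cast (one_le_two.trans (two_le_T J))
  have herr := r1_err hP.lo
  rw [← hE] at herr
  have hcov : S ⊆ ((PB 0 (J - h)).biUnion fun r => (PB 0 J).biUnion fun r' =>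
      (PB 0 (J - h)).biUnion fun q => S.filter fun m => r < r' ∧ r ∣ vv s m ∧ r' ∣ vv s m ∧ q ∣ m ∧
        (∀ l : ℕ, l.Prime → l ∣ vv s m → l = r ∨ r' ≤ l) ∧ ∀ l : ℕ, l.Prime → l ∣ m → q ≤ l) ∪
      (PB 0 (J - h)).biUnion fun r => (PB 0 (J - h)).biUnion fun q => S.filter fun m =>
        r ∣ vv s m ∧ q ∣ m ∧ (∀ l : ℕ, l.Prime → l ∣ vv s m → l = r ∨ T J ≤ l) ∧
          ∀ l : ℕ, l.Prime → l ∣ m → q ≤ l := by
    intro m hmS
    obtain ⟨a1, a2, a3⟩ := hm m hmS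
    have a4 := three_le_vv hs (by omega : 1 ≤ m)
    have p1 := Nat.minFac_prime (by omega : vv s m ≠ 1)
    have p2 := Nat.minFac_prime (by omega : m ≠ 1)
    have m1 : (vv s m).minFac ∈ PB 0 (J - h) := mem_PB.2 ⟨p1, T_zero ▸ p1.two_le, a1⟩
    have m2 : m.minFac ∈ PB 0 (J - h) := mem_PB.2 ⟨p2, T_zero ▸ p2.two_le, a3⟩
    have hq : ∀ l : ℕ, l.Prime → l ∣ m → m.minFac ≤ l := fun l hl => Nat.minFac_le_of_dvd hl.two_le
    simp only [mem_union, mem_biUnion, mem_filter]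
    by_cases hc : ∃ l : ℕ, l.Prime ∧ l ∣ vv s m ∧ l ≠ (vv s m).minFac ∧ l < T J
    · obtain ⟨b1, b2, b3, b4⟩ := Nat.find_spec hc
      refine Or.inl ⟨_, m1, Nat.find hc, mem_PB.2 ⟨b1, T_zero ▸ b1.two_le, b4⟩, _, m2, hmS,
        lt_of_le_of_ne (Nat.minFac_le_of_dvd b1.two_le b2) b3.symm, Nat.minFac_dvd _, b2,
        Nat.minFac_dvd _, fun l l1 l2 => ?_, hq⟩
      by_contra hn
      push Not at hn
      exact Nat.find_min hc hn.2 ⟨l1, l2, hn.1, hn.2.trans b4⟩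
    · refine Or.inr ⟨_, m1, _, m2, hmS, Nat.minFac_dvd _, Nat.minFac_dvd _, fun l l1 l2 => ?_, hq⟩
      by_contra hn
      push Not at hn
      exact hc ⟨l, l1, l2, hn.1, hn.2⟩
  have hex : Real.exp (-(Real.log 2 * (J + h / 4))) = Real.exp (-(Real.log 2 * (h / 4))) / 2 ^ J := by
    rw [mul_add, neg_add, Real.exp_add, Real.exp_neg (Real.log 2 * J), mul_comm (Real.log 2) J,
      Real.exp_nat_mul, Real.exp_log two_pos, mul_comm, ← div_eq_mul_inv]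
  have hA := (r1_three hC0 H0 (J - h) J (J - h) (fun i j k => if i ≤ j then
    Real.exp (Real.log 2 * (-(j : ℝ) - k + (max i k : ℕ) / 2 + 3 * (max j k : ℕ) / 4 - 5 * J / 4))
      else 0) fun i j k => by positivity).trans
    (mul_le_mul_of_nonneg_left (H3 J h hh) (by positivity))
  have hB := (r1_two hC0 H0 (J - h) (J - h) (fun i k =>
    Real.exp (Real.log 2 * (-(k : ℝ) + (max i k : ℕ) / 2 - 3 * J / 2)))
      fun i k => by positivity).trans (mul_le_mul_of_nonneg_left (H4 J h hh) (by positivity))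
  rw [hex] at hA hB
  have hA' := mul_le_mul_of_nonneg_left hA (by positivity : 0 ≤ C1 * √(s : ℝ) * Y)
  have hB' := mul_le_mul_of_nonneg_left hB (by positivity : 0 ≤ C2 * √(s : ℝ) * Y)
  have c1 := r1_card (Nat.sub_le J h)
  have c2 := r1_card (le_refl J)
  have hadd : ∀ (P : Finset ℕ) (f : ℕ → Finset ℕ) (g : ℕ → ℝ) (e : ℝ), 0 ≤ e → (P.card : ℝ) ≤ T J →
      (∀ p ∈ P, ((f p).card : ℝ) ≤ g p + e) →
      ((P.biUnion f).card : ℝ) ≤ ∑ p ∈ P, g p + T J * e := by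
    intro P f g e he hP hf
    refine (Nat.cast_le.2 card_biUnion_le).trans ?_
    rw [Nat.cast_sum]
    refine (sum_le_sum hf).trans ?_
    rw [sum_add_distrib, sum_const, nsmul_eq_mul]
    exact add_le_add_right (mul_le_mul_of_nonneg_right hP he) _
  have h0 := (Nat.cast_le (α := ℝ)).2 ((card_le_card hcov).trans (card_union_le _ _))
  rw [Nat.cast_add] at h0
  simp only [mul_sum] at hA' hB'
  refine h0.trans (le_trans (add_le_add
    ((hadd _ _ _ (T J * (T J * E)) (by positivity) c1 fun r hr =>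
      hadd _ _ _ (T J * E) (by positivity) c2 fun r' hr' =>
        hadd _ _ _ E hE0 c1 fun q hq => ?_).trans (add_le_add hA' herr))
    ((hadd _ _ _ (T J * E) (by positivity) c1 fun r hr =>
      hadd _ _ _ E hE0 c1 fun q hq => ?_).trans (add_le_add hB'
        ((le_mul_of_one_le_left (by positivity) hT1).trans herr)))) (le_of_eq (by ring)))
  · by_cases hrr : r < r'
    · rw [if_pos (blk_mono hrr.le), hE]
      refine (H1 J s Y r r' q hs (mem_PB.1 hr).1 (mem_PB.1 hr').1 (mem_PB.1 hq).1 hrr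
        (mem_PB.1 hr').2.2 ((mem_PB.1 hq).2.2.trans_le hT) _ ((filter_subset _ _).trans hS)
        fun m hm => (mem_filter.1 hm).2.2).trans (le_of_eq ?_)
      ring
    · rw [filter_false_of_mem fun m _ h => hrr h.1, card_empty, Nat.cast_zero]
      positivity
  · rw [hE]
    refine (H2 J s Y r q hs (mem_PB.1 hr).1 (mem_PB.1 hq).1 ((mem_PB.1 hr).2.2.trans_le hT)
      ((mem_PB.1 hq).2.2.trans_le hT) _ ((filter_subset _ _).trans hS)
      fun m hm => (mem_filter.1 hm).2).trans (le_of_eq ?_)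
    ring

end Pool.Agent.Lib.MP_56f651_co.SG
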