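import Pool.Agent.Lib.MP_56f651_co.SG.AP
import Pool.Agent.Lib.MP_56f651_co.SG.Chars
import Pool.Agent.Lib.MP_56f651_co.SG.R1b

/-! Three small primes: the count for one triple. -/

open Finset Filter Topology

namespace Pool.Agent.Lib.MP_56f651_co.SG

theorem triple : ∃ C : ℝ, 0 ≤ C ∧ ∀ J s Y r r' q : ℕ, 1 ≤ s → r.Prime → r'.Prime → q.Prime →
    r < r' → r' < T J → q < T J → ∀ S : Finset ℕ, S ⊆ Bad s Y →
    (∀ m ∈ S, r ∣ vv s m ∧ r' ∣ vv s m ∧ q ∣ m ∧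
      (∀ l : ℕ, l.Prime → l ∣ vv s m → l = r ∨ r' ≤ l) ∧ ∀ l : ℕ, l.Prime → l ∣ m → q ≤ l) →
    (S.card : ℝ) ≤ C * √(s : ℝ) * Real.exp (Real.log 2 * (-(blk r' : ℝ) - blk q +
        (max (blk r) (blk q) : ℕ) / 2 + 3 * (max (blk r') (blk q) : ℕ) / 4 - 5 * J / 4)) *
        (Y / (r * r' * q)) + (2 + 2 * (T (J + 5) : ℝ) ^ 28) := by
  classical
  obtain ⟨C₁, -, h₁⟩ := mert
  obtain ⟨C₂, -, h₂⟩ := low_one
  obtain ⟨C₃, -, h₃⟩ := low_two
  refine ⟨2 * Real.exp (2 * C₁ + 2 * C₂ + C₃ + 4), by positivity, ?_⟩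
  intro J s Y r r' q hs hr hr' hq hrr hrJ hqJ S hS h
  rcases S.eq_empty_or_nonempty with rfl | ⟨c, hc⟩
  · rw [card_empty, Nat.cast_zero]
    positivity
  have bad : ∀ m ∈ S, (1 ≤ m ∧ m ≤ Y) ∧ Good s m := fun m hm =>
    ⟨mem_Icc.1 (mem_filter.1 (hS hm)).1, (mem_filter.1 (hS hm)).2.2⟩
  obtain ⟨r2, -, rc⟩ := vv_not_dvd hs (bad c hc).1.1 hr (h c hc).1
  obtain ⟨r2', -, rc'⟩ := vv_not_dvd hs (bad c hc).1.1 hr' (h c hc).2.1
  have rq : r ≠ q := fun e => rc (e ▸ (h c hc).2.2.1)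
  have rq' : r' ≠ q := fun e => rc' (e ▸ (h c hc).2.2.1)
  have dv : ∀ l : ℕ, l.Prime → l ≠ r → l ≠ r' → l ≠ q → ¬ l ∣ r * r' * q := fun l hl a a' b d =>
    (hl.dvd_mul.1 d).elim (fun d => (hl.dvd_mul.1 d).elim
      (fun d => a ((Nat.prime_dvd_prime_iff_eq hl hr).1 d))
      fun d => a' ((Nat.prime_dvd_prime_iff_eq hl hr').1 d))
      fun d => b ((Nat.prime_dvd_prime_iff_eq hl hq).1 d)
  have j1 := blk_lt hr'.two_le hrJ
  have k1 := blk_lt hq.two_le hqJ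
  have i2 := (blk_spec hr.two_le).2
  obtain ⟨j2, j3⟩ := blk_spec hr'.two_le
  obtain ⟨k2, k3⟩ := blk_spec hq.two_le
  have ij := blk_mono hrr.le
  have i3 := le_max_left (blk r) (blk q)
  have k4 := le_max_right (blk r) (blk q)
  have j4 := le_max_left (blk r') (blk q)
  have k5 := le_max_right (blk r') (blk q)
  have ba : max (blk r) (blk q) ≤ max (blk r') (blk q) := max_le_max_right _ ij
  have u1 : max (blk r') (blk q) < J := max_lt j1 k1
  generalize max (blk r') (blk q) = a at *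
  generalize max (blk r) (blk q) = b at *
  generalize blk r = i at *
  generalize blk r' = j at *
  generalize blk q = k at *
  have ra : r' < T (a + 1) := j3.trans_le (T_mono (by omega))
  have qb : q < T (b + 1) := k3.trans_le (T_mono (by omega))
  have rb : r < T (b + 1) := i2.trans_le (T_mono (by omega))
  have m1 : T (b + 1) ≤ T (b + 5) := T_mono (by omega)
  have m2 : T (a + 1) ≤ T (a + 5) := T_mono (by omega)
  have m3 : T (b + 5) ≤ T (a + 5) := T_mono (by omega)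
  have m4 : T (a + 5) ≤ T (J + 5) := T_mono (by omega)
  have m5 : T j ≤ T (a + 5) := T_mono (by omega)
  have m6 : T k ≤ T (b + 5) := T_mono (by omega)
  have m7 : T (b + 1) ≤ T (a + 1) := T_mono (by omega)
  have m8 : 4 ≤ T (a + 1) := by
    rw [T_succ]
    exact Nat.pow_le_pow_left (two_le_T a) 2
  have m9 : (T (a + 1) * T (a + 1)) ^ 4 ≤ T (a + 5) := by
    rw [← sq, ← pow_mul, show 2 * 4 = 2 ^ 3 from rfl, ← T_add]
    exact T_mono (by omega)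
  have five : ∀ l : ℕ, l.Prime → l ≠ 2 → l ≠ 3 → 5 ≤ l := fun l hl a b =>
    hl.five_le_of_ne_two_of_ne_three a b
  obtain ⟨A, hA⟩ : ∃ A : Finset ℕ, A = PB 0 j ∪ (PB (a + 5) (J + 5)).filter
    fun l : ℕ => (if Odd l then jacobiSym q l else 0) = -1 := ⟨_, rfl⟩
  obtain ⟨B, hB⟩ : ∃ B : Finset ℕ, B = PB 0 k ∪ ((PB (b + 5) (a + 5)).filter
    (fun l : ℕ => jacobiSym l r = -1) ∪ (PB (a + 5) (J + 5)).filter
    fun l : ℕ => jacobiSym l r = -1 ∨ jacobiSym l r' = -1) := ⟨_, rfl⟩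
  have mA : ∀ l ∈ A, l.Prime ∧ l < T (J + 5) ∧ (l < T j ∨ T (a + 5) ≤ l ∧ jacobiSym q l ≠ 1) := by
    intro l hl
    rw [hA] at hl
    rcases mem_union.1 hl with hl | hl
    · obtain ⟨x, -, y⟩ := mem_PB.1 hl
      exact ⟨x, by omega, .inl y⟩
    · obtain ⟨hl, z⟩ := mem_filter.1 hl
      obtain ⟨x, w, y⟩ := mem_PB.1 hl
      refine ⟨x, y, .inr ⟨w, fun e => ?_⟩⟩
      rw [e] at z
      split_ifs at z
  have mB : ∀ l ∈ B, l.Prime ∧ l < T (J + 5) ∧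
      (l < T k ∨ T (b + 5) ≤ l ∧ (jacobiSym l r = -1 ∨ jacobiSym l r' = -1)) := by
    intro l hl
    rw [hB] at hl
    rcases mem_union.1 hl with hl | hl
    · obtain ⟨x, -, y⟩ := mem_PB.1 hl
      exact ⟨x, by omega, .inl y⟩
    rcases mem_union.1 hl with hl | hl <;> obtain ⟨hl, z⟩ := mem_filter.1 hl <;>
      obtain ⟨x, w, y⟩ := mem_PB.1 hl
    · exact ⟨x, by omega, .inr ⟨w, .inl z⟩⟩
    · exact ⟨x, y, .inr ⟨by omega, z⟩⟩
  have key := ap_sieve (W := T (J + 5)) (c := c) (Y := Y) (sixteen_le_T (by omega)) hs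
    (Nat.mul_pos (Nat.mul_pos hr.pos hr'.pos) hq.pos)
    (A.filter fun l => 5 ≤ l ∧ l ≠ r ∧ l ≠ q ∧ ¬ l ∣ s)
    (B.filter fun l => 5 ≤ l ∧ l ≠ r ∧ l ≠ r') S ?_ ?_ ?_
  rotate_left
  · intro l hl
    obtain ⟨x, y⟩ := mem_filter.1 hl
    obtain ⟨x, x', x''⟩ := mA l x
    exact ⟨x, y.1, x'.le, dv l x y.2.1 (by omega) y.2.2.1, y.2.2.2⟩
  · intro l hl
    obtain ⟨x, y⟩ := mem_filter.1 hl
    obtain ⟨x, x', x''⟩ := mB l x
    exact ⟨x, y.1, x'.le, dv l x y.2.1 y.2.2 (by omega)⟩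
  · intro m hm
    obtain ⟨⟨n1, n2⟩, g⟩ := bad m hm
    obtain ⟨a1, a1', a2, a3, a4⟩ := h m hm
    refine ⟨n1, n2, (Nat.modEq_and_modEq_iff_modEq_mul (Nat.Coprime.mul_left
      ((Nat.coprime_primes hr hq).2 rq) ((Nat.coprime_primes hr' hq).2 rq'))).1
      ⟨(Nat.modEq_and_modEq_iff_modEq_mul ((Nat.coprime_primes hr hr').2 hrr.ne)).1
        ⟨vv_modEq hs n1 (bad c hc).1.1 hr a1 (h c hc).1,
        vv_modEq hs n1 (bad c hc).1.1 hr' a1' (h c hc).2.1⟩, ((Nat.modEq_zero_iff_dvd.2 a2).trans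
        (Nat.modEq_zero_iff_dvd.2 (h c hc).2.2.1).symm)⟩, fun l hl d => ?_, fun l hl d => ?_⟩
    · obtain ⟨x, y⟩ := mem_filter.1 hl
      obtain ⟨x, x', x''⟩ := mA l x
      have t1 := a3 l x d
      have t2 := (g l x d).1 q hq a2
      omega
    · obtain ⟨x, y⟩ := mem_filter.1 hl
      obtain ⟨x, x', x''⟩ := mB l x
      have t1 := a4 l x d
      have t2 := (g r hr a1).1 l x d
      have t3 := (g r' hr' a1').1 l x d
      omega
  have s1 := r1b_cover (A := A) (E := {2, 3, r, q})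
    (B := A.filter fun l => 5 ≤ l ∧ l ≠ r ∧ l ≠ q ∧ ¬ l ∣ s)
    (D := A.filter fun l => 5 ≤ l ∧ l ∣ s) (fun l hl => by
      have := five l (mA l hl).1
      simp only [mem_union, mem_filter, hl, true_and, mem_insert, mem_singleton]
      tauto) card_le_four (by simp [hr.two_le, hq.two_le])
  have s2 := r1b_cover (A := B) (E := {2, 3, r, r'})
    (B := B.filter fun l => 5 ≤ l ∧ l ≠ r ∧ l ≠ r') (D := ∅) (fun l hl => by
      have := five l (mB l hl).1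
      simp only [mem_union, mem_filter, hl, true_and, mem_insert, mem_singleton]
      tauto) card_le_four (by simp [hr.two_le, hr'.two_le])
  have s3 := h₂ _ _ (rc_left hr r2) (b + 5) (a + 5) (by
    refine (Nat.pow_le_pow_left rb.le 4).trans ?_
    rw [show 4 = 2 ^ 2 from rfl, ← T_add]
    exact T_mono (by omega)) (by omega)
  have s3' := h₂ _ _ (rc_right hq) (a + 5) (J + 5)
    ((Nat.pow_le_pow_left (Nat.mul_le_mul m8 (qb.le.trans m7)) 4).trans m9) (by omega)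
  have s3'' := h₃ r r' hr hr' r2 r2' hrr.ne (a + 5) (J + 5)
    ((Nat.pow_le_pow_left (Nat.mul_le_mul (rb.le.trans m7) ra.le) 4).trans m9) (by omega)
  have s4 := exp_sum_dvd_le hs (A.filter fun l => 5 ≤ l ∧ l ∣ s) fun l hl =>
    ⟨(mA l (mem_filter.1 hl).1).1, (mem_filter.1 hl).2⟩
  have s5 := (abs_le.1 (h₁ 0 j j.zero_le)).1
  have s6 := (abs_le.1 (h₁ 0 k k.zero_le)).1
  have eA : ∑ p ∈ A, (p : ℝ)⁻¹ = ∑ p ∈ PB 0 j, (p : ℝ)⁻¹ + ∑ p ∈ (PB (a + 5) (J + 5)).filter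
      (fun l : ℕ => (if Odd l then jacobiSym q l else 0) = -1), (p : ℝ)⁻¹ := by
    rw [hA, sum_union (disjoint_left.2 fun l x y => by
      have := (mem_PB.1 x).2.2
      have := (mem_PB.1 (mem_filter.1 y).1).2.1
      omega)]
  have eB : ∑ p ∈ B, (p : ℝ)⁻¹ = ∑ p ∈ PB 0 k, (p : ℝ)⁻¹ + (∑ p ∈ (PB (b + 5) (a + 5)).filter
      (fun l : ℕ => jacobiSym l r = -1), (p : ℝ)⁻¹ + ∑ p ∈ (PB (a + 5) (J + 5)).filter
      (fun l : ℕ => jacobiSym l r = -1 ∨ jacobiSym l r' = -1), (p : ℝ)⁻¹) := by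
    rw [hB, sum_union (disjoint_left.2 fun l x y => by
      have := (mem_PB.1 x).2.2
      rcases mem_union.1 y with y | y <;>
        have := (mem_PB.1 (mem_filter.1 y).1).2.1 <;> omega),
      sum_union (disjoint_left.2 fun l x y => by
        have := (mem_PB.1 (mem_filter.1 x).1).2.2
        have := (mem_PB.1 (mem_filter.1 y).1).2.1
        omega)]
  refine key.trans (add_le_add_left (mul_le_mul_of_nonneg_right ?_ (by positivity)) _ |>.trans_eq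
    (by rw [Nat.cast_mul, Nat.cast_mul]))
  rw [mul_assoc, mul_assoc]
  refine mul_le_mul_of_nonneg_left (le_trans ?_ (mul_le_mul_of_nonneg_left
    (mul_le_mul_of_nonneg_right s4 (Real.exp_pos _).le) (Real.exp_pos _).le)) zero_le_two
  rw [← Real.exp_add, ← Real.exp_add, Real.exp_le_exp]
  rw [sum_empty] at s2
  push_cast at s3 s3' s3'' s5 s6
  linarith

end Pool.Agent.Lib.MP_56f651_co.SG
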