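import Pool.Agent.Lib.MP_56f651_co.SG.AP
import Pool.Agent.Lib.MP_56f651_co.SG.Avg

/-! The case where the composite order has no small prime factor. -/

open Finset Filter Topology

namespace Pool.Agent.Lib.MP_56f651_co.SG

theorem r2_small (A : Finset ℕ) (hA : ∀ l ∈ A, l.Prime ∧ l < 5) : ∑ l ∈ A, (l : ℝ)⁻¹ ≤ 1 := by
  have h1 : A ⊆ {2, 3} := by
    intro l hl
    obtain ⟨h2, h3⟩ := hA l hl
    have h4 := h2.two_le
    have h5 : l ≠ 4 := by
      rintro rfl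
      exact absurd h2 (by norm_num)
    simp only [mem_insert, mem_singleton]
    omega
  refine (sum_le_sum_of_subset_of_nonneg h1 fun _ _ _ => by positivity).trans ?_
  rw [sum_pair (by norm_num)]
  norm_num

theorem r2_exp {C : ℝ} {j s : ℕ} (hs : 1 ≤ s)
    (hC : |∑ p ∈ PB 0 j, (p : ℝ)⁻¹ - ((j : ℝ) - (0 : ℕ)) * Real.log 2| ≤ C) :
    Real.exp (-∑ l ∈ (PB 0 j).filter (fun l => 5 ≤ l ∧ ¬ l ∣ s), (l : ℝ)⁻¹) ≤
      Real.exp (C + 1) * √(s : ℝ) / 2 ^ j := by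
  have h1 := sum_filter_add_sum_filter_not (PB 0 j) (fun l => 5 ≤ l ∧ ¬ l ∣ s)
    (fun l => (l : ℝ)⁻¹)
  have h2 := sum_filter_add_sum_filter_not ((PB 0 j).filter fun l => ¬ (5 ≤ l ∧ ¬ l ∣ s))
    (fun l => l < 5) (fun l => (l : ℝ)⁻¹)
  have h3 := r2_small (((PB 0 j).filter fun l => ¬ (5 ≤ l ∧ ¬ l ∣ s)).filter fun l => l < 5)
    fun l hl => by
      simp only [mem_filter, mem_PB] at hl
      exact ⟨hl.1.1.1, hl.2⟩
  have h4 := exp_sum_dvd_le hs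
    (((PB 0 j).filter fun l => ¬ (5 ≤ l ∧ ¬ l ∣ s)).filter fun l => ¬ l < 5) fun l hl => by
      simp only [mem_filter, mem_PB] at hl
      have h5 : 5 ≤ l := not_lt.mp hl.2
      refine ⟨hl.1.1.1, h5, ?_⟩
      by_contra h6
      exact hl.1.2 ⟨h5, h6⟩
  have h5 := (abs_le.mp hC).1
  have h6 : (2 : ℝ) ^ j = Real.exp (j * Real.log 2) := by
    rw [Real.exp_nat_mul, Real.exp_log two_pos]
  rw [le_div_iff₀ (by positivity), h6, ← Real.exp_add]
  refine le_trans ?_ (mul_le_mul_of_nonneg_left h4 (Real.exp_pos _).le)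
  rw [← Real.exp_add]
  apply Real.exp_le_exp.mpr
  simp only [Nat.cast_zero, sub_zero] at h5
  linarith

theorem r2_err {J X : ℕ} (hX : T (J + 11) ≤ X) :
    (Nat.sqrt (4 * X) : ℝ) * (2 + 2 * (T J : ℝ) ^ 28) ≤ X / T (J + 9) := by
  have h1 : (2 : ℝ) ≤ T J := by exact_mod_cast two_le_T J
  have h2 : (2 : ℝ) ≤ T (J + 5) := by exact_mod_cast two_le_T (J + 5)
  have h3 : (T (J + 5) : ℝ) = (T J : ℝ) ^ 32 := by
    rw [T_add]; norm_num
  have h4 : (T (J + 9) : ℝ) = (T (J + 5) : ℝ) ^ 16 := by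
    rw [show J + 9 = J + 5 + 4 from rfl, T_add (J + 5) 4]; norm_num
  have h5 : (T (J + 10) : ℝ) = (T (J + 9) : ℝ) ^ 2 := by
    rw [show J + 10 = J + 9 + 1 from rfl, T_succ]; norm_num
  have h6 : (T (J + 10) : ℝ) ≤ √(X : ℝ) := by
    apply Real.le_sqrt_of_sq_le
    rw [show J + 11 = J + 10 + 1 from rfl, T_succ] at hX
    exact_mod_cast hX
  have h7 : (Nat.sqrt (4 * X) : ℝ) ≤ 2 * √(X : ℝ) := by
    apply le_of_sq_le_sq _ (by positivity)
    rw [mul_pow, Real.sq_sqrt (by positivity)]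
    have := Nat.sqrt_le' (4 * X)
    have h8 : ((Nat.sqrt (4 * X) ^ 2 : ℕ) : ℝ) ≤ ((4 * X : ℕ) : ℝ) := by exact_mod_cast this
    push_cast at h8
    linarith
  have h8 : 2 + 2 * (T J : ℝ) ^ 28 ≤ 4 * T (J + 5) := by
    have h9 : (T J : ℝ) ^ 28 ≤ (T J : ℝ) ^ 32 := pow_le_pow_right₀ (by linarith) (by norm_num)
    have h10 : (1 : ℝ) ≤ (T J : ℝ) ^ 32 := one_le_pow₀ (by linarith)
    rw [h3]; linarith
  have h9 : 8 * (T (J + 5) : ℝ) ≤ T (J + 9) := by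
    have h10 : (2 : ℝ) ^ 15 ≤ (T (J + 5) : ℝ) ^ 15 := pow_le_pow_left₀ (by norm_num) h2 15
    rw [h4, pow_succ]
    exact mul_le_mul_of_nonneg_right (le_trans (by norm_num) h10) (by linarith)
  have h10 : (0 : ℝ) < T (J + 9) := by linarith
  rw [le_div_iff₀ h10]
  have h11 : (X : ℝ) = √(X : ℝ) * √(X : ℝ) := (Real.mul_self_sqrt (by positivity)).symm
  calc (Nat.sqrt (4 * X) : ℝ) * (2 + 2 * (T J : ℝ) ^ 28) * T (J + 9)
      ≤ 2 * √(X : ℝ) * (4 * T (J + 5)) * T (J + 9) := by gcongr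
    _ = √(X : ℝ) * (8 * T (J + 5) * T (J + 9)) := by ring
    _ ≤ √(X : ℝ) * (T (J + 9) * T (J + 9)) := by gcongr
    _ = √(X : ℝ) * T (J + 10) := by rw [h5, pow_two]
    _ ≤ √(X : ℝ) * √(X : ℝ) := by gcongr
    _ = X := h11.symm

theorem r2_fibre {J j y s Y r : ℕ} (hJ : 2 ≤ J) (hj : j ≤ J) (hy : y ≤ j) (hs : 1 ≤ s)
    (hr : r.Prime) (hrj : T j ≤ r) (S : Finset ℕ) (hS : S ⊆ Bad s Y)
    (hSr : ∀ m ∈ S, (vv s m).minFac = r) :
    (S.card : ℝ) ≤
      2 * Real.exp (-∑ l ∈ (PB 0 j).filter (fun l => 5 ≤ l ∧ ¬ l ∣ s), (l : ℝ)⁻¹) * Y *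
        (Real.exp (-sig y r) / r) + (2 + 2 * (T J : ℝ) ^ 28) := by
  classical
  rcases S.eq_empty_or_nonempty with rfl | ⟨c, hc⟩
  · rw [card_empty, Nat.cast_zero]; positivity
  have hmem : ∀ m ∈ S, 1 ≤ m ∧ m ≤ Y ∧ Good s m := by
    intro m hm
    have := hS hm
    simp only [Bad, mem_filter, mem_Icc] at this
    exact ⟨this.1.1, this.1.2, this.2.2⟩
  have hnd : ∀ l : ℕ, l.Prime → l < T j → ¬ l ∣ r := fun l hl h1 h2 => by
    have := (Nat.prime_dvd_prime_iff_eq hl hr).mp h2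
    omega
  have hdv : ∀ m ∈ S, r ∣ vv s m := fun m hm => hSr m hm ▸ Nat.minFac_dvd _
  have h1 := ap_sieve (W := T J) (M := r) (c := c) (Y := Y) (sixteen_le_T hJ) hs hr.one_le
    ((PB 0 j).filter fun l => 5 ≤ l ∧ ¬ l ∣ s)
    ((PB 0 y).filter fun q => q % 4 = 1 ∧ jacobiSym r q = -1) S
    (fun l hl => by
      simp only [mem_filter, mem_PB] at hl
      exact ⟨hl.1.1, hl.2.1, hl.1.2.2.le.trans (T_mono hj), hnd l hl.1.1 hl.1.2.2, hl.2.2⟩)
    (fun l hl => by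
      simp only [mem_filter, mem_PB] at hl
      have h2 := hl.1.1.two_le
      have h3 := hl.2.1
      have h4 : l < T j := hl.1.2.2.trans_le (T_mono hy)
      exact ⟨hl.1.1, by omega, h4.le.trans (T_mono hj), hnd l hl.1.1 h4⟩)
    (fun m hm => by
      obtain ⟨h2, h3, h4⟩ := hmem m hm
      refine ⟨h2, h3, vv_modEq hs h2 (hmem c hc).1 hr (hdv m hm) (hdv c hc), ?_, ?_⟩
      · intro l hl h5
        simp only [mem_filter, mem_PB] at hl
        have h6 := Nat.minFac_le_of_dvd hl.1.1.two_le h5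
        rw [hSr m hm] at h6
        have h7 := hl.1.2.2
        omega
      · intro q hq h5
        simp only [mem_filter, mem_PB] at hq
        have h6 := (h4 r hr (hdv m hm)).1 q hq.1.1 h5
        have h7 : Odd r := hr.odd_of_ne_two (vv_not_dvd hs h2 hr (hdv m hm)).1
        rw [jacobiSym.quadratic_reciprocity_one_mod_four hq.2.1 h7, hq.2.2] at h6
        exact absurd h6 (by norm_num))
  refine h1.trans (le_of_eq ?_)
  rw [neg_add, Real.exp_add, sig]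
  ring

theorem R2 (h : ℕ) (ε : ℝ) (hε : 0 < ε) : ∀ᶠ J : ℕ in atTop, ∀ X s Y : ℕ, Par J X s Y →
    ∀ S : Finset ℕ, S ⊆ Bad s Y → (∀ m ∈ S, T (J - h) ≤ (vv s m).minFac) →
    (S.card : ℝ) ≤ ε * √(s : ℝ) * (Y / 2 ^ J) + X / T (J + 9) := by
  classical
  obtain ⟨C, -, hC⟩ := mert
  obtain ⟨y, hy⟩ := avg h (ε / (2 * Real.exp (C + 1) * 2 ^ h)) (by positivity)
  filter_upwards [hy, eventually_ge_atTop (h + y + 2)] with J hJ hJ' X s Y hP S hS hmin
  set R := (PB (J - h) (J + 12)).filter fun r => r ≤ Nat.sqrt (4 * X) with hR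
  have hmaps : ∀ m ∈ S, (vv s m).minFac ∈ R := by
    intro m hm
    have h1 := hS hm
    simp only [Bad, mem_filter, mem_Icc] at h1
    have h2 := three_le_vv hP.spos h1.1.1
    have h3 := Nat.minFac_sq_le_self (n := vv s m) (by omega) h1.2.1
    have h4 : vv s m ≤ 4 * X := by
      have h5 : s ^ 2 * m ≤ X := (Nat.mul_le_mul_left _ h1.1.2).trans hP.le
      have h6 : 4 * s ^ 2 * m = 4 * (s ^ 2 * m) := by ring
      unfold vv
      omega
    rw [hR, mem_filter, mem_PB]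
    refine ⟨⟨Nat.minFac_prime (by omega), hmin m hm, ?_⟩, Nat.le_sqrt'.mpr (h3.trans h4)⟩
    have h5 : 16 ≤ T (J + 12) := sixteen_le_T (by omega)
    have h6 := hP.hi
    by_contra h7
    have h8 : T (J + 12) ^ 2 ≤ (vv s m).minFac ^ 2 := Nat.pow_le_pow_left (not_lt.mp h7) 2
    nlinarith
  have hcard : (R.card : ℝ) ≤ Nat.sqrt (4 * X) := by
    have h1 : R ⊆ Icc 1 (Nat.sqrt (4 * X)) := by
      intro r hr
      rw [hR, mem_filter, mem_PB] at hr
      exact mem_Icc.mpr ⟨hr.1.1.one_le, hr.2⟩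
    have h2 := card_le_card h1
    rw [Nat.card_Icc, Nat.add_sub_cancel] at h2
    exact_mod_cast h2
  set E := Real.exp (-∑ l ∈ (PB 0 (J - h)).filter (fun l => 5 ≤ l ∧ ¬ l ∣ s), (l : ℝ)⁻¹) with hE
  have hE0 : 0 ≤ E := (Real.exp_pos _).le
  have hE1 : E ≤ Real.exp (C + 1) * √(s : ℝ) / 2 ^ (J - h) :=
    r2_exp hP.spos (hC 0 (J - h) (Nat.zero_le _))
  have h1 : (S.card : ℝ) ≤ ∑ r ∈ R, (2 * E * Y * (Real.exp (-sig y r) / r) +
      (2 + 2 * (T J : ℝ) ^ 28)) := by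
    rw [card_eq_sum_card_fiberwise (f := fun m => (vv s m).minFac) (t := R) hmaps, Nat.cast_sum]
    refine sum_le_sum fun r hr => ?_
    rw [hR, mem_filter, mem_PB] at hr
    exact r2_fibre (by omega) (Nat.sub_le _ _) (by omega) hP.spos hr.1.1 hr.1.2.1 _
      ((filter_subset _ _).trans hS) fun m hm => (mem_filter.mp hm).2
  rw [sum_add_distrib, ← mul_sum, sum_const, nsmul_eq_mul] at h1
  have h2 : ∑ r ∈ R, Real.exp (-sig y r) / r ≤ ε / (2 * Real.exp (C + 1) * 2 ^ h) :=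
    (sum_le_sum_of_subset_of_nonneg (filter_subset _ _) fun _ _ _ => by positivity).trans hJ
  have h3 : (2 : ℝ) ^ J = 2 ^ (J - h) * 2 ^ h := by
    rw [← pow_add, Nat.sub_add_cancel (by omega)]
  refine h1.trans (add_le_add ?_ ?_)
  · calc 2 * E * Y * ∑ r ∈ R, Real.exp (-sig y r) / r
        ≤ 2 * (Real.exp (C + 1) * √(s : ℝ) / 2 ^ (J - h)) * Y *
          (ε / (2 * Real.exp (C + 1) * 2 ^ h)) := by
          gcongr
      _ = ε * √(s : ℝ) * (Y / 2 ^ J) := by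
          rw [h3]
          field_simp
  · exact (mul_le_mul_of_nonneg_right hcard (by positivity)).trans (r2_err hP.lo)

end Pool.Agent.Lib.MP_56f651_co.SG
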