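import Pool.Agent.Lib.MP_56f651_co.SG.Defs

/-! Roots of an irreducible polynomial modulo `d` give ideals of norm `d`. -/

open Finset Filter Topology

namespace Pool.Agent.Lib.MP_56f651_co.SG

open Polynomial NumberField

theorem roots_ideals (K : Type) [Field K] [NumberField K] : ∃ C : ℝ, ∀ x : ℕ, 0 < x →
    (Nat.card {I : Ideal (𝓞 K) // Ideal.absNorm I ≤ x} : ℝ) ≤ C * x := by
  obtain ⟨C, hC⟩ := ((Ideal.tendsto_norm_le_div_atTop K).comp
    tendsto_natCast_atTop_atTop).bddAbove_range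
  refine ⟨C, fun x hx => ?_⟩
  have := hC ⟨x, rfl⟩
  simp only [Function.comp, Nat.cast_le] at this
  exact (div_le_iff₀ (Nat.cast_pos.2 hx)).1 this

section
variable {O : Type} [CommRing O] {θ : O} {g : ℤ[X]} {N : ℕ}

theorem roots_mem (hg : ∀ p : ℤ[X], aeval θ p = 0 → g ∣ p) (hN : ∀ z, ∃ p : ℤ[X], aeval θ p = N * z)
    {d : ℕ} (hd : Nat.Coprime d N) {a n : ℤ} (ha : (d : ℤ) ∣ g.eval a)
    (hn : (n : O) ∈ Ideal.span {(d : O), θ - a}) : (d : ℤ) ∣ n := by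
  obtain ⟨u, v, e⟩ := Ideal.mem_span_pair.1 hn
  obtain ⟨p, hp⟩ := hN u
  obtain ⟨q, hq⟩ := hN v
  obtain ⟨h, hh⟩ := hg (C (N * n : ℤ) - p * C (d : ℤ) - q * (X - C a)) (by
    simp only [map_sub, map_mul, aeval_X, hp, hq, eq_intCast, map_natCast, map_intCast]
    linear_combination (-(N : O)) * e)
  have h1 := congrArg (eval a) hh
  simp only [eval_sub, eval_mul, eval_C, eval_X, sub_self, mul_zero, sub_zero] at h1
  refine (Nat.isCoprime_iff_coprime.2 hd).dvd_of_dvd_mul_left ?_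
  rw [sub_eq_iff_eq_add.1 h1]
  exact dvd_add (ha.mul_right _) (dvd_mul_left _ _)

theorem roots_card (hN : ∀ z, ∃ p : ℤ[X], aeval θ p = N * z) {d : ℕ} (h0 : 0 < d)
    (hd : Nat.Coprime d N) (a : ℤ) : Nat.card (O ⧸ Ideal.span {(d : O), θ - a}) ≤ d := by
  have : NeZero d := ⟨h0.ne'⟩
  refine (Nat.card_le_card_of_surjective (fun k : ZMod d => Ideal.Quotient.mk _ (k.val : O))
    fun z => ?_).trans_eq (Nat.card_zmod d)
  obtain ⟨z, rfl⟩ := Ideal.Quotient.mk_surjective z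
  obtain ⟨s, t, e⟩ := Nat.isCoprime_iff_coprime.2 hd
  obtain ⟨p, hp⟩ := hN z
  obtain ⟨w, hw⟩ := sub_dvd_eval_sub θ (a : O) (p.map (Int.castRingHom O))
  rw [eval_intCast_map, eval_map, ← algebraMap_int_eq, ← aeval_def, hp] at hw
  refine ⟨((t * p.eval a : ℤ) : ZMod d), Ideal.Quotient.eq.2 (Ideal.mem_span_pair.2
    ⟨-s * z - ((t * p.eval a / d : ℤ) : O), -t * w, ?_⟩)⟩
  have h1 := congrArg (Int.cast : ℤ → O) e
  have h2 := congrArg (Int.cast : ℤ → O) (Int.emod_add_mul_ediv (t * p.eval a) d)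
  rw [← ZMod.val_intCast] at h2
  simp only [Int.cast_add, Int.cast_mul, Int.cast_natCast, Int.cast_one, eq_intCast,
    Int.cast_id] at h1 h2 hw ⊢
  linear_combination (-z) * h1 - h2 + (t : O) * hw

end

theorem roots_field (g : ℤ[X]) (hm : g.Monic) (hi : Irreducible g) :
    ∃ (K : Type) (_ : Field K) (_ : NumberField K) (θ : 𝓞 K) (N : ℕ), 0 < N ∧
      (∀ p : ℤ[X], aeval θ p = 0 → g ∣ p) ∧ ∀ z, ∃ p : ℤ[X], aeval θ p = N * z := by
  have hi' : Irreducible (g.map (algebraMap ℤ ℚ)) :=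
    hm.irreducible_iff_irreducible_map_fraction_map.1 hi
  have := Fact.mk hi'
  let K := AdjoinRoot (g.map (algebraMap ℤ ℚ))
  let B : PowerBasis ℚ K := AdjoinRoot.powerBasis hi'.ne_zero
  have hB : minpoly ℚ B.gen = g.map (algebraMap ℤ ℚ) :=
    AdjoinRoot.minpoly_powerBasis_gen_of_monic (hm.map _)
  have h0 : aeval B.gen g = 0 := by
    rw [← aeval_map_algebraMap ℚ]
    exact (congrArg _ hB).symm.trans (minpoly.aeval _ _)
  have h1 : IsIntegral ℤ B.gen := ⟨g, hm, h0⟩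
  have : NumberField K := inferInstance
  obtain ⟨D, hD⟩ := IsIntegrallyClosed.isIntegral_iff.1 (Algebra.discr_isIntegral ℚ (R := ℤ)
    (b := B.basis) fun i => by rw [B.coe_basis]; exact h1.pow _)
  have hD0 : D ≠ 0 := by
    rintro rfl
    exact Algebra.discr_not_zero_of_basis ℚ B.basis (by rw [← hD, map_zero])
  obtain ⟨θ, hθ⟩ : ∃ θ : 𝓞 K, algebraMap (𝓞 K) K θ = B.gen := ⟨⟨B.gen, h1⟩, rfl⟩
  have e : ∀ p : ℤ[X], ((aeval θ p : 𝓞 K) : K) = aeval B.gen p := fun p =>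
    hθ ▸ (aeval_algebraMap_apply K θ p).symm
  refine ⟨K, inferInstance, this, θ, D.natAbs, Int.natAbs_pos.2 hD0, fun p hp => ?_,
    fun z => ?_⟩
  · rw [← map_dvd_map _ (algebraMap ℤ ℚ).injective_int hm, ← hB]
    refine minpoly.dvd _ _ ?_
    rw [aeval_map_algebraMap, ← e, hp]
    rfl
  · have h2 := Algebra.discr_mul_isIntegral_mem_adjoin ℚ h1 z.isIntegral_coe
    rw [Algebra.adjoin_singleton_eq_range_aeval, ← hD] at h2
    obtain ⟨p, hp⟩ := h2
    refine ⟨C D.sign * p, RingOfIntegers.ext ?_⟩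
    change aeval B.gen p = _ at hp
    rw [e, map_mul, hp, aeval_C, algebraMap_smul, zsmul_eq_mul, ← mul_assoc, eq_intCast,
      ← Int.cast_mul, Int.sign_mul_self_eq_natAbs]
    simp

theorem rho_count (g : Polynomial ℤ) (hm : g.Monic) (hi : Irreducible g) :
    ∃ (N : ℕ) (C : ℝ), 0 < N ∧ ∀ x : ℕ,
      (∑ d ∈ (Icc 1 x).filter (fun d => Nat.Coprime d N), (rho g d : ℝ)) ≤ C * x := by
  obtain ⟨K, _, _, θ, N, h0, hg, hN⟩ := roots_field g hm hi
  obtain ⟨C, hC⟩ := roots_ideals K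
  refine ⟨N, C, h0, fun x => ?_⟩
  rcases x.eq_zero_or_pos with rfl | hx
  · simp
  refine le_trans ?_ (hC x hx)
  have : Finite {I : Ideal (𝓞 K) // Ideal.absNorm I ≤ x} := Ideal.finite_setOfPred_absNorm_le x
  rw [← Nat.cast_sum, Nat.cast_le]
  unfold rho
  rw [← card_sigma, ← Nat.card_eq_finsetCard]
  refine Nat.card_le_card_of_injective
    (fun y => ⟨Ideal.span {(y.1.1 : 𝓞 K), θ - ((y.1.2 : ℤ) : 𝓞 K)}, ?_⟩) ?_
  · have h := y.2
    simp only [mem_sigma, mem_filter, mem_Icc] at h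
    exact (roots_card hN h.1.1.1 h.1.2 _).trans h.1.1.2
  · rintro ⟨⟨d, a⟩, h⟩ ⟨⟨d', a'⟩, h'⟩ e
    simp only [mem_sigma, mem_filter, mem_Icc, mem_range] at h h'
    replace e : Ideal.span {(d : 𝓞 K), θ - ((a : ℤ) : 𝓞 K)} =
      Ideal.span {(d' : 𝓞 K), θ - ((a' : ℤ) : 𝓞 K)} := congrArg Subtype.val e
    have h1 := roots_mem hg hN h.1.2 (n := d') h.2.2
      (e.ge (Ideal.subset_span (by simp)))
    have h2 := roots_mem hg hN h'.1.2 (n := d) h'.2.2
      (e.le (Ideal.subset_span (by simp)))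
    obtain rfl : d = d' := Nat.dvd_antisymm (Int.natCast_dvd_natCast.1 h1)
      (Int.natCast_dvd_natCast.1 h2)
    have h3 := roots_mem hg hN h.1.2 (n := a' - a) h.2.2 (by
      rw [show (((a' : ℤ) - a : ℤ) : 𝓞 K) = θ - ((a : ℤ) : 𝓞 K) - (θ - ((a' : ℤ) : 𝓞 K)) by
        push_cast; ring]
      exact sub_mem (Ideal.subset_span (by simp)) (e.ge (Ideal.subset_span (by simp))))
    obtain rfl : a = a' := ((Nat.modEq_iff_dvd).2 h3).eq_of_lt_of_lt h.2.1 h'.2.1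
    rfl

end Pool.Agent.Lib.MP_56f651_co.SG
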