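import Pool.Agent.Lib.MP_56f651_co.SG.Mert
import Pool.Agent.Lib.MP_56f651_co.SG.Roots

/-! The average number of roots of an irreducible polynomial modulo primes is at most one. -/

open Finset Filter Topology

namespace Pool.Agent.Lib.MP_56f651_co.SG

theorem rootsum_dvd_iff (g : Polynomial ℤ) {d x y : ℕ} (h : x ≡ y [MOD d]) :
    (d : ℤ) ∣ g.eval (x : ℤ) ↔ (d : ℤ) ∣ g.eval (y : ℤ) := by
  have h1 : (d : ℤ) ∣ (y : ℤ) - (x : ℤ) := (Nat.modEq_iff_dvd.1 h)
  have h2 : (d : ℤ) ∣ g.eval (y : ℤ) - g.eval (x : ℤ) :=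
    h1.trans (Polynomial.sub_dvd_eval_sub _ _ g)
  constructor
  · intro hx
    have := dvd_add h2 hx
    simpa using this
  · intro hy
    have := dvd_sub hy h2
    simpa using this

theorem rho_mul (g : Polynomial ℤ) {a b : ℕ} (ha : 0 < a) (hb : 0 < b) (h : Nat.Coprime a b) :
    rho g (a * b) = rho g a * rho g b := by
  classical
  unfold rho
  rw [← Finset.card_product]
  refine Finset.card_bij (fun x _ => (x % a, x % b)) ?_ ?_ ?_
  · intro x hx
    rw [mem_filter] at hx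
    have hx2 : ((a : ℤ) * (b : ℤ)) ∣ g.eval (x : ℤ) := by exact_mod_cast hx.2
    rw [mem_product, mem_filter, mem_filter, mem_range, mem_range]
    refine ⟨⟨Nat.mod_lt _ ha, ?_⟩, Nat.mod_lt _ hb, ?_⟩
    · exact (rootsum_dvd_iff g (Nat.mod_modEq x a)).2 ((dvd_mul_right _ _).trans hx2)
    · exact (rootsum_dvd_iff g (Nat.mod_modEq x b)).2 ((dvd_mul_left _ _).trans hx2)
  · intro x hx y hy hxy
    rw [mem_filter, mem_range] at hx hy
    have h1 : x ≡ y [MOD a] := (Prod.ext_iff.1 hxy).1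
    have h2 : x ≡ y [MOD b] := (Prod.ext_iff.1 hxy).2
    have h3 : x ≡ y [MOD a * b] := (Nat.modEq_and_modEq_iff_modEq_mul h).1 ⟨h1, h2⟩
    exact Nat.ModEq.eq_of_lt_of_lt h3 hx.1 hy.1
  · rintro ⟨u, v⟩ huv
    rw [mem_product, mem_filter, mem_filter, mem_range, mem_range] at huv
    obtain ⟨⟨hu, hu'⟩, hv, hv'⟩ := huv
    have hc := (Nat.chineseRemainder h u v).2
    have hlt := Nat.chineseRemainder_lt_mul h u v ha.ne' hb.ne'
    refine ⟨(Nat.chineseRemainder h u v : ℕ), ?_, ?_⟩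
    · rw [mem_filter, mem_range]
      refine ⟨hlt, ?_⟩
      have e1 := (rootsum_dvd_iff g hc.1).2 hu'
      have e2 := (rootsum_dvd_iff g hc.2).2 hv'
      have := IsCoprime.mul_dvd (Nat.isCoprime_iff_coprime.2 h) e1 e2
      exact_mod_cast this
    · have e1 : (Nat.chineseRemainder h u v : ℕ) % a = u := by
        rw [hc.1]; exact Nat.mod_eq_of_lt hu
      have e2 : (Nat.chineseRemainder h u v : ℕ) % b = v := by
        rw [hc.2]; exact Nat.mod_eq_of_lt hv
      simp only [e1, e2]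

theorem rho_le (g : Polynomial ℤ) (hm : g.Monic) {p : ℕ} (hp : p.Prime) :
    rho g p ≤ g.natDegree := by
  classical
  have : Fact p.Prime := ⟨hp⟩
  set G : Polynomial (ZMod p) := g.map (Int.castRingHom (ZMod p)) with hG
  have hGm : G.Monic := hm.map _
  have hdeg : G.natDegree = g.natDegree := hm.natDegree_map _
  unfold rho
  calc ((range p).filter fun a : ℕ => (p : ℤ) ∣ g.eval (a : ℤ)).card
      ≤ G.roots.toFinset.card := by
        refine Finset.card_le_card_of_injOn (fun a : ℕ => (a : ZMod p)) ?_ ?_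
        · intro a ha
          have ha' := (mem_filter.1 (Finset.mem_coe.1 ha)).2
          rw [Finset.mem_coe, Multiset.mem_toFinset, Polynomial.mem_roots hGm.ne_zero,
            Polynomial.IsRoot.def, hG]
          have e : ((a : ℕ) : ZMod p) = Int.castRingHom (ZMod p) (a : ℤ) := by simp
          simp only
          rw [e, Polynomial.eval_map, Polynomial.eval₂_hom]
          simpa using (ZMod.intCast_zmod_eq_zero_iff_dvd _ p).2 ha'
        · intro a ha b hb hab
          have ha' := mem_range.1 (mem_filter.1 (Finset.mem_coe.1 ha)).1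
          have hb' := mem_range.1 (mem_filter.1 (Finset.mem_coe.1 hb)).1
          exact Nat.ModEq.eq_of_lt_of_lt ((ZMod.natCast_eq_natCast_iff a b p).1 hab) ha' hb'
    _ ≤ Multiset.card G.roots := Multiset.toFinset_card_le _
    _ ≤ G.natDegree := Polynomial.card_roots' G
    _ = g.natDegree := hdeg

theorem rootsum_rho_one (g : Polynomial ℤ) : rho g 1 = 1 := by
  simp [rho]

theorem rootsum_rho_prod (g : Polynomial ℤ) (e : Finset ℕ) (he : ∀ p ∈ e, p.Prime) :
    rho g (∏ p ∈ e, p) = ∏ p ∈ e, rho g p := by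
  classical
  induction e using Finset.induction_on with
  | empty => simp [rootsum_rho_one]
  | insert q e hq ih =>
    have hqp : q.Prime := he q (mem_insert_self _ _)
    have he' : ∀ p ∈ e, p.Prime := fun p hp => he p (mem_insert_of_mem hp)
    rw [prod_insert hq, prod_insert hq, rho_mul g hqp.pos
      (Finset.prod_pos fun p hp => (he' p hp).pos), ih he']
    refine Nat.Coprime.prod_right fun p hp => ?_
    exact (Nat.coprime_primes hqp (he' p hp)).2 fun h => hq (h ▸ hp)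

/-- The weight `d ^ (-1 - δ)`. -/
noncomputable def rootsum_w (δ : ℝ) (d : ℕ) : ℝ := Real.exp (-(δ * Real.log d)) / d

theorem rootsum_w_nonneg (δ : ℝ) (d : ℕ) : 0 ≤ rootsum_w δ d := by
  unfold rootsum_w; positivity

theorem rootsum_w_prod (δ : ℝ) (e : Finset ℕ) (he : ∀ p ∈ e, p.Prime) :
    rootsum_w δ (∏ p ∈ e, p) = ∏ p ∈ e, rootsum_w δ p := by
  unfold rootsum_w
  rw [Finset.prod_div_distrib, ← Real.exp_sum, Nat.cast_prod,
    Real.log_prod (fun p hp => by exact_mod_cast (he p hp).ne_zero), Finset.mul_sum,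
    ← Finset.sum_neg_distrib]

theorem rootsum_euler (g : Polynomial ℤ) (δ : ℝ) (N : ℕ) (P : Finset ℕ)
    (hP : ∀ p ∈ P, p.Prime ∧ ¬ p ∣ N) :
    ∏ p ∈ P, (1 + (rho g p : ℝ) * rootsum_w δ p) ≤
      ∑ d ∈ (Icc 1 (∏ p ∈ P, p)).filter (fun d => Nat.Coprime d N),
        (rho g d : ℝ) * rootsum_w δ d := by
  classical
  rw [Finset.prod_one_add]
  have h1 : ∀ e ∈ P.powerset, ∏ p ∈ e, ((rho g p : ℝ) * rootsum_w δ p) =
      (rho g (∏ p ∈ e, p) : ℝ) * rootsum_w δ (∏ p ∈ e, p) := by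
    intro e he
    have he' : ∀ p ∈ e, p.Prime := fun p hp => (hP p (mem_powerset.1 he hp)).1
    rw [rootsum_rho_prod g e he', rootsum_w_prod δ e he', Finset.prod_mul_distrib, Nat.cast_prod]
  rw [Finset.sum_congr rfl h1]
  have hinj : Set.InjOn (fun e : Finset ℕ => ∏ p ∈ e, p) (P.powerset : Set (Finset ℕ)) := by
    intro e he e' he' h
    have a1 : ∀ p ∈ e, p.Prime := fun p hp => (hP p (mem_powerset.1 he hp)).1
    have a2 : ∀ p ∈ e', p.Prime := fun p hp => (hP p (mem_powerset.1 he' hp)).1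
    have h' : (∏ p ∈ e, p) = ∏ p ∈ e', p := h
    rw [← Nat.primeFactors_prod a1, h', Nat.primeFactors_prod a2]
  rw [← Finset.sum_image (f := fun d : ℕ => (rho g d : ℝ) * rootsum_w δ d) hinj]
  refine Finset.sum_le_sum_of_subset_of_nonneg ?_ fun d _ _ =>
    mul_nonneg (Nat.cast_nonneg _) (rootsum_w_nonneg δ d)
  intro d hd
  obtain ⟨e, he, rfl⟩ := mem_image.1 hd
  have hs := mem_powerset.1 he
  rw [mem_filter, mem_Icc]
  refine ⟨⟨Finset.prod_pos fun p hp => (hP p (hs hp)).1.pos, ?_⟩, ?_⟩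
  · exact Nat.le_of_dvd (Finset.prod_pos fun p hp => (hP p hp).1.pos)
      (Finset.prod_dvd_prod_of_subset _ _ _ hs)
  · exact Nat.Coprime.prod_left fun p hp =>
      (Nat.Prime.coprime_iff_not_dvd (hP p (hs hp)).1).2 (hP p (hs hp)).2

theorem rootsum_dyadic (g : Polynomial ℤ) (N : ℕ) (C : ℝ) (hC : 0 ≤ C)
    (h : ∀ x : ℕ, (∑ d ∈ (Icc 1 x).filter (fun d => Nat.Coprime d N), (rho g d : ℝ)) ≤ C * x)
    {u : ℝ} (hu : 0 < u) (hu1 : u ≤ 1) (M : ℕ) :
    ∑ d ∈ (Icc 1 M).filter (fun d => Nat.Coprime d N),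
      (rho g d : ℝ) * rootsum_w (u / Real.log 2) d ≤ 4 * C / u := by
  classical
  have hL : 0 < Real.log 2 := Real.log_pos (by norm_num)
  set S := (Icc 1 M).filter (fun d => Nat.Coprime d N) with hS
  have hmap : ∀ d ∈ S, Nat.log 2 d ∈ range (M + 1) := by
    intro d hd
    have hd' := mem_Icc.1 (mem_filter.1 hd).1
    rw [mem_range]
    have := Nat.log_le_self 2 d
    omega
  rw [← Finset.sum_fiberwise_of_maps_to hmap]
  set r := Real.exp (-u) with hr
  have hr0 : 0 ≤ r := (Real.exp_pos _).le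
  have hr1 : u / 2 ≤ 1 - r := by
    have e1 : 1 + u ≤ Real.exp u := by linarith [Real.add_one_le_exp u]
    have e2 : r * Real.exp u = 1 := by rw [hr, ← Real.exp_add]; simp
    have e3 : r * (1 + u) ≤ 1 := by nlinarith
    nlinarith
  have hblock : ∀ t ∈ range (M + 1), ∑ d ∈ S.filter (fun d => Nat.log 2 d = t),
      (rho g d : ℝ) * rootsum_w (u / Real.log 2) d ≤ 2 * C * r ^ t := by
    intro t _
    have hw : ∀ d ∈ S.filter (fun d => Nat.log 2 d = t),
        (rho g d : ℝ) * rootsum_w (u / Real.log 2) d ≤ (rho g d : ℝ) * (r ^ t / 2 ^ t) := by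
      intro d hd
      obtain ⟨hd1, hd2⟩ := mem_filter.1 hd
      have hd' := mem_Icc.1 (mem_filter.1 hd1).1
      have hle : 2 ^ t ≤ d := hd2 ▸ Nat.pow_log_le_self 2 (by omega)
      have hle' : (2 : ℝ) ^ t ≤ d := by exact_mod_cast hle
      refine mul_le_mul_of_nonneg_left ?_ (Nat.cast_nonneg _)
      unfold rootsum_w
      refine div_le_div₀ (by positivity) ?_ (by positivity) hle'
      rw [hr, ← Real.exp_nat_mul]
      refine Real.exp_le_exp.2 ?_
      have hl : (t : ℝ) * Real.log 2 ≤ Real.log d := by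
        rw [← Real.log_pow]; exact Real.log_le_log (by positivity) hle'
      have : u / Real.log 2 * ((t : ℝ) * Real.log 2) ≤ u / Real.log 2 * Real.log d :=
        mul_le_mul_of_nonneg_left hl (by positivity)
      have e : u / Real.log 2 * ((t : ℝ) * Real.log 2) = t * u := by field_simp
      linarith
    refine (Finset.sum_le_sum hw).trans ?_
    rw [← Finset.sum_mul]
    have hsub : ∑ d ∈ S.filter (fun d => Nat.log 2 d = t), (rho g d : ℝ) ≤
        C * ((2 ^ (t + 1) : ℕ) : ℝ) := by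
      refine le_trans (Finset.sum_le_sum_of_subset_of_nonneg ?_
        fun d _ _ => Nat.cast_nonneg _) (h (2 ^ (t + 1)))
      intro d hd
      obtain ⟨hd1, hd2⟩ := mem_filter.1 hd
      obtain ⟨hd3, hd4⟩ := mem_filter.1 hd1
      have hd' := mem_Icc.1 hd3
      rw [mem_filter, mem_Icc]
      refine ⟨⟨hd'.1, ?_⟩, hd4⟩
      have := Nat.lt_pow_succ_log_self (b := 2) (by norm_num) d
      rw [hd2] at this
      exact this.le
    calc _ ≤ C * ((2 ^ (t + 1) : ℕ) : ℝ) * (r ^ t / 2 ^ t) :=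
          mul_le_mul_of_nonneg_right hsub (by positivity)
      _ = 2 * C * r ^ t := by push_cast; field_simp; ring
  refine (Finset.sum_le_sum hblock).trans ?_
  rw [← Finset.mul_sum]
  have hgeo : (∑ t ∈ range (M + 1), r ^ t) * (1 - r) ≤ 1 := by
    have := geom_sum_mul_neg r (M + 1)
    rw [this]
    have : 0 ≤ r ^ (M + 1) := by positivity
    linarith
  have hs0 : 0 ≤ ∑ t ∈ range (M + 1), r ^ t := by positivity
  have hgeo2 : (∑ t ∈ range (M + 1), r ^ t) * u ≤ 2 := by nlinarith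
  rw [le_div_iff₀ hu]
  nlinarith

theorem root_sum (g : Polynomial ℤ) (hm : g.Monic) (hi : Irreducible g) :
    ∃ C : ℝ, ∀ j : ℕ, ∑ p ∈ PB 0 j, (rho g p : ℝ) / p ≤ j * Real.log 2 + C := by
  classical
  obtain ⟨N, C0, hN, hC0⟩ := rho_count g hm hi
  set C := max C0 1 with hCdef
  have hC1 : 1 ≤ C := le_max_right _ _
  have hC : ∀ x : ℕ, (∑ d ∈ (Icc 1 x).filter (fun d => Nat.Coprime d N), (rho g d : ℝ)) ≤ C * x :=
    fun x => (hC0 x).trans (mul_le_mul_of_nonneg_right (le_max_left _ _) (Nat.cast_nonneg _))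
  set D : ℝ := (g.natDegree : ℝ) with hD
  have hD0 : 0 ≤ D := Nat.cast_nonneg _
  have hsum : Summable fun n : ℕ => ((n : ℝ) ^ 2)⁻¹ := Real.summable_nat_pow_inv.2 (by norm_num)
  set Z := ∑' n : ℕ, ((n : ℝ) ^ 2)⁻¹ with hZ
  refine ⟨Real.log (4 * C) + D ^ 2 * Z + 3 * D + D * N.primeFactors.card, fun j => ?_⟩
  have hL : 0 < Real.log 2 := Real.log_pos (by norm_num)
  set u : ℝ := (2 ^ j)⁻¹ with hu
  have hu0 : 0 < u := by positivity
  have hu1 : u ≤ 1 := inv_le_one_of_one_le₀ (one_le_pow₀ (by norm_num))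
  set δ := u / Real.log 2 with hδ
  have hδ0 : 0 < δ := by positivity
  set P := (PB 0 j).filter (fun p => ¬ p ∣ N) with hP
  have hPp : ∀ p ∈ P, p.Prime ∧ ¬ p ∣ N := fun p hp =>
    ⟨(mem_PB.1 (mem_filter.1 hp).1).1, (mem_filter.1 hp).2⟩
  have hrho : ∀ p : ℕ, p.Prime → (rho g p : ℝ) ≤ D := fun p hp => by
    rw [hD]; exact_mod_cast rho_le g hm hp
  set y : ℕ → ℝ := fun p => (rho g p : ℝ) * rootsum_w δ p with hy
  have hy0 : ∀ p, 0 ≤ y p := fun p => mul_nonneg (Nat.cast_nonneg _) (rootsum_w_nonneg δ p)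
  have hA : ∏ p ∈ P, (1 + y p) ≤ 4 * C / u :=
    (rootsum_euler g δ N P hPp).trans (rootsum_dyadic g N C (by linarith) hC hu0 hu1 _)
  have hB : ∑ p ∈ P, (y p - y p ^ 2) ≤ Real.log (4 * C) + j * Real.log 2 := by
    have e1 : ∑ p ∈ P, (y p - y p ^ 2) ≤ ∑ p ∈ P, Real.log (1 + y p) := by
      refine Finset.sum_le_sum fun p _ => ?_
      have h0 := hy0 p
      have h1 := Real.one_sub_inv_le_log_of_pos (x := 1 + y p) (by linarith)
      refine le_trans ?_ h1
      have h2 : (1 + y p)⁻¹ ≤ 1 - y p + y p ^ 2 := by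
        rw [inv_eq_one_div, div_le_iff₀ (by linarith)]
        nlinarith [pow_nonneg h0 3]
      linarith
    have e2 : ∑ p ∈ P, Real.log (1 + y p) = Real.log (∏ p ∈ P, (1 + y p)) :=
      (Real.log_prod (fun p _ => by linarith [hy0 p])).symm
    have e3 : Real.log (∏ p ∈ P, (1 + y p)) ≤ Real.log (4 * C / u) :=
      Real.log_le_log (Finset.prod_pos fun p _ => by linarith [hy0 p]) hA
    have e4 : Real.log (4 * C / u) = Real.log (4 * C) + j * Real.log 2 := by
      rw [Real.log_div (by linarith) hu0.ne', hu, Real.log_inv, Real.log_pow]; ring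
    linarith
  have hE : ∀ p ∈ P, (rho g p : ℝ) / p ≤
      (y p - y p ^ 2) + D ^ 2 * ((p : ℝ) ^ 2)⁻¹ + D * δ * (Real.log p / p) := by
    intro p hp
    have hpp := (hPp p hp).1
    have hp0 : (0 : ℝ) < p := by exact_mod_cast hpp.pos
    have hl0 : 0 ≤ Real.log p := Real.log_natCast_nonneg p
    have hr := hrho p hpp
    have hr0 : (0 : ℝ) ≤ rho g p := Nat.cast_nonneg _
    set E := Real.exp (-(δ * Real.log p)) with hEdef
    have hE1 : E ≤ 1 := Real.exp_le_one_iff.2 (by nlinarith)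
    have hE0 : 0 ≤ E := (Real.exp_pos _).le
    have hE2 : 1 - δ * Real.log p ≤ E := by
      have := Real.add_one_le_exp (-(δ * Real.log p)); linarith
    have hyp : y p = (rho g p : ℝ) * E / p := by
      simp only [hy, rootsum_w, hEdef]; ring
    have f1 : y p ≤ D / p := by
      rw [hyp]; exact div_le_div_of_nonneg_right (by nlinarith) hp0.le
    have f2 : y p ^ 2 ≤ D ^ 2 * ((p : ℝ) ^ 2)⁻¹ := by
      have := pow_le_pow_left₀ (hy0 p) f1 2
      rw [div_pow, div_eq_mul_inv] at this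
      exact this
    have f3 : (rho g p : ℝ) / p - y p ≤ D * δ * (Real.log p / p) := by
      rw [hyp, ← sub_div, ← mul_div_assoc]
      refine div_le_div_of_nonneg_right ?_ hp0.le
      have a1 : (rho g p : ℝ) * (1 - E) ≤ (rho g p : ℝ) * (δ * Real.log p) :=
        mul_le_mul_of_nonneg_left (by linarith) hr0
      have a2 : (rho g p : ℝ) * (δ * Real.log p) ≤ D * (δ * Real.log p) :=
        mul_le_mul_of_nonneg_right hr (by positivity)
      nlinarith
    linarith
  have hF : ∑ p ∈ P, ((p : ℝ) ^ 2)⁻¹ ≤ Z := hsum.sum_le_tsum P fun n _ => by positivity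
  have hG : δ * ∑ p ∈ P, Real.log p / p ≤ 3 := by
    have a1 : ∑ p ∈ P, Real.log p / p ≤ ∑ p ∈ (T j).primesLE, Real.log p / p := by
      refine Finset.sum_le_sum_of_subset_of_nonneg ?_ fun p _ _ =>
        div_nonneg (Real.log_natCast_nonneg p) (Nat.cast_nonneg _)
      intro p hp
      have := mem_PB.1 (mem_filter.1 hp).1
      rw [Nat.mem_primesLE]
      exact ⟨this.2.2.le, this.1⟩
    have a2 := MP_0a06fe_nt.sum_log_div_le (n := T j) (by linarith [two_le_T j])
    have a3 : Real.log 4 = 2 * Real.log 2 := by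
      rw [show (4 : ℝ) = 2 ^ 2 by norm_num, Real.log_pow]; norm_num
    rw [log_T, a3] at a2
    have a4 : δ * (2 ^ j * Real.log 2 + 2 * Real.log 2) = 1 + 2 * u := by
      rw [hδ, hu]; field_simp
    have a5 := mul_le_mul_of_nonneg_left (a1.trans a2) hδ0.le
    linarith
  have hH : ∑ p ∈ P, (rho g p : ℝ) / p ≤
      Real.log (4 * C) + j * Real.log 2 + D ^ 2 * Z + 3 * D := by
    refine (Finset.sum_le_sum hE).trans ?_
    rw [Finset.sum_add_distrib, Finset.sum_add_distrib, ← Finset.mul_sum, ← Finset.mul_sum]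
    have b1 := mul_le_mul_of_nonneg_left hF (sq_nonneg D)
    have b2 := mul_le_mul_of_nonneg_left hG hD0
    nlinarith
  have hI : ∑ p ∈ (PB 0 j).filter (fun p => p ∣ N), (rho g p : ℝ) / p ≤
      D * N.primeFactors.card := by
    have b1 : ∀ p ∈ (PB 0 j).filter (fun p => p ∣ N), (rho g p : ℝ) / p ≤ D := by
      intro p hp
      have hpp := (mem_PB.1 (mem_filter.1 hp).1).1
      have hp1 : (1 : ℝ) ≤ p := by exact_mod_cast hpp.one_lt.le
      exact (div_le_self (Nat.cast_nonneg _) hp1).trans (hrho p hpp)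
    refine (Finset.sum_le_card_nsmul _ _ _ b1).trans ?_
    rw [nsmul_eq_mul, mul_comm]
    refine mul_le_mul_of_nonneg_left ?_ hD0
    refine Nat.cast_le.2 (Finset.card_le_card fun p hp => ?_)
    exact Nat.mem_primeFactors.2
      ⟨(mem_PB.1 (mem_filter.1 hp).1).1, (mem_filter.1 hp).2, hN.ne'⟩
  rw [← Finset.sum_filter_add_sum_filter_not (PB 0 j) (fun p => p ∣ N)]
  linarith

end Pool.Agent.Lib.MP_56f651_co.SG
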