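import Pool.Agent.Lib.MP_56f651_co.SG.R1
import Pool.Agent.Lib.MP_56f651_co.SG.R2
import Pool.Agent.Lib.MP_56f651_co.SG.Div

/-! Summation over the square part. -/

open Finset Filter Topology

namespace Pool.Agent.Lib.MP_56f651_co.SG

theorem sum_sqrt_le (n : ℕ) (hn : 1 ≤ n) :
    ∑ s ∈ Icc 1 n, √(s : ℝ) / (s : ℝ) ^ 2 ≤ 3 - 2 / √(n : ℝ) := by
  induction n, hn using Nat.le_induction with
  | base => norm_num
  | succ n hn ih =>
    rw [sum_Icc_succ_top (by omega)]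
    have hn' : (1 : ℝ) ≤ n := by exact_mod_cast hn
    have ha : 0 < √(n : ℝ) := Real.sqrt_pos.2 (by linarith)
    have ha2 : √(n : ℝ) ^ 2 = n := Real.sq_sqrt (by linarith)
    have hb2 : √((n + 1 : ℕ) : ℝ) ^ 2 = ((n + 1 : ℕ) : ℝ) := Real.sq_sqrt (by positivity)
    have hab : √(n : ℝ) ≤ √((n + 1 : ℕ) : ℝ) := Real.sqrt_le_sqrt (by push_cast; linarith)
    have hd : √((n + 1 : ℕ) : ℝ) ^ 2 = √(n : ℝ) ^ 2 + 1 := by rw [ha2, hb2]; push_cast; ring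
    have key : √((n + 1 : ℕ) : ℝ) / ((n + 1 : ℕ) : ℝ) ^ 2 ≤
        2 / √(n : ℝ) - 2 / √((n + 1 : ℕ) : ℝ) := by
      nth_rewrite 2 [← hb2]
      generalize √((n + 1 : ℕ) : ℝ) = b at *
      generalize √(n : ℝ) = a at *
      have hb : 0 < b := ha.trans_le hab
      have e1 : b / (b ^ 2) ^ 2 = 1 / b ^ 3 := by field_simp
      have e2 : 2 / a - 2 / b = 2 / (a * b * (a + b)) := by
        have : (b - a) * (a + b) = 1 := by nlinarith
        rw [div_sub_div _ _ ha.ne' hb.ne', div_eq_div_iff (by positivity) (by positivity)]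
        linear_combination (2 * a * b) * this
      rw [e1, e2, div_le_div_iff₀ (by positivity) (by positivity)]
      have h1 : a * b ≤ b * b := by gcongr
      have h2 : a * b * (a + b) ≤ b * b * (b + b) := by gcongr
      nlinarith
    linarith

theorem sum_tail_le (a n : ℕ) (ha : 1 ≤ a) :
    ∑ s ∈ Ioc a n, ((s : ℝ) ^ 2)⁻¹ ≤ (a : ℝ)⁻¹ := by
  rcases le_total a n with h | h
  · have := sum_Ioc_inv_sq_le_sub (α := ℝ) (k := a) (n := n) (by omega) h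
    have h2 : (0 : ℝ) ≤ (n : ℝ)⁻¹ := by positivity
    linarith
  · rw [Ioc_eq_empty_of_le h, sum_empty]
    positivity

theorem sum_all_le (n : ℕ) : ∑ s ∈ Icc 1 n, ((s : ℝ) ^ 2)⁻¹ ≤ 2 := by
  rcases Nat.eq_zero_or_pos n with rfl | hn
  · simp
  · have h := sum_tail_le 1 n le_rfl
    have e : Icc 1 n = insert 1 (Ioc 1 n) := by
      ext x; simp only [mem_Icc, mem_insert, mem_Ioc]; omega
    rw [e, sum_insert (by simp)]
    norm_num at h ⊢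
    linarith

theorem sum_cut_le (n S : ℕ) (hS : 1 ≤ S) (δ : ℝ) (hδ : 0 ≤ δ) (b : ℕ → ℝ) (hb : ∀ s, b s ≤ 1)
    (hs : ∀ s ∈ Icc 1 S, b s ≤ δ) :
    ∑ s ∈ Icc 1 n, b s / (s : ℝ) ^ 2 ≤ 2 * δ + (S : ℝ)⁻¹ := by
  have h1 : ∀ s ∈ Icc 1 n, b s / (s : ℝ) ^ 2 ≤
      δ * ((s : ℝ) ^ 2)⁻¹ + if S < s then ((s : ℝ) ^ 2)⁻¹ else 0 := by
    intro s hs'
    have hp : (0 : ℝ) ≤ ((s : ℝ) ^ 2)⁻¹ := by positivity
    rw [div_eq_mul_inv]
    split_ifs with h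
    · nlinarith [mul_le_mul_of_nonneg_right (hb s) hp, mul_nonneg hδ hp]
    · have := hs s (mem_Icc.2 ⟨(mem_Icc.1 hs').1, by omega⟩)
      nlinarith [mul_le_mul_of_nonneg_right this hp]
  refine (sum_le_sum h1).trans ?_
  rw [sum_add_distrib, ← mul_sum, ← sum_filter]
  have e : (Icc 1 n).filter (fun s => S < s) = Ioc S n := by
    ext x; simp only [mem_filter, mem_Icc, mem_Ioc]; omega
  rw [e]
  have h2 := sum_tail_le S n hS
  have h3 := mul_le_mul_of_nonneg_left (sum_all_le n) hδ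
  linarith

theorem sum_bad_split {s Y t : ℕ} : ∃ S1 S2 S3 : Finset ℕ, S1 ⊆ Bad s Y ∧ S2 ⊆ Bad s Y ∧
    S3 ⊆ Bad s Y ∧ (∀ m ∈ S1, (vv s m).minFac < t ∧ 2 ≤ m ∧ m.minFac < t) ∧
    (∀ m ∈ S2, t ≤ (vv s m).minFac) ∧ (∀ m ∈ S3, ∀ q : ℕ, q.Prime → q ∣ m → t ≤ q) ∧
    (Bad s Y).card ≤ S1.card + S2.card + S3.card := by
  classical
  refine ⟨(Bad s Y).filter fun m => (vv s m).minFac < t ∧ 2 ≤ m ∧ m.minFac < t,
    (Bad s Y).filter fun m => t ≤ (vv s m).minFac,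
    (Bad s Y).filter fun m => ∀ q : ℕ, q.Prime → q ∣ m → t ≤ q, filter_subset _ _,
    filter_subset _ _, filter_subset _ _, fun m h => (mem_filter.1 h).2,
    fun m h => (mem_filter.1 h).2, fun m h => (mem_filter.1 h).2, ?_⟩
  refine le_trans (card_le_card ?_) ((card_union_le _ _).trans
    (Nat.add_le_add_right (card_union_le _ _) _))
  intro m hm
  simp only [mem_union, mem_filter, hm, true_and]
  by_cases h2 : t ≤ (vv s m).minFac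
  · exact Or.inl (Or.inr h2)
  by_cases h3 : ∀ q : ℕ, q.Prime → q ∣ m → t ≤ q
  · exact Or.inr h3
  push Not at h2 h3
  obtain ⟨q, hq, hqm, hqt⟩ := h3
  have hm1 : 1 ≤ m := (mem_Icc.1 (mem_filter.1 hm).1).1
  exact Or.inl (Or.inl ⟨h2, hq.two_le.trans (Nat.le_of_dvd hm1 hqm),
    (Nat.minFac_le_of_dvd hq.two_le hqm).trans_lt hqt⟩)

open Classical in
theorem sum_cover (X a : ℕ) (ha : 1 ≤ a) :
    (((Icc 1 X).filter fun n => ∃ s m : ℕ, 1 ≤ s ∧ 1 ≤ m ∧ n = s ^ 2 * m ∧ ¬ (vv s m).Prime ∧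
      Good s m).card : ℝ) ≤ ∑ s ∈ Icc 1 a, ((Bad s (X / s ^ 2)).card : ℝ) + X / a := by
  have hsub : ((Icc 1 X).filter fun n => ∃ s m : ℕ, 1 ≤ s ∧ 1 ≤ m ∧ n = s ^ 2 * m ∧
      ¬ (vv s m).Prime ∧ Good s m) ⊆
      (Icc 1 a).biUnion (fun s => (Bad s (X / s ^ 2)).image fun m => s ^ 2 * m) ∪
      (Ioc a X).biUnion fun s => (Ioc 0 X).filter fun n => s ^ 2 ∣ n := by
    intro n hn
    obtain ⟨hn1, s, m, hs, hm, rfl, hp, hg⟩ := mem_filter.1 hn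
    obtain ⟨h1, h2⟩ := mem_Icc.1 hn1
    rw [mem_union, mem_biUnion, mem_biUnion]
    by_cases h : s ≤ a
    · refine Or.inl ⟨s, mem_Icc.2 ⟨hs, h⟩, mem_image.2 ⟨m, mem_filter.2 ⟨mem_Icc.2 ⟨hm, ?_⟩, hp, hg⟩,
        rfl⟩⟩
      rw [Nat.le_div_iff_mul_le (by positivity), mul_comm]
      exact h2
    · refine Or.inr ⟨s, mem_Ioc.2 ⟨by omega, ?_⟩, mem_filter.2 ⟨mem_Ioc.2 ⟨h1, h2⟩, Dvd.intro _ rfl⟩⟩
      calc s ≤ s ^ 2 * 1 := by nlinarith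
        _ ≤ s ^ 2 * m := Nat.mul_le_mul_left _ hm
        _ ≤ X := h2
  have h1 := (card_le_card hsub).trans ((card_union_le _ _).trans
    (Nat.add_le_add (card_biUnion_le.trans (sum_le_sum fun s _ => card_image_le)) card_biUnion_le))
  have h2 : (∑ s ∈ Ioc a X, (((Ioc 0 X).filter fun n => s ^ 2 ∣ n).card : ℝ)) ≤ X / a := by
    calc _ ≤ ∑ s ∈ Ioc a X, (X : ℝ) * ((s : ℝ) ^ 2)⁻¹ := by
          refine sum_le_sum fun s _ => ?_
          rw [Nat.Ioc_filter_dvd_card_eq_div, ← div_eq_mul_inv]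
          exact Nat.cast_div_le.trans (by push_cast; rfl)
      _ ≤ X * (a : ℝ)⁻¹ := by
          rw [← mul_sum]
          exact mul_le_mul_of_nonneg_left (sum_tail_le a X ha) (by positivity)
      _ = _ := (div_eq_mul_inv _ _).symm
  have h3 := (Nat.cast_le (α := ℝ)).2 h1
  push_cast at h3
  linarith

open Classical in
theorem bad_J (ε : ℝ) (hε : 0 < ε) : ∀ᶠ J : ℕ in atTop, ∀ X : ℕ, T (J + 11) ≤ X → X < T (J + 12) →
    (((Icc 1 X).filter fun n => ∃ s m : ℕ, 1 ≤ s ∧ 1 ≤ m ∧ n = s ^ 2 * m ∧ ¬ (vv s m).Prime ∧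
      Good s m).card : ℝ) ≤ ε * (X / 2 ^ J) := by
  obtain ⟨C1, hC1, H1⟩ := R1
  obtain ⟨C3, hC3, H3⟩ := R3
  have hL : 0 < Real.log 2 := Real.log_pos one_lt_two
  obtain ⟨h, hh⟩ : ∃ h : ℕ, C1 * Real.exp (-(Real.log 2 * (h / 4))) ≤ ε / 30 := by
    have t1 : Tendsto (fun h : ℕ => Real.log 2 * ((h : ℝ) / 4)) atTop atTop :=
      (tendsto_natCast_atTop_atTop.atTop_div_const (by norm_num)).const_mul_atTop hL
    have t2 := (Real.tendsto_exp_neg_atTop_nhds_zero.comp t1).const_mul C1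
    rw [mul_zero] at t2
    exact (t2.eventually (ge_mem_nhds (by positivity : (0 : ℝ) < ε / 30))).exists
  set K : ℝ := C3 * 2 ^ h + 1 with hK
  have hK0 : 0 < K := by positivity
  obtain ⟨S, hS⟩ := exists_nat_ge (10 * K / ε + 1)
  have hS0 : (0 : ℝ) < 10 * K / ε := by positivity
  have hS1 : 1 ≤ S := by exact_mod_cast (by linarith : (1 : ℝ) ≤ S)
  have hδ : (0 : ℝ) < ε / (20 * K) := by positivity
  have hE : ∀ᶠ J : ℕ in atTop, ∀ s ∈ Icc 1 S,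
      Real.exp (-∑ p ∈ EO ((2 * s) ^ 2) (J - h), (p : ℝ)⁻¹) ≤ ε / (20 * K) := by
    rw [eventually_all_finset]
    intro s hs
    have hs1 := (mem_Icc.1 hs).1
    have t1 := (even_div (u := (2 * s) ^ 2) (by nlinarith)).comp (tendsto_sub_atTop_nat h)
    exact (Real.tendsto_exp_neg_atTop_nhds_zero.comp t1).eventually (ge_mem_nhds hδ)
  have hP : ∀ᶠ J : ℕ in atTop, 5 / ε ≤ (2 : ℝ) ^ J :=
    (tendsto_pow_atTop_atTop_of_one_lt one_lt_two).eventually_ge_atTop _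
  filter_upwards [R2 h (ε / 30) (by positivity), hE, hP, eventually_ge_atTop h,
    pow_le_T 8 (ε / 20) (by positivity)] with J H2 hE hP hJ h8 X hX1 hX2
  have hX0 : (0 : ℝ) ≤ X := by positivity
  have h2J : (0 : ℝ) < 2 ^ J := by positivity
  have hT9 : (0 : ℝ) < T (J + 9) := by exact_mod_cast (two_le_T _).trans_lt' two_pos
  set b : ℕ → ℝ := fun s => Real.exp (-∑ p ∈ EO ((2 * s) ^ 2) (J - h), (p : ℝ)⁻¹) with hb
  have hb1 : ∀ s, b s ≤ 1 := fun s => Real.exp_le_one_iff.2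
    (neg_nonpos.2 (sum_nonneg fun _ _ => by positivity))
  have hone : ∀ s ∈ Icc 1 (4 ^ J), ((Bad s (X / s ^ 2)).card : ℝ) ≤
      (ε / 15 * (√(s : ℝ) / (s : ℝ) ^ 2) + K * (b s / (s : ℝ) ^ 2)) * (X / 2 ^ J) +
        4 * (X / T (J + 9)) := by
    intro s hs
    have hs1 := (mem_Icc.1 hs).1
    have hpar : Par J X s (X / s ^ 2) := ⟨hX1, hX2, hs1, Nat.mul_div_le _ _⟩
    obtain ⟨S1, S2, S3, a1, a2, a3, b1, b2, b3, hc⟩ :=
      sum_bad_split (s := s) (Y := X / s ^ 2) (t := T (J - h))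
    have c1 := H1 J h X s _ hpar hJ S1 a1 b1
    have c2 := H2 X s _ hpar S2 a2 b2
    have c3 := H3 J h X s _ hpar hJ S3 a3 b3
    have hc' : ((Bad s (X / s ^ 2)).card : ℝ) ≤ S1.card + S2.card + S3.card := by
      exact_mod_cast hc
    have hY : ((X / s ^ 2 : ℕ) : ℝ) / 2 ^ J ≤ X / 2 ^ J / (s : ℝ) ^ 2 := by
      rw [div_right_comm]
      exact div_le_div_of_nonneg_right (Nat.cast_div_le.trans (by push_cast; rfl)) h2J.le
    have hY0 : (0 : ℝ) ≤ ((X / s ^ 2 : ℕ) : ℝ) / 2 ^ J := by positivity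
    have hsq : (0 : ℝ) ≤ √(s : ℝ) := Real.sqrt_nonneg _
    have hb0 : 0 ≤ b s := (Real.exp_pos _).le
    change (S3.card : ℝ) ≤ C3 * 2 ^ h * b s * _ + _ at c3
    have d1 : C1 * Real.exp (-(Real.log 2 * (h / 4))) * √(s : ℝ) * (((X / s ^ 2 : ℕ) : ℝ) / 2 ^ J) ≤
        ε / 30 * √(s : ℝ) * (X / 2 ^ J / (s : ℝ) ^ 2) := by gcongr
    have d2 : ε / 30 * √(s : ℝ) * (((X / s ^ 2 : ℕ) : ℝ) / 2 ^ J) ≤
        ε / 30 * √(s : ℝ) * (X / 2 ^ J / (s : ℝ) ^ 2) := by gcongr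
    have d3 : C3 * 2 ^ h * b s * (((X / s ^ 2 : ℕ) : ℝ) / 2 ^ J) ≤
        K * b s * (X / 2 ^ J / (s : ℝ) ^ 2) := by
      have : C3 * 2 ^ h ≤ K := by linarith
      gcongr
    have e : (ε / 15 * (√(s : ℝ) / (s : ℝ) ^ 2) + K * (b s / (s : ℝ) ^ 2)) * (X / 2 ^ J) =
        2 * (ε / 30 * √(s : ℝ) * (X / 2 ^ J / (s : ℝ) ^ 2)) +
          K * b s * (X / 2 ^ J / (s : ℝ) ^ 2) := by ring
    rw [e]
    linarith
  have ha : 1 ≤ 4 ^ J := Nat.one_le_pow _ _ (by norm_num)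
  refine (sum_cover X (4 ^ J) ha).trans ?_
  have hsum := sum_le_sum hone
  rw [sum_add_distrib, ← sum_mul, sum_add_distrib, ← mul_sum, ← mul_sum, sum_const, Nat.card_Icc,
    Nat.add_sub_cancel, nsmul_eq_mul] at hsum
  have k1 : ∑ s ∈ Icc 1 (4 ^ J : ℕ), √(s : ℝ) / (s : ℝ) ^ 2 ≤ 3 := by
    have := sum_sqrt_le (4 ^ J) ha
    have h0 : (0 : ℝ) ≤ 2 / √((4 ^ J : ℕ) : ℝ) := by positivity
    linarith
  have k2 := sum_cut_le (4 ^ J) S hS1 _ hδ.le b hb1 hE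
  have k3 : K * ∑ s ∈ Icc 1 (4 ^ J : ℕ), b s / (s : ℝ) ^ 2 ≤ ε / 5 := by
    have h1 : K * (2 * (ε / (20 * K))) = ε / 10 := by field_simp; ring
    have h2 : K * (S : ℝ)⁻¹ ≤ ε / 10 := by
      have hS' : (0 : ℝ) < S := by linarith
      rw [← div_eq_mul_inv, div_le_iff₀ hS']
      have : 10 * K / ε ≤ S := by linarith
      rw [div_le_iff₀ hε] at this
      linarith
    have h3 := mul_le_mul_of_nonneg_left k2 hK0.le
    rw [mul_add] at h3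
    linarith
  have hXJ : (0 : ℝ) ≤ X / 2 ^ J := by positivity
  have k4 : (ε / 15 * ∑ s ∈ Icc 1 (4 ^ J : ℕ), √(s : ℝ) / (s : ℝ) ^ 2 +
      K * ∑ s ∈ Icc 1 (4 ^ J : ℕ), b s / (s : ℝ) ^ 2) * (X / 2 ^ J) ≤ (ε / 5 + ε / 5) * (X / 2 ^ J) := by
    have : ε / 15 * ∑ s ∈ Icc 1 (4 ^ J : ℕ), √(s : ℝ) / (s : ℝ) ^ 2 ≤ ε / 15 * 3 := by gcongr
    exact mul_le_mul_of_nonneg_right (by linarith only [this, k3]) hXJ
  have e4 : ((4 ^ J : ℕ) : ℝ) = 2 ^ J * 2 ^ J := by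
    push_cast; rw [← mul_pow]; norm_num
  have e8 : (8 : ℝ) ^ J = 2 ^ J * 2 ^ J * 2 ^ J := by
    rw [← mul_pow, ← mul_pow]; norm_num
  have k5 : ((4 ^ J : ℕ) : ℝ) * (4 * (X / T (J + 9))) ≤ ε / 5 * (X / 2 ^ J) := by
    have hT : (T J : ℝ) ≤ T (J + 9) := by exact_mod_cast T_mono (by omega)
    have h9 : (2 : ℝ) ^ J * 2 ^ J * 2 ^ J ≤ ε / 20 * T (J + 9) := by
      rw [← e8]
      exact h8.trans (by gcongr)
    rw [e4, show (2 : ℝ) ^ J * 2 ^ J * (4 * (X / T (J + 9))) = X * (4 * (2 ^ J * 2 ^ J) / T (J + 9))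
      by ring, show ε / 5 * ((X : ℝ) / 2 ^ J) = X * (ε / 5 / 2 ^ J) by ring]
    refine mul_le_mul_of_nonneg_left ?_ hX0
    rw [div_le_div_iff₀ hT9 h2J]
    linarith only [h9]
  have k6 : (X : ℝ) / ((4 ^ J : ℕ) : ℝ) ≤ ε / 5 * (X / 2 ^ J) := by
    rw [e4, ← div_div, div_le_iff₀ h2J]
    have h1 : 1 ≤ ε / 5 * 2 ^ J := by
      rw [div_le_iff₀ hε] at hP
      linarith only [hP]
    have h2 := mul_le_mul_of_nonneg_left h1 hXJ
    linarith only [h2]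
  have k7 : 0 ≤ ε / 5 * (X / 2 ^ J) := mul_nonneg (by linarith only [hε]) hXJ
  linarith only [hsum, k4, k5, k6, k7]

end Pool.Agent.Lib.MP_56f651_co.SG
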