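import Pool.Agent.Lib.MP_56f651_co.SG.Mert

/-! A one-sided Mertens bound for real characters, uniform in the modulus. -/

open Finset Filter Topology

namespace Pool.Agent.Lib.MP_56f651_co.SG

open Pool.Agent.Lib.MP_0a06fe_nt

/-- The character divided by its argument. -/
noncomputable def umF (f : ℕ → ℤ) : ArithmeticFunction ℝ := ⟨fun n => (f n : ℝ) / n, by simp⟩

/-- The reciprocal. -/
noncomputable def umI : ArithmeticFunction ℝ := ⟨fun n => (n : ℝ)⁻¹, by simp⟩

/-- The convolution of the two. -/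
noncomputable def umR (f : ℕ → ℤ) : ArithmeticFunction ℝ := umF f * umI

/-- Harmonic numbers. -/
noncomputable def umH (m : ℕ) : ℝ := ∑ b ∈ Ioc 0 m, (b : ℝ)⁻¹

/-- Partial sums of the convolution. -/
noncomputable def umS (f : ℕ → ℤ) (y : ℕ) : ℝ := ∑ n ∈ Ioc 0 y, umR f n

theorem um_mult {f : ℕ → ℤ} {k : ℕ} (h : RC f k) : (umR f).IsMultiplicative := by
  refine ArithmeticFunction.IsMultiplicative.mul ⟨?_, ?_⟩ ⟨?_, ?_⟩
  · simp [umF, h.one]
  · intro m n _
    simp only [umF, ArithmeticFunction.coe_mk, h.mul]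
    push_cast
    rw [div_mul_div_comm]
  · simp [umI]
  · intro m n _
    simp only [umI, ArithmeticFunction.coe_mk]
    push_cast
    rw [mul_inv]

theorem um_apply (f : ℕ → ℤ) (n : ℕ) :
    umR f n = (∑ d ∈ n.divisors, (f d : ℝ)) / n := by
  rw [umR, ArithmeticFunction.mul_apply, sum_div,
    ← Nat.sum_divisorsAntidiagonal (fun a b => (f a : ℝ) / n)]
  refine sum_congr rfl fun x hx => ?_
  have := (Nat.mem_divisorsAntidiagonal.mp hx).1
  simp only [umF, umI, ArithmeticFunction.coe_mk]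
  rw [← this]
  push_cast
  rw [div_mul_eq_div_div, div_eq_mul_inv _ (x.2 : ℝ)]

theorem um_pow {f : ℕ → ℤ} {k : ℕ} (h : RC f k) (p e : ℕ) : f (p ^ e) = f p ^ e := by
  induction e with
  | zero => simp [h.one]
  | succ e ih => rw [pow_succ, h.mul, ih, pow_succ]

theorem um_nonneg {f : ℕ → ℤ} {k : ℕ} (h : RC f k) (n : ℕ) : 0 ≤ umR f n := by
  rcases eq_or_ne n 0 with rfl | hn
  · simp
  rw [(um_mult h).multiplicative_factorization _ hn]
  refine prod_nonneg fun p hp => ?_
  have hpp := Nat.prime_of_mem_primeFactors hp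
  beta_reduce
  rw [um_apply, Nat.sum_divisors_prime_pow hpp]
  refine div_nonneg ?_ (by positivity)
  simp only [um_pow h]
  have hb := abs_le.mp (h.bd p)
  by_cases h0 : 0 ≤ f p
  · refine sum_nonneg fun i _ => ?_
    exact_mod_cast pow_nonneg h0 i
  · have : f p = -1 := by omega
    rw [this]
    push_cast
    rw [neg_one_geom_sum]
    split_ifs <;> norm_num

theorem um_prime {f : ℕ → ℤ} {k : ℕ} (h : RC f k) {p : ℕ} (hp : p.Prime) :
    umR f p = (1 + f p) / p := by
  rw [um_apply, hp.sum_divisors, h.one]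
  push_cast
  ring

theorem umS_eq (f : ℕ → ℤ) (y : ℕ) :
    umS f y = ∑ a ∈ Ioc 0 y, (f a : ℝ) / a * umH (y / a) := by
  rw [umS, umR, ArithmeticFunction.sum_Ioc_mul_eq_sum_sum]
  rfl

theorem umH_eq (m : ℕ) : umH m = (harmonic m : ℝ) := by
  rw [harmonic_eq_sum_Icc, umH]
  push_cast
  rfl

theorem umH_nonneg (m : ℕ) : 0 ≤ umH m := sum_nonneg fun _ _ => by positivity

theorem umH_mono {m n : ℕ} (h : m ≤ n) : umH m ≤ umH n :=
  sum_le_sum_of_subset_of_nonneg (Ioc_subset_Ioc_right h) fun _ _ _ => by positivity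

theorem umH_approx {y a : ℕ} (ha : 1 ≤ a) (hay : a ≤ y) :
    |umH (y / a) - (Real.log y - Real.log a + Real.eulerMascheroniConstant)| ≤ 2 * a / y := by
  set m := y / a with hm
  have hm1 : 1 ≤ m := (Nat.le_div_iff_mul_le ha).mpr (by omega)
  have h1 := Real.eulerMascheroniSeq_lt_eulerMascheroniConstant m
  have h2 := Real.eulerMascheroniConstant_lt_eulerMascheroniSeq' m
  rw [Real.eulerMascheroniSeq] at h1
  rw [Real.eulerMascheroniSeq', if_neg (by omega)] at h2
  rw [← umH_eq] at h1 h2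
  have har : (0 : ℝ) < a := by exact_mod_cast ha
  have hmr : (1 : ℝ) ≤ m := by exact_mod_cast hm1
  have hyr : (0 : ℝ) < y := by exact_mod_cast (by omega : 0 < y)
  have h3 : (m : ℝ) * a ≤ y := by exact_mod_cast Nat.div_mul_le_self y a
  have h4 : (y : ℝ) ≤ (m + 1) * a := by
    have := Nat.lt_div_mul_add (a := y) (b := a) ha
    have h5 : y ≤ (m + 1) * a := by rw [add_mul, one_mul]; exact this.le
    exact_mod_cast h5
  have h5 : Real.log m + Real.log a ≤ Real.log y := by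
    rw [← Real.log_mul (by positivity) har.ne']
    exact Real.log_le_log (by positivity) h3
  have h6 : Real.log y ≤ Real.log (m + 1) + Real.log a := by
    rw [← Real.log_mul (by positivity) har.ne']
    exact Real.log_le_log hyr h4
  have h7 : Real.log (m + 1) - Real.log m ≤ 2 * a / y := by
    rw [← Real.log_div (by positivity) (by positivity)]
    refine (Real.log_le_sub_one_of_pos (by positivity)).trans ?_
    have : ((m : ℝ) + 1) / m - 1 = 1 / m := by field_simp; ring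
    rw [this, div_le_div_iff₀ (by positivity) hyr]
    nlinarith
  rw [abs_le]
  constructor <;> linarith

/-- The truncated sums are an affine function of the logarithm, up to a small error. -/
theorem umS_approx {f : ℕ → ℤ} {k : ℕ} (h : RC f k) {u : ℕ} (hu : 1 ≤ u) :
    ∃ A B : ℝ, ∀ y : ℕ, u ≤ y →
      |umS f y - (A * Real.log y + B)| ≤ 2 + k * (1 + Real.log y) / u := by
  refine ⟨∑ a ∈ Ioc 0 u, (f a : ℝ) / a,
    ∑ a ∈ Ioc 0 u, (f a : ℝ) / a * (Real.eulerMascheroniConstant - Real.log a), fun y hy => ?_⟩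
  have hb : ∀ a, |(f a : ℝ)| ≤ 1 := fun a => by exact_mod_cast h.bd a
  have hur : (0 : ℝ) < u := by exact_mod_cast hu
  have hyr : (0 : ℝ) < y := by exact_mod_cast (by omega : 0 < y)
  have huy : (u : ℝ) ≤ y := by exact_mod_cast hy
  rw [umS_eq, ← sum_Ioc_consecutive _ (Nat.zero_le u) hy]
  have e1 : |∑ a ∈ Ioc 0 u, (f a : ℝ) / a * umH (y / a) - ((∑ a ∈ Ioc 0 u, (f a : ℝ) / a) *
      Real.log y + ∑ a ∈ Ioc 0 u, (f a : ℝ) / a *
        (Real.eulerMascheroniConstant - Real.log a))| ≤ 2 := by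
    rw [sum_mul, ← sum_add_distrib, ← sum_sub_distrib]
    refine (abs_sum_le_sum_abs _ _).trans ?_
    have : ∀ a ∈ Ioc 0 u, |(f a : ℝ) / a * umH (y / a) - ((f a : ℝ) / a * Real.log y +
        (f a : ℝ) / a * (Real.eulerMascheroniConstant - Real.log a))| ≤ 2 / y := by
      intro a ha
      obtain ⟨ha1, ha2⟩ := mem_Ioc.mp ha
      have har : (0 : ℝ) < a := by exact_mod_cast ha1
      have h1 := umH_approx (y := y) ha1 (ha2.trans hy)
      have h2 : (f a : ℝ) / a * umH (y / a) - ((f a : ℝ) / a * Real.log y +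
          (f a : ℝ) / a * (Real.eulerMascheroniConstant - Real.log a)) = (f a : ℝ) / a *
          (umH (y / a) - (Real.log y - Real.log a + Real.eulerMascheroniConstant)) := by ring
      rw [h2, abs_mul, abs_div, abs_of_pos har]
      calc |(f a : ℝ)| / a * |umH (y / a) - (Real.log y - Real.log a +
            Real.eulerMascheroniConstant)| ≤ 1 / a * (2 * a / y) := by
            gcongr
            exact hb a
        _ = 2 / y := by field_simp
    refine (sum_le_sum this).trans ?_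
    simp only [sum_const, Nat.card_Ioc, Nat.sub_zero, nsmul_eq_mul]
    rw [← mul_div_assoc, div_le_iff₀ hyr]
    linarith
  have e2 : |∑ a ∈ Ioc u y, (f a : ℝ) / a * umH (y / a)| ≤ k * (1 + Real.log y) / u := by
    obtain ⟨v, hv, hv1⟩ := h.flip
    have h0 : ∑ n ∈ range k, (f n : ℝ) = 0 :=
      sum_eq_zero_of_flip (fun n => (f n : ℝ)) k v h.pos (fun n => by simp only [h.per]) hv
        (fun n => by simp only [h.mul, hv1]; push_cast; ring)
    have h1 := periodic_weighted_bound (fun n => (f n : ℝ)) (fun a => umH (y / a) / a) k 1 h.pos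
      (fun n => by simp only [h.per]) hb h0 (u + 1) (y + 1) (by omega)
      (fun n hn => by
        have hn0 : (0 : ℝ) < n := by exact_mod_cast (by omega : 0 < n)
        have := umH_mono (Nat.div_le_div_left (a := y) (Nat.le_succ n) (by omega))
        have h3 := umH_nonneg (y / n)
        push_cast
        gcongr
        linarith)
      (div_nonneg (umH_nonneg _) (by positivity))
    have h2 : ∑ a ∈ Ioc u y, (f a : ℝ) / a * umH (y / a)
        = ∑ a ∈ Ico (u + 1) (y + 1), (f a : ℝ) * (umH (y / a) / a) := by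
      rw [Finset.Ico_add_one_add_one_eq_Ioc]
      exact sum_congr rfl fun a _ => by ring
    rw [h2]
    refine h1.trans ?_
    have h3 : umH (y / (u + 1)) ≤ 1 + Real.log y := by
      refine (umH_mono (Nat.div_le_self _ _)).trans ?_
      rw [umH_eq]
      exact harmonic_le_one_add_log y
    have h4 := umH_nonneg (y / (u + 1))
    rw [mul_one, mul_div_assoc]
    push_cast
    gcongr
    linarith
  have e3 : ∀ a b c : ℝ, a + b - c = (a - c) + b := fun a b c => by ring
  rw [e3]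
  exact (abs_add_le _ _).trans (add_le_add e1 e2)

theorem umS_ge_one {f : ℕ → ℤ} {k : ℕ} (h : RC f k) {y : ℕ} (hy : 1 ≤ y) : 1 ≤ umS f y := by
  have := single_le_sum (f := fun n => umR f n) (s := Ioc 0 y) (fun n _ => um_nonneg h n)
    (a := 1) (mem_Ioc.mpr ⟨one_pos, hy⟩)
  rwa [(um_mult h).1] at this

/-- Growth of the truncated sums along the scale. -/
theorem umS_growth {f : ℕ → ℤ} {k : ℕ} (h : RC f k) {i j : ℕ} (hk : k ≤ T i) (hij : i + 2 ≤ j) :
    umS f (T (i + 2) * T j ^ 7) ≤ 400 * 2 ^ (j - (i + 2)) * umS f (T (i + 2)) := by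
  obtain ⟨d, rfl⟩ := Nat.exists_eq_add_of_le hij
  rw [Nat.add_sub_cancel_left]
  have hT : ∀ m, 1 ≤ T m := fun m => (by norm_num : 1 ≤ 2).trans (two_le_T m)
  obtain ⟨A, B, hAB⟩ := umS_approx h (hT (i + 1))
  have h1 := hAB (T (i + 1)) le_rfl
  have h2 := hAB (T (i + 2)) (T_mono (by omega))
  have h3 := hAB (T (i + 2) * T (i + 2 + d) ^ 7)
    ((T_mono (by omega : i + 1 ≤ i + 2)).trans
      (Nat.le_mul_of_pos_right _ (pow_pos (hT _) _)))
  have hTr : ∀ m, (0 : ℝ) < T m := fun m => by exact_mod_cast hT m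
  push_cast at h3
  rw [Real.log_mul (hTr _).ne' (pow_pos (hTr _) _).ne', Real.log_pow, log_T, log_T] at h3
  rw [log_T] at h1 h2
  have hL0 : 0 < Real.log 2 := Real.log_pos one_lt_two
  have hL1 : Real.log 2 ≤ 1 := by have := Real.log_two_lt_d9; linarith
  have hS1 := umS_ge_one h (hT (i + 1))
  have hS2 := umS_ge_one h (hT (i + 2))
  have hx : (2 : ℝ) ^ i ≤ T i := by
    have : 2 ^ i ≤ T i := Nat.pow_le_pow_right (by norm_num) (Nat.lt_two_pow_self).le
    exact_mod_cast this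
  have hkr : (k : ℝ) ≤ T i := by exact_mod_cast hk
  have hx1 : (1 : ℝ) ≤ 2 ^ i := one_le_pow₀ one_le_two
  have hD1 : (1 : ℝ) ≤ 2 ^ d := one_le_pow₀ one_le_two
  have hkx : (k : ℝ) * 2 ^ i ≤ T (i + 1) := by
    rw [T_succ]
    push_cast
    rw [sq]
    exact mul_le_mul hkr hx (by positivity) (hTr i).le
  have herr : ∀ c t : ℝ, 0 ≤ c → t ≤ c * 2 ^ i → k * t / T (i + 1) ≤ c := by
    intro c t hc ht
    rw [div_le_iff₀ (hTr _)]
    calc (k : ℝ) * t ≤ k * (c * 2 ^ i) := by gcongr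
      _ = c * (k * 2 ^ i) := by ring
      _ ≤ c * T (i + 1) := by gcongr
  simp only [pow_add] at h1 h2 h3
  set x : ℝ := 2 ^ i
  set D : ℝ := 2 ^ d
  set L := Real.log 2
  have hxL : x * L ≤ x := by nlinarith
  have hxL0 : 0 ≤ x * L := by positivity
  have g1 := herr 3 (1 + x * 2 ^ 1 * L) (by norm_num) (by nlinarith)
  have g2 := herr 5 (1 + x * 2 ^ 2 * L) (by norm_num) (by nlinarith)
  have g3 := herr (33 * D) (1 + (x * 2 ^ 2 * L + (7 : ℕ) * (x * 2 ^ 2 * D * L))) (by positivity)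
    (by
      push_cast
      have : x * L * D ≤ x * D := by gcongr
      have : x ≤ x * D := by nlinarith
      nlinarith)
  obtain ⟨a1, a2⟩ := abs_le.mp h1
  obtain ⟨b1, b2⟩ := abs_le.mp h2
  obtain ⟨c1, c2⟩ := abs_le.mp h3
  set S1 := umS f (T (i + 1))
  set S2 := umS f (T (i + 2))
  have k1 : A * (x * L) * 2 ≤ 13 * S2 := by nlinarith
  have k2 : A * (x * L) * 2 * D ≤ 13 * S2 * D := by gcongr
  have k3 : D ≤ S2 * D := by nlinarith
  have k4 : S2 ≤ S2 * D := by nlinarith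
  push_cast at c2 g3
  nlinarith

/-- Products of a small number and of large primes. -/
theorem umS_mul {f : ℕ → ℤ} {k : ℕ} (h : RC f k) (Q : Finset ℕ) (w z : ℕ)
    (hQ : ∀ p ∈ Q, p.Prime ∧ w < p) :
    umS f w * ∑ e ∈ sieveSet Q z, ∏ p ∈ e, umR f p ≤ umS f (w * z) := by
  classical
  have hsub : ∀ e ∈ sieveSet Q z, e ⊆ Q ∧ ∏ p ∈ e, p ≤ z := fun e he => by
    obtain ⟨h1, h2⟩ := mem_filter.mp he
    exact ⟨mem_powerset.mp h1, h2⟩
  have hnd : ∀ m ∈ Ioc 0 w, ∀ p ∈ Q, ¬ p ∣ m := fun m hm p hp hd => by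
    obtain ⟨h1, h2⟩ := mem_Ioc.mp hm
    have := Nat.le_of_dvd h1 hd
    have := (hQ p hp).2
    omega
  have hmem : ∀ m ∈ Ioc 0 w, ∀ e ∈ sieveSet Q z, ∀ p ∈ Q, p ∣ m * ∏ q ∈ e, q → p ∈ e := by
    intro m hm e he p hp hd
    have hpp := (hQ p hp).1
    rcases (Nat.Prime.dvd_mul hpp).mp hd with h1 | h1
    · exact absurd h1 (hnd m hm p hp)
    · obtain ⟨q, hq, hpq⟩ := (Prime.dvd_finsetProd_iff hpp.prime _).mp h1
      rwa [(Nat.prime_dvd_prime_iff_eq hpp (hQ q ((hsub e he).1 hq)).1).mp hpq]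
  have hinj : Set.InjOn (fun x : ℕ × Finset ℕ => x.1 * ∏ p ∈ x.2, p)
      ((Ioc 0 w ×ˢ sieveSet Q z : Finset (ℕ × Finset ℕ)) : Set (ℕ × Finset ℕ)) := by
    rintro ⟨m, e⟩ hx ⟨m', e'⟩ hy hxy
    obtain ⟨hm, he⟩ := mem_product.mp (mem_coe.mp hx)
    obtain ⟨hm', he'⟩ := mem_product.mp (mem_coe.mp hy)
    simp only at hxy hm he hm' he'
    have hee : e = e' := by
      ext p
      constructor
      · intro hp
        refine hmem m' hm' e' he' p ((hsub e he).1 hp) ?_
        rw [← hxy]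
        exact (dvd_prod_of_mem _ hp).mul_left _
      · intro hp
        refine hmem m hm e he p ((hsub e' he').1 hp) ?_
        rw [hxy]
        exact (dvd_prod_of_mem _ hp).mul_left _
    subst hee
    have hpos : 0 < ∏ p ∈ e, p := prod_pos fun p hp => (hQ p ((hsub e he).1 hp)).1.pos
    rw [Nat.eq_of_mul_eq_mul_right hpos hxy]
  rw [umS, sum_mul_sum, ← sum_product']
  have h1 : ∑ x ∈ Ioc 0 w ×ˢ sieveSet Q z, umR f x.1 * ∏ p ∈ x.2, umR f p
      = ∑ x ∈ Ioc 0 w ×ˢ sieveSet Q z, umR f (x.1 * ∏ p ∈ x.2, p) := by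
    refine sum_congr rfl fun x hx => ?_
    obtain ⟨hm, he⟩ := mem_product.mp hx
    rw [(um_mult h).map_mul_of_coprime, (um_mult h).map_prod_of_prime _
      fun p hp => (hQ p ((hsub _ he).1 hp)).1]
    refine Nat.Coprime.prod_right fun p hp => ?_
    have hp' := (hsub _ he).1 hp
    exact ((Nat.Prime.coprime_iff_not_dvd (hQ p hp').1).mpr (hnd _ hm p hp')).symm
  rw [h1, ← sum_image (f := fun n => umR f n) hinj]
  refine sum_le_sum_of_subset_of_nonneg ?_ fun n _ _ => um_nonneg h n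
  intro n hn
  obtain ⟨x, hx, rfl⟩ := mem_image.mp hn
  obtain ⟨hm, he⟩ := mem_product.mp hx
  obtain ⟨h2, h3⟩ := mem_Ioc.mp hm
  exact mem_Ioc.mpr ⟨Nat.mul_pos h2 (prod_pos fun p hp => (hQ p ((hsub _ he).1 hp)).1.pos),
    Nat.mul_le_mul h3 (hsub _ he).2⟩

theorem um : ∃ C : ℝ, 0 ≤ C ∧ ∀ (f : ℕ → ℤ) (k : ℕ), RC f k → ∀ i j : ℕ, k ^ 4 ≤ T i → i ≤ j →
    ∑ p ∈ PB i j, (f p : ℝ) / p ≤ C := by
  obtain ⟨C, hC0, hC⟩ := mert
  refine ⟨C + 4 + 800, by linarith, fun f k h i j hk hij => ?_⟩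
  have hk2 : 2 ≤ k := by
    by_contra hlt
    have hk1 : k = 1 := by have := h.pos; omega
    subst hk1
    obtain ⟨v, -, hv⟩ := h.flip
    have hc : ∀ n, f n = f 0 := fun n => by
      induction n with
      | zero => rfl
      | succ n ih => rw [h.per, ih]
    have h1 := h.one
    rw [hc] at hv h1
    omega
  have hi2 : 2 ≤ i := by
    by_contra hlt
    have h1 : T i ≤ T 1 := T_mono (by omega)
    have h2 : T 1 = 4 := by rw [T_succ, T_zero]; norm_num
    have h3 : 2 ^ 4 ≤ k ^ 4 := Nat.pow_le_pow_left hk2 4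
    omega
  obtain ⟨i, rfl⟩ : ∃ i', i = i' + 2 := ⟨i - 2, by omega⟩
  have hkT : k ≤ T i := by
    rw [T_add] at hk
    exact (Nat.pow_le_pow_iff_left (by norm_num)).mp hk
  have hQ : ∀ p ∈ PB (i + 2) j, p.Prime ∧ T (i + 2) < p := fun p hp => by
    obtain ⟨h1, h2, -⟩ := mem_PB.mp hp
    refine ⟨h1, lt_of_le_of_ne h2 fun he => ?_⟩
    rw [← he, T_succ] at h1
    exact Nat.Prime.not_prime_pow' (by norm_num) h1
  have hb : ∀ a, -1 ≤ (f a : ℝ) ∧ (f a : ℝ) ≤ 1 := fun a => by
    have := abs_le.mp (h.bd a)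
    exact ⟨by exact_mod_cast this.1, by exact_mod_cast this.2⟩
  set g : ℕ → ℝ := fun p => (1 + f p) / (p + (1 + f p)) with hg
  have hp2 : ∀ p ∈ PB (i + 2) j, (2 : ℝ) ≤ p := fun p hp => by
    exact_mod_cast (hQ p hp).1.two_le
  have hsel := selG_ge (PB (i + 2) j) (T j ^ 7) (T j) g (two_le_T j) le_rfl
    (fun p hp => ⟨(hQ p hp).1.one_le, (mem_PB.mp hp).2.2.le⟩)
    (fun p hp => by
      have := hp2 p hp
      obtain ⟨h1, h2⟩ := hb p
      refine ⟨div_nonneg (by linarith) (by linarith), ?_⟩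
      simp only [hg]
      rw [div_le_iff₀ (by linarith)]
      linarith)
    (by
      have h1 := sum_log_div_le (n := T j) ((by norm_num : 1 ≤ 2).trans (two_le_T j))
      have h2 : ∑ p ∈ PB (i + 2) j, g p * Real.log p
          ≤ ∑ p ∈ PB (i + 2) j, 2 * (Real.log p / p) := by
        refine sum_le_sum fun p hp => ?_
        have := hp2 p hp
        obtain ⟨h1, h2⟩ := hb p
        have hl : 0 ≤ Real.log p := Real.log_nonneg (by linarith)
        have : g p ≤ 2 / p := by
          simp only [hg]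
          rw [div_le_div_iff₀ (by linarith) (by linarith)]
          nlinarith
        calc g p * Real.log p ≤ 2 / p * Real.log p := by gcongr
          _ = 2 * (Real.log p / p) := by ring
      have h3 : ∑ p ∈ PB (i + 2) j, Real.log p / p ≤ ∑ p ∈ (T j).primesLE, Real.log p / p := by
        refine sum_le_sum_of_subset_of_nonneg (fun p hp => ?_) fun p _ _ =>
          div_nonneg (Real.log_natCast_nonneg p) (by positivity)
        exact Nat.mem_primesLE.mpr ⟨(mem_PB.mp hp).2.2.le, (hQ p hp).1⟩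
      have h4 : 2 * Real.log 4 ≤ Real.log (T j) := by
        have h5 : (16 : ℝ) ≤ T j := by exact_mod_cast sixteen_le_T (by omega : 2 ≤ j)
        have h6 : 2 * Real.log 4 = Real.log 16 := by
          rw [show (16 : ℝ) = 4 ^ 2 by norm_num, Real.log_pow]; norm_num
        rw [h6]
        exact Real.log_le_log (by norm_num) h5
      rw [← mul_sum] at h2
      linarith)
  have hG : selG (PB (i + 2) j) (T j ^ 7) g
      = ∑ e ∈ sieveSet (PB (i + 2) j) (T j ^ 7), ∏ p ∈ e, umR f p := by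
    refine sum_congr rfl fun e he => prod_congr rfl fun p hp => ?_
    have hp' := mem_powerset.mp (mem_filter.mp he).1 hp
    have := hp2 p hp'
    obtain ⟨h1, h2⟩ := hb p
    rw [um_prime h (hQ p hp').1]
    simp only [hg]
    have h3 : (p : ℝ) + (1 + f p) ≠ 0 := by linarith
    have h4 : (p : ℝ) ≠ 0 := by linarith
    have h5 : 1 - (1 + (f p : ℝ)) / (p + (1 + f p)) = p / (p + (1 + f p)) := by
      field_simp; ring
    rw [h5]
    field_simp
  have h1 := umS_mul h (PB (i + 2) j) (T (i + 2)) (T j ^ 7) hQ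
  have h2 := umS_growth h hkT hij
  have h3 := umS_ge_one h ((by norm_num : 1 ≤ 2).trans (two_le_T (i + 2)))
  rw [← hG] at h1
  have h4 : selG (PB (i + 2) j) (T j ^ 7) g ≤ 400 * 2 ^ (j - (i + 2)) := by
    have := h1.trans h2
    rw [mul_comm] at this
    exact le_of_mul_le_mul_right this (by linarith)
  have h5 : ∑ p ∈ PB (i + 2) j, g p ≤ 800 + ((j : ℝ) - (i + 2 : ℕ)) * Real.log 2 := by
    have h6 : Real.exp (∑ p ∈ PB (i + 2) j, g p) ≤ 800 * 2 ^ (j - (i + 2)) := by linarith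
    have h7 := Real.log_le_log (Real.exp_pos _) h6
    rw [Real.log_exp, Real.log_mul (by norm_num) (by positivity), Real.log_pow,
      Nat.cast_sub hij] at h7
    have h8 := Real.log_le_sub_one_of_pos (by norm_num : (0 : ℝ) < 800)
    linarith
  have h6 : ∑ p ∈ PB (i + 2) j, ((p : ℝ)⁻¹ + (f p : ℝ) / p - 4 * ((p : ℝ) ^ 2)⁻¹)
      ≤ ∑ p ∈ PB (i + 2) j, g p := by
    refine sum_le_sum fun p hp => ?_
    have := hp2 p hp
    obtain ⟨h1, h2⟩ := hb p
    simp only [hg]
    have h4 : (p : ℝ) ≠ 0 := by linarith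
    have h5 : (p : ℝ)⁻¹ + (f p : ℝ) / p - 4 * ((p : ℝ) ^ 2)⁻¹
        = ((1 + f p) * p - 4) / p ^ 2 := by field_simp
    rw [h5, div_le_div_iff₀ (by positivity) (by linarith)]
    have h7 : (1 + (f p : ℝ)) ^ 2 ≤ 4 := by nlinarith
    have h8 : (1 + (f p : ℝ)) ^ 2 * p ≤ 4 * p := by gcongr
    nlinarith
  rw [sum_sub_distrib, sum_add_distrib, ← mul_sum] at h6
  have h7 := sum_inv_sq_le (PB (i + 2) j) (z := 1) le_rfl fun p hp => (hQ p hp).1.one_lt
  have h8 := (abs_le.mp (hC (i + 2) j hij)).1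
  simp only [Nat.cast_one, inv_one] at h7
  linarith

end Pool.Agent.Lib.MP_56f651_co.SG
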